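import Pool.Agent.H851.TT.Fin

/-!
# Tate forms of representations of K3 type: the definitions used in the statements
-/

set_option autoImplicit false
set_option linter.unusedSectionVars false

namespace Pool.Agent.H851.TT

open Matrix Finset Function Module
open NumberField IsDedekindDomain Polynomial
open Pool.Agent.N429.KS
open Pool.Agent.H851.K3
open Pool.Agent.H851.KT
open Pool.Agent.NH56.HY (GK tw tw_apply chi_ne)

variable {K : Type} [Field K] {ℓ : ℕ} [hℓ : Fact ℓ.Prime] {n : Type} [Fintype n] [DecidableEq n]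

/-- The system `𝒜` of spaces of forms on the powers of `V` contains all Tate forms of degree `m`: the
multilinear forms on `V(1) ^ m` which are invariant under an open subgroup of the Galois group. -/
def HasTateForms (𝒜 : Sys ℚ_[ℓ] n) (χ : GK K →* ℚ_[ℓ]) (ρ : GK K →* Matrix n n ℚ_[ℓ]) (m : ℕ) :
    Prop :=
  ∀ f : (Fin m → n) → ℚ_[ℓ], InvForm (tw χ ρ) f → f ∈ 𝒜.Alg (Fin m)

/-- The system `𝒜` contains all alternating Tate forms of degree `m`. -/
def HasAltTateForms (𝒜 : Sys ℚ_[ℓ] n) (χ : GK K →* ℚ_[ℓ]) (ρ : GK K →* Matrix n n ℚ_[ℓ]) (m : ℕ) :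
    Prop :=
  ∀ f : (Fin m → n) → ℚ_[ℓ], InvForm (tw χ ρ) f → IsAlt f → f ∈ 𝒜.Alg (Fin m)

/-- There is a Tate endomorphism which is skew with respect to `q` and injective on the transcendental
part (complex multiplication). -/
def HasSkewEnd (q : Matrix n n ℚ_[ℓ]) (χ : GK K →* ℚ_[ℓ]) (ρ : GK K →* Matrix n n ℚ_[ℓ]) : Prop :=
  ∃ Θ, IsTateEnd ρ Θ ∧ Θᵀ * q = -(q * Θ) ∧ ∀ x ∈ orth q (tate χ ρ), Θ *ᵥ x = 0 → x = 0

/-- All Tate endomorphisms are scalars on the transcendental part. -/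
def ScalarEnds (q : Matrix n n ℚ_[ℓ]) (χ : GK K →* ℚ_[ℓ]) (ρ : GK K →* Matrix n n ℚ_[ℓ]) : Prop :=
  ∀ Y, IsTateEnd ρ Y → ∃ a : ℚ_[ℓ], ∀ x ∈ orth q (tate χ ρ), Y *ᵥ x = a • x

/-- The form is rational, and the space of the Tate classes is spanned by a rational subspace on which the
form is nondegenerate: for `H^2` of a surface this follows from the Tate conjecture for divisors, by the
Hodge index theorem. -/
def RationalTate (q : Matrix n n ℚ_[ℓ]) (χ : GK K →* ℚ_[ℓ]) (ρ : GK K →* Matrix n n ℚ_[ℓ]) : Prop :=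
  ∃ (q₀ : Matrix n n ℚ) (N : Submodule ℚ (n → ℚ)), q = q₀.map (algebraMap ℚ ℚ_[ℓ]) ∧
    N ⊓ orth q₀ N = ⊥ ∧
    tate χ ρ = Submodule.span ℚ_[ℓ] ((fun y : n → ℚ => fun i => algebraMap ℚ ℚ_[ℓ] (y i)) '' N)

theorem unit_of_one {𝒜 : Sys ℚ_[ℓ] n} {χ : GK K →* ℚ_[ℓ]} {ρ : GK K →* Matrix n n ℚ_[ℓ]}
    (h : HasTateForms 𝒜 χ ρ 1) (f : (Unit → n) → ℚ_[ℓ]) (hf : InvForm (tw χ ρ) f) :
    f ∈ 𝒜.Alg Unit := by
  have e : Unit ≃ Fin 1 := (Fintype.equivFinOfCardEq rfl)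
  have h1 := 𝒜.re e.symm (h _ (inv_re e hf))
  have h2 : (fun J : Unit → n => f ((J ∘ e.symm) ∘ e)) = f :=
    funext fun J => congrArg f (funext fun s => by simp)
  rwa [h2] at h1

/-- semisimplicity over `ℚ` -/
theorem semisimple_of_rational {q : Matrix n n ℚ_[ℓ]} {S : Finset ℕ} {χ : GK ℚ →* ℚ_[ℓ]}
    {Pol : HeightOneSpectrum (𝓞 ℚ) → ℤ[X]} {ρ : GK ℚ →* Matrix n n ℚ_[ℓ]}
    (h : IsK3Type q S χ Pol ρ) (hr : RationalTate q χ ρ) : Semisimple ρ := by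
  obtain ⟨q₀, NS, hq, hNS, hR⟩ := hr
  have hsymm : ∀ x y : n → ℚ_[ℓ], x ⬝ᵥ q *ᵥ y = y ⬝ᵥ q *ᵥ x := by
    intro x y
    rw [Matrix.dotProduct_mulVec y, ← Matrix.mulVec_transpose, h.symm, dotProduct_comm]
  rw [semisimple_iff h]
  intro x hx hxy
  have hsymm₀ : q₀ᵀ = q₀ := by
    have h3 := h.symm
    rw [hq, ← Matrix.transpose_map] at h3
    ext i j
    have h4 := congrFun (congrFun h3 i) j
    exact (algebraMap ℚ ℚ_[ℓ]).injective h4
  refine rat_nondeg q₀ NS ?_ x ?_ ?_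
  · intro y hy hyz
    have h3 : y ∈ NS ⊓ orth q₀ NS := by
      refine ⟨hy, fun z hz => ?_⟩
      rw [Matrix.dotProduct_mulVec, ← Matrix.mulVec_transpose, hsymm₀, dotProduct_comm]
      exact hyz z hz
    rw [hNS] at h3
    exact h3
  · rw [← hR]
    exact hx
  · intro y hy
    rw [← hq]
    refine hxy _ ?_
    show _ ∈ tate χ ρ
    rw [hR]
    exact Submodule.subset_span ⟨y, hy, rfl⟩

end Pool.Agent.H851.TT
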