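import Pool.Agent.H851.TT.Kf

/-!
# Tate forms of representations of K3 type: generators
-/

set_option autoImplicit false
set_option linter.unusedSectionVars false

namespace Pool.Agent.H851.TT

open Matrix Finset Function Module
open NumberField IsDedekindDomain Polynomial
open Pool.Agent.N429.KS
open Pool.Agent.H851.K3
open Pool.Agent.H851.KT
open Pool.Agent.Y114.RM
open Pool.Agent.NH56.HY (GK tw tw_apply chi_ne)
open Pool.Agent.H204R3.GP (FiniteIndexSemisimple)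
open LinearMap (toMatrix' toMatrix'_mul toMatrix'_one toMatrix'_toLin')

section

variable {k : Type} [Field k] {n : Type} [Fintype n] [DecidableEq n] {q : Matrix n n k}

theorem adj_of_form {A B : Matrix n n k} (h : ∀ x y, form q (A *ᵥ x) y = form q x (B *ᵥ y)) :
    Aᵀ * q = q * B := by
  ext i j
  have h1 := h (Pi.single i 1) (Pi.single j 1)
  rw [form_apply, form_apply, Matrix.dotProduct_mulVec, ← Matrix.vecMul_transpose,
    Matrix.vecMul_vecMul, Matrix.mulVec_mulVec, single_one_dotProduct, Matrix.mulVec_single_one,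
    Matrix.single_one_vecMul, dotProduct_single_one] at h1
  exact h1

theorem ext_mulVec {A B : Matrix n n k} (h : ∀ x, A *ᵥ x = B *ᵥ x) : A = B :=
  Matrix.toLin'.injective (LinearMap.ext fun x => by rw [toLin'_apply, toLin'_apply, h])

theorem adj_form {A B : Matrix n n k} (h : Aᵀ * q = q * B) (x y : n → k) :
    form q (A *ᵥ x) y = form q x (B *ᵥ y) := by
  rw [form_apply, form_apply, Matrix.dotProduct_mulVec, ← Matrix.vecMul_transpose,
    Matrix.vecMul_vecMul, Matrix.mulVec_mulVec, Matrix.dotProduct_mulVec, h]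

theorem adj_cm {L : Set (Matrix n n k)} (hq : q.det ≠ 0) (hskew : ∀ X ∈ L, Xᵀ * q + q * X = 0)
    {Y : Matrix n n k} (hY : Y ∈ Cm L) :
    q⁻¹ * Yᵀ * q ∈ Cm L ∧ Yᵀ * q = q * (q⁻¹ * Yᵀ * q) := by
  have q1 : q * q⁻¹ = 1 := Matrix.mul_nonsing_inv _ hq.isUnit
  have q2 : q⁻¹ * q = 1 := Matrix.nonsing_inv_mul _ hq.isUnit
  refine ⟨?_, by simp only [← Matrix.mul_assoc, q1, Matrix.one_mul]⟩
  intro X hX
  have h3 := hskew X hX
  have h4 : q * X = -(Xᵀ * q) := by rw [eq_neg_iff_add_eq_zero, add_comm]; exact h3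
  have h5 : X * q⁻¹ = -(q⁻¹ * Xᵀ) := by
    have h6 := congrArg (fun M => q⁻¹ * M * q⁻¹) h4
    simp only [← Matrix.mul_assoc, q2, Matrix.one_mul, Matrix.mul_neg, Matrix.neg_mul] at h6
    rw [h6, Matrix.mul_assoc (q⁻¹ * Xᵀ), q1, Matrix.mul_one]
  have h7 := congrArg Matrix.transpose (hY X hX)
  rw [Matrix.transpose_mul, Matrix.transpose_mul] at h7
  calc X * (q⁻¹ * Yᵀ * q) = (X * q⁻¹) * Yᵀ * q := by simp only [Matrix.mul_assoc]
    _ = -(q⁻¹ * (Xᵀ * Yᵀ) * q) := by rw [h5]; simp only [Matrix.neg_mul, Matrix.mul_assoc]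
    _ = -(q⁻¹ * (Yᵀ * Xᵀ) * q) := by rw [h7]
    _ = q⁻¹ * Yᵀ * (-(Xᵀ * q)) := by simp only [Matrix.mul_neg, Matrix.mul_assoc]
    _ = q⁻¹ * Yᵀ * q * X := by rw [← h4]; simp only [Matrix.mul_assoc]

end

section

variable {K : Type} [Field K] [NumberField K] {ℓ : ℕ} [hℓ : Fact ℓ.Prime] {n : Type}
    [Fintype n] [DecidableEq n] {q : Matrix n n ℚ_[ℓ]} {S : Finset ℕ} {χ : GK K →* ℚ_[ℓ]}
    {Pol : HeightOneSpectrum (𝓞 K) → ℤ[X]} {ρ : GK K →* Matrix n n ℚ_[ℓ]}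

theorem tw_form (h : IsK3Type q S χ Pol ρ) (g : GK K) : (tw χ ρ g)ᵀ * q * tw χ ρ g = q := by
  rw [tw_apply, Matrix.transpose_smul, Matrix.smul_mul, Matrix.smul_mul, Matrix.mul_smul,
    h.similitude g, smul_smul, smul_smul]
  have := chi_ne χ g
  rw [show (χ g)⁻¹ * (χ g)⁻¹ * χ g ^ 2 = 1 by field_simp, one_smul]

theorem tw_cont (h : IsK3Type q S χ Pol ρ) : Continuous (tw χ ρ) := by
  have h1 : Continuous fun g => (χ g)⁻¹ := h.continuous.2.inv₀ fun g => chi_ne χ g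
  exact h1.smul h.continuous.1

omit [NumberField K] in
theorem tate_tw {g : GK K} {x : n → ℚ_[ℓ]} : ρ g *ᵥ x = χ g • x ↔ tw χ ρ g *ᵥ x = x := by
  rw [tate_iff, rep_apply]

/-- linear forms given by Tate classes -/
theorem lin_inv (h : IsK3Type q S χ Pol ρ) {x : n → ℚ_[ℓ]} (hx : x ∈ tate χ ρ) :
    InvForm (tw χ ρ) (fun J : Unit → n => (q *ᵥ x) (J ())) := by
  obtain ⟨U, hU, hUx⟩ := hx
  refine ⟨U, hU, fun g hg => ?_⟩
  funext J
  rw [chg]
  have h1 : ∑ J' : Unit → n, (∏ s, tw χ ρ g (J' s) (J s)) • (q *ᵥ x) (J' ()) =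
      ∑ b, tw χ ρ g b (J ()) * (q *ᵥ x) b := by
    rw [← Equiv.sum_comp (Equiv.funUnique Unit n).symm]
    refine Finset.sum_congr rfl fun b _ => ?_
    simp
  rw [h1]
  have h2 : ∑ b, tw χ ρ g b (J ()) * (q *ᵥ x) b = ((tw χ ρ g)ᵀ *ᵥ (q *ᵥ x)) (J ()) := rfl
  have h3 := tate_tw.1 (hUx g hg)
  rw [h2]
  conv_lhs => rw [← h3]
  rw [Matrix.mulVec_mulVec, Matrix.mulVec_mulVec, tw_form h]

theorem kill_tate (h : IsK3Type q S χ Pol ρ) {X : Matrix n n ℚ_[ℓ]} (hX : X ∈ tateLie χ ρ)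
    {x : n → ℚ_[ℓ]} (hx : x ∈ tate χ ρ) : X *ᵥ x = 0 := by
  have h1 := der_of_inv _ (lin_inv h hx) hX
  have h2 : Xᵀ *ᵥ (q *ᵥ x) = 0 := by
    funext j
    have h3 := congrFun h1 (fun _ => j)
    rw [der, Fintype.sum_unique] at h3
    simpa [Matrix.mulVec, dotProduct] using h3
  have h3 : Xᵀ * q + q * X = 0 := skew_iff.1 (skew_of_tate h hX)
  have h4 : q *ᵥ (X *ᵥ x) = 0 := by
    have h5 := congrArg (fun M => M *ᵥ x) h3
    simp only [Matrix.add_mulVec, Matrix.zero_mulVec, ← Matrix.mulVec_mulVec, h2, zero_add] at h5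
    exact h5
  exact Matrix.mulVec_injective_of_isUnit ((Matrix.isUnit_iff_isUnit_det q).2 h.nondeg.isUnit)
    (h4.trans (Matrix.mulVec_zero _).symm)

theorem end_tate {Y : Matrix n n ℚ_[ℓ]} (hY : IsTateEnd ρ Y) {x : n → ℚ_[ℓ]}
    (hx : x ∈ tate χ ρ) : Y *ᵥ x ∈ tate χ ρ := by
  obtain ⟨U, hU, hUY⟩ := hY
  obtain ⟨U', hU', hUx⟩ := hx
  refine ⟨U ⊓ U', hU.inter hU', fun g hg => ?_⟩
  rw [Matrix.mulVec_mulVec, ← hUY g hg.1, ← Matrix.mulVec_mulVec, hUx g hg.2, Matrix.mulVec_smul]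

theorem exists_dat (h : IsK3Type q S χ Pol ρ) (hss : Semisimple ρ) {C : Type} [Field C]
    [CharZero C] [Algebra ℚ_[ℓ] C] : ∃ P : Matrix n n ℚ_[ℓ],
    Dat C q P (tateLie χ ρ : Set (Matrix n n ℚ_[ℓ])) ∧
    (∀ x ∈ tate χ ρ, P *ᵥ x = x) ∧ (∀ x ∈ orth q (tate χ ρ), P *ᵥ x = 0) ∧
      (∀ x, P *ᵥ x ∈ tate χ ρ) ∧ ∀ x, x - P *ᵥ x ∈ orth q (tate χ ρ) := by
  obtain ⟨P, hP1, hP2, hP3, hP4⟩ := exists_P h hss
  have hs := form_symm h.symm
  have hskew : ∀ X ∈ (tateLie χ ρ : Set (Matrix n n ℚ_[ℓ])), Xᵀ * q + q * X = 0 :=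
    fun X hX => skew_iff.1 (skew_of_tate h hX)
  have horth : ∀ x ∈ orth q (tate χ ρ), ∀ y ∈ tate χ ρ, form q x y = 0 := by
    intro x hx y hy
    rw [hs, form_apply]
    exact hx y hy
  have hPP : P * P = P := ext_mulVec fun x => by rw [← Matrix.mulVec_mulVec, hP1 _ (hP3 x)]
  have hadj : Pᵀ * q = q * P := by
    refine adj_of_form fun x y => ?_
    have e1 : form q (P *ᵥ x) y = form q (P *ᵥ x) (P *ᵥ y) := by
      rw [← sub_eq_zero, ← map_sub, hs]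
      exact horth _ (hP4 y) _ (hP3 x)
    have e2 : form q x (P *ᵥ y) = form q (P *ᵥ x) (P *ᵥ y) := by
      rw [← sub_eq_zero, ← LinearMap.sub_apply, ← map_sub]
      exact horth _ (hP4 x) _ (hP3 y)
    rw [e1, e2]
  have hkill : ∀ X ∈ (tateLie χ ρ : Set (Matrix n n ℚ_[ℓ])), X * P = 0 := by
    intro X hX
    refine ext_mulVec fun x => ?_
    rw [← Matrix.mulVec_mulVec, kill_tate h hX (hP3 x), Matrix.zero_mulVec]
  have hcen : ∀ Y ∈ Cm (tateLie χ ρ : Set (Matrix n n ℚ_[ℓ])), Y * P = P * Y := by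
    intro Y hY
    obtain ⟨hY', hYa⟩ := adj_cm h.nondeg hskew hY
    have hYT := (cm_iff h hss Y).1 hY
    have hYT' := (cm_iff h hss _).1 hY'
    refine ext_mulVec fun x => ?_
    rw [← Matrix.mulVec_mulVec, ← Matrix.mulVec_mulVec]
    have e1 : P *ᵥ (Y *ᵥ (P *ᵥ x)) = Y *ᵥ (P *ᵥ x) := hP1 _ (end_tate hYT (hP3 x))
    have e2 : P *ᵥ (Y *ᵥ (x - P *ᵥ x)) = 0 := by
      refine hP2 _ fun y hy => ?_
      rw [← form_apply, hs, adj_form hYa]
      exact horth _ (hP4 x) _ (end_tate hYT' hy)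
    rw [Matrix.mulVec_sub, Matrix.mulVec_sub, sub_eq_zero] at e2
    rw [e2, e1]
  have hcomm : ∀ Y ∈ Cm (tateLie χ ρ : Set (Matrix n n ℚ_[ℓ])),
      ∀ Y' ∈ Cm (tateLie χ ρ : Set (Matrix n n ℚ_[ℓ])), Y * Y' * (1 - P) = Y' * Y * (1 - P) := by
    intro Y hY Y' hY'
    refine ext_mulVec fun x => ?_
    have e1 : ∀ A : Matrix n n ℚ_[ℓ], (A * (1 - P)) *ᵥ x = A *ᵥ (x - P *ᵥ x) := by
      intro A
      rw [← Matrix.mulVec_mulVec, Matrix.sub_mulVec, Matrix.one_mulVec]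
    rw [e1, e1]
    exact com_main h hss ((cm_iff h hss _).1 hY) ((cm_iff h hss _).1 hY') (hP4 x)
  have hPm : P ∈ Cm (tateLie χ ρ : Set (Matrix n n ℚ_[ℓ])) := by
    intro X hX
    have h1 := congrArg Matrix.transpose (hkill X hX)
    rw [Matrix.transpose_mul, Matrix.transpose_zero] at h1
    have h2 : q * (P * X) = 0 := by
      have h3 := hskew X hX
      have h4 : q * X = -(Xᵀ * q) := by rw [eq_neg_iff_add_eq_zero, add_comm]; exact h3
      rw [← Matrix.mul_assoc, ← hadj, Matrix.mul_assoc, h4, Matrix.mul_neg, ← Matrix.mul_assoc, h1,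
        Matrix.zero_mul, neg_zero]
    have h5 := congrArg (fun M => q⁻¹ * M) h2
    simp only [← Matrix.mul_assoc, Matrix.nonsing_inv_mul _ h.nondeg.isUnit, Matrix.one_mul,
      Matrix.mul_zero] at h5
    rw [hkill X hX, h5]
  have hfss : FiniteIndexSemisimple (rep χ ρ) := finiteIndexSemisimple hss
  have hproj : ∀ N ∈ Cm (tateLie χ ρ : Set (Matrix n n ℚ_[ℓ])),
      ∃ Q ∈ Cm (tateLie χ ρ : Set (Matrix n n ℚ_[ℓ])), Q * N = N ∧ ∃ M, Q = N * M := by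
    intro N hN
    obtain ⟨U, hU, hUN⟩ := (cm_iff h hss N).1 hN
    obtain ⟨Q, hQ1, hQ2, hQ3⟩ := Pool.Agent.R913.Adj.hasProj hfss U (finiteIndex_of_open hU)
      (LinearMap.range (toLin' N)) (by
        rintro g hg _ ⟨y, rfl⟩
        refine ⟨tw χ ρ g *ᵥ y, ?_⟩
        rw [toLin'_apply, toLin'_apply, rep_apply, Matrix.mulVec_mulVec, Matrix.mulVec_mulVec,
          tw_comm.2 (hUN g hg)])
    have hQv : ∀ x, toMatrix' Q *ᵥ x = Q x := fun x => by rw [← toLin'_apply, toLin'_toMatrix']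
    refine ⟨toMatrix' Q, ?_, ?_, ?_⟩
    · rw [cm_iff h hss]
      refine ⟨U, hU, fun g hg => ?_⟩
      rw [← tw_comm (χ := χ)]
      refine ext_mulVec fun x => ?_
      rw [← Matrix.mulVec_mulVec, ← Matrix.mulVec_mulVec, hQv, hQv]
      exact hQ3 g hg x
    · refine ext_mulVec fun x => ?_
      rw [← Matrix.mulVec_mulVec, hQv]
      exact hQ2 _ ⟨x, toLin'_apply N x⟩
    · choose y hy using hQ1
      refine ⟨Matrix.of fun i j => y (Pi.single j 1) i, ?_⟩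
      ext i j
      have h1 := hy (Pi.single j 1)
      rw [toLin'_apply] at h1
      have h2 := congrFun (hQv (Pi.single j 1)) i
      rw [Matrix.mulVec_single_one, ← h1] at h2
      exact h2
  refine ⟨P, ⟨h.symm, h.nondeg, hskew, ?_, hPP, hadj, hkill, hcen, hcomm, ?_⟩, hP1, hP2, hP3, hP4⟩
  · intro X hX hXY
    exact (tate_main h hss X).2 ⟨hX, fun Y hY => hXY Y ((cm_iff h hss Y).2 hY)⟩
  · intro Y hY
    exact ss_C (ss_k hcomm hproj hPm hPP hcen hY)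

/-- one open subgroup commutes with all Tate endomorphisms -/
theorem exists_U (h : IsK3Type q S χ Pol ρ) (hss : Semisimple ρ) :
    ∃ U : Subgroup (GK K), IsOpen (U : Set (GK K)) ∧ ∀ g ∈ U,
      ∀ Y ∈ Cm (tateLie χ ρ : Set (Matrix n n ℚ_[ℓ])), Y * tw χ ρ g = tw χ ρ g * Y := by
  let E : Submodule ℚ_[ℓ] (Matrix n n ℚ_[ℓ]) :=
    { carrier := Cm (tateLie χ ρ : Set (Matrix n n ℚ_[ℓ]))
      add_mem' := fun ha hb => Cm.add ha hb
      zero_mem' := fun X _ => by rw [mul_zero, zero_mul]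
      smul_mem' := fun c _ ha => Cm.smul c ha }
  let b := Module.finBasis ℚ_[ℓ] E
  have h1 : ∀ i, ∃ U : Subgroup (GK K), IsOpen (U : Set (GK K)) ∧
      ∀ g ∈ U, (b i : Matrix n n ℚ_[ℓ]) * ρ g = ρ g * (b i : Matrix n n ℚ_[ℓ]) :=
    fun i => (cm_iff h hss _).1 (b i).2
  choose U hU hU' using h1
  refine ⟨⨅ i, U i, ?_, ?_⟩
  · rw [Subgroup.coe_iInf]
    exact isOpen_iInter_of_finite hU
  · intro g hg Y hY
    rw [tw_comm]
    have h2 : (⟨Y, hY⟩ : E) = ∑ i, b.repr ⟨Y, hY⟩ i • b i := (b.sum_repr _).symm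
    have h3 : Y = ∑ i, b.repr ⟨Y, hY⟩ i • (b i : Matrix n n ℚ_[ℓ]) := by
      refine (congrArg Subtype.val h2).trans ?_
      rw [AddSubmonoidClass.coe_finsetSum]
      rfl
    rw [h3, Finset.sum_mul, Finset.mul_sum]
    refine Finset.sum_congr rfl fun i _ => ?_
    rw [smul_mul_assoc, mul_smul_comm, hU' i g (Subgroup.mem_iInf.1 hg i)]

/-- **Tate forms are generated in degrees one and two and by alternating Tate forms.** -/
theorem forms_main (h : IsK3Type q S χ Pol ρ) (hss : Semisimple ρ) {C : Type} [Field C]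
    [IsAlgClosed C] [CharZero C] [Algebra ℚ_[ℓ] C] {P : Matrix n n ℚ_[ℓ]}
    (D : Dat C q P (tateLie χ ρ : Set (Matrix n n ℚ_[ℓ]))) (hP3 : ∀ x, P *ᵥ x ∈ tate χ ρ)
    (𝒜 : Sys ℚ_[ℓ] n)
    (d1 : ∀ f : (Unit → n) → ℚ_[ℓ], InvForm (tw χ ρ) f → f ∈ 𝒜.Alg Unit)
    (d2 : ∀ f : (Fin 2 → n) → ℚ_[ℓ], InvForm (tw χ ρ) f → f ∈ 𝒜.Alg (Fin 2))
    (da : ∀ (T : Type) [Fintype T] [DecidableEq T] (x : T → n → C) (c : Matrix n n ℚ_[ℓ] → C),
      Nonempty T → IsBlock q P (tateLie χ ρ : Set (Matrix n n ℚ_[ℓ])) x c →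
      ∀ f : (T → n) → ℚ_[ℓ], InvForm (tw χ ρ) f → IsAlt f → f ∈ 𝒜.Alg T)
    {T : Type} [Fintype T] [DecidableEq T] (f : (T → n) → ℚ_[ℓ]) (hf : InvForm (tw χ ρ) f) :
    f ∈ 𝒜.Alg T := by
  obtain ⟨U, hU, hUc⟩ := exists_U h hss
  refine gen D 𝒜 ?_ ?_ ?_ f fun X hX => der_of_inv f hf hX
  · intro m
    refine d1 _ ?_
    have h1 := lin_inv h (hP3 (Pi.single m 1))
    convert h1 using 1
    funext J
    rw [Matrix.mulVec_mulVec, Matrix.mulVec_single_one]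
    rfl
  · intro Y hY
    refine d2 _ ⟨U, hU, fun g hg => ?_⟩
    funext J
    rw [chg]
    have h1 : ∑ J' : Fin 2 → n, (∏ s, tw χ ρ g (J' s) (J s)) • (Yᵀ * q) (J' 0) (J' 1) =
        ((tw χ ρ g)ᵀ * (Yᵀ * q) * tw χ ρ g) (J 0) (J 1) := by
      rw [← Equiv.sum_comp (finTwoArrowEquiv n).symm, Fintype.sum_prod_type, Matrix.mul_apply,
        Finset.sum_comm]
      refine Finset.sum_congr rfl fun b _ => ?_
      rw [Matrix.mul_apply, Finset.sum_mul]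
      refine Finset.sum_congr rfl fun a _ => ?_
      rw [Fin.prod_univ_two]
      change (tw χ ρ g a (J 0) * tw χ ρ g b (J 1)) • (Yᵀ * q) a b =
        (tw χ ρ g) a (J 0) * (Yᵀ * q) a b * tw χ ρ g b (J 1)
      rw [smul_eq_mul]
      ring
    rw [h1]
    have h2 := congrArg Matrix.transpose (hUc g hg Y hY)
    rw [Matrix.transpose_mul, Matrix.transpose_mul] at h2
    rw [← Matrix.mul_assoc, h2, Matrix.mul_assoc, Matrix.mul_assoc, ← Matrix.mul_assoc _ q,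
      tw_form h]
  · intro T _ _ x c hT hB
    exact block_mem (tw_cont h) (tw_form h) D 𝒜 U hU (fun g hg Y hY => hUc g hg Y hY) hB
      (fun f hf hfa => da T x c hT hB f hf hfa)

end

end Pool.Agent.H851.TT
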