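import Pool.Agent.H851.TT.Ss
import Pool.Agent.H851.KT.Main
import Pool.Agent.H851.KT.Com

/-!
# Forms invariant under an open subgroup
-/

set_option autoImplicit false
set_option linter.unusedSectionVars false

namespace Pool.Agent.H851.TT

open Matrix Finset Function Module
open Pool.Agent.N429.KS
open Pool.Agent.H851.KT (form form_apply form_symm form_nondeg)

/-- `f` changes its sign under odd permutations of the variables -/
def IsAlt {k n S : Type} [Field k] [Fintype S] [DecidableEq S] (f : (S → n) → k) : Prop :=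
  ∀ (σ : Equiv.Perm S) (J : S → n), f (J ∘ σ) = ((Equiv.Perm.sign σ : ℤ) : k) * f J

section top

variable {Γ : Type} [Group Γ] [TopologicalSpace Γ] {ℓ : ℕ} [Fact ℓ.Prime] {n : Type} [Fintype n]
  [DecidableEq n] (r : Γ →* Matrix n n ℚ_[ℓ])

/-- the form `f` on `V` is invariant under an open subgroup -/
def InvForm {S : Type} [Fintype S] [DecidableEq S] (f : (S → n) → ℚ_[ℓ]) : Prop :=
  ∃ U : Subgroup Γ, IsOpen (U : Set Γ) ∧ ∀ g ∈ U, chg (r g) f = f

/-- the stabilizer of a form -/
def stb {S : Type} [Fintype S] [DecidableEq S] (f : (S → n) → ℚ_[ℓ]) : Subgroup Γ where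
  carrier := {g | chg (r g) f = f}
  mul_mem' := by
    intro g h hg hh
    change chg (r (g * h)) f = f
    rw [map_mul, ← chg_chg, hg, hh]
  one_mem' := by
    change chg (r 1) f = f
    rw [map_one, chg_one]
  inv_mem' := by
    intro g hg
    change chg (r g⁻¹) f = f
    have hg' : chg (r g) f = f := hg
    conv_lhs => rw [← hg']
    rw [chg_chg, ← map_mul, mul_inv_cancel, map_one, chg_one]

variable {r}

theorem chg_cont (hr : Continuous r) {S : Type} [Fintype S] [DecidableEq S]
    (f : (S → n) → ℚ_[ℓ]) : Continuous fun g => chg (r g) f := by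
  refine continuous_pi fun J => ?_
  simp only [chg, smul_eq_mul]
  refine continuous_finsetSum _ fun J' _ => Continuous.mul ?_ continuous_const
  refine continuous_finsetProd _ fun s _ => ?_
  exact (continuous_apply_apply (J' s) (J s)).comp hr

/-- a form which is fixed up to sign by an open subgroup -/
theorem inv_of_pm (hr : Continuous r) {S : Type} [Fintype S] [DecidableEq S]
    (f : (S → n) → ℚ_[ℓ]) (U : Subgroup Γ) (hU : IsOpen (U : Set Γ))
    (h : ∀ g ∈ U, chg (r g) f = f ∨ chg (r g) f = -f) : InvForm r f := by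
  by_cases hf : f = 0
  · refine ⟨U, hU, fun g _ => ?_⟩
    rw [hf, chg_zero]
  refine ⟨U ⊓ stb r f, ?_, fun g hg => hg.2⟩
  have h1 : ((U ⊓ stb r f : Subgroup Γ) : Set Γ) = (U : Set Γ) ∩ {g | chg (r g) f = -f}ᶜ := by
    ext g
    constructor
    · rintro ⟨hg1, hg2⟩
      refine ⟨hg1, fun h2 => hf ?_⟩
      have h3 : chg (r g) f = f := hg2
      have h4 : f = -f := h3.symm.trans h2
      funext J
      have h5 := congrFun h4 J
      rw [Pi.neg_apply] at h5
      rw [Pi.zero_apply]
      linear_combination h5 / 2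
    · rintro ⟨hg1, hg2⟩
      exact ⟨hg1, (h g hg1).resolve_right hg2⟩
  rw [h1]
  exact hU.inter (isOpen_compl_iff.2 (isClosed_eq (chg_cont hr f) continuous_const))

end top

section blocks

variable {Γ : Type} [Group Γ] [TopologicalSpace Γ] {ℓ : ℕ} [Fact ℓ.Prime] {n : Type} [Fintype n]
  [DecidableEq n] {r : Γ →* Matrix n n ℚ_[ℓ]} {C : Type} [Field C] [IsAlgClosed C] [CharZero C]
  [Algebra ℚ_[ℓ] C] {q P : Matrix n n ℚ_[ℓ]} {L : Set (Matrix n n ℚ_[ℓ])}

theorem ck_chg {k : Type} [Field k] [Algebra k C] (U : Matrix n n k) {S : Type} [Fintype S]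
    [DecidableEq S] (f : (S → n) → k) : chg (mp C U) (ck C f) = ck C (chg U f) := by
  funext J
  simp only [chg, ck, map_sum, smul_eq_mul, map_mul, map_prod, Matrix.map_apply]

/-- the determinant of a block is fixed up to sign -/
theorem block_pm (D : Dat C q P L) {S : Type} [Fintype S] [DecidableEq S] {x : S → n → C}
    {c : Matrix n n ℚ_[ℓ] → C} (hB : IsBlock q P L x c) {R R' : Matrix n n ℚ_[ℓ]}
    (hRR : R * R' = 1) (hq : Rᵀ * q * R = q) (hc : ∀ Y ∈ Cm L, Y * R = R * Y) :
    chg (mp C R) (dform q x) = dform q x ∨ chg (mp C R) (dform q x) = -dform q x := by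
  have hsy : (mp C q)ᵀ = mp C q := by rw [mp_transpose, D.symm]
  have hs := form_symm hsy
  have hRR' : R' * R = 1 := mul_eq_one_comm.1 hRR
  -- `R'` commutes with the commutant, too
  have hc' : ∀ Y ∈ Cm L, Y * R' = R' * Y := by
    intro Y hY
    have h1 := hc Y hY
    calc Y * R' = (R' * R) * (Y * R') := by rw [hRR', Matrix.one_mul]
      _ = R' * (R * Y) * R' := by simp only [Matrix.mul_assoc]
      _ = R' * (Y * R) * R' := by rw [h1]
      _ = R' * Y := by
        rw [Matrix.mul_assoc, Matrix.mul_assoc, hRR, Matrix.mul_one]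
  have hform : ∀ y z : n → C, form (mp C q) (mp C R *ᵥ y) (mp C R *ᵥ z) = form (mp C q) y z := by
    intro y z
    rw [form_apply, form_apply, Matrix.mulVec_mulVec, Matrix.dotProduct_mulVec,
      Matrix.dotProduct_mulVec, ← Matrix.vecMul_transpose, Matrix.vecMul_vecMul, mp_transpose,
      ← Matrix.mul_assoc, ← mp_mul, ← mp_mul, hq]
  have hRv : ∀ v : n → C, mp C R *ᵥ (mp C R' *ᵥ v) = v := by
    intro v
    rw [Matrix.mulVec_mulVec, ← mp_mul, hRR, mp_one, Matrix.one_mulVec]
  have hform' : ∀ y z : n → C, form (mp C q) (mp C R' *ᵥ y) z = form (mp C q) y (mp C R *ᵥ z) := by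
    intro y z
    rw [← hform, hRv]
  -- `R'` preserves the block
  have hexp : ∀ s, mp C R' *ᵥ x s = ∑ t, form (mp C q) (x t) (mp C R' *ᵥ x s) • x t := by
    intro s
    refine hB.full _ ?_ fun Y hY => ?_
    · rw [Matrix.mulVec_mulVec, ← mp_mul, hc' P D.P_mem, mp_mul, ← Matrix.mulVec_mulVec, hB.perp,
        Matrix.mulVec_zero]
    · rw [Matrix.mulVec_mulVec, ← mp_mul, hc' Y hY, mp_mul, ← Matrix.mulVec_mulVec, hB.eig Y hY,
        Matrix.mulVec_smul]
  set a : Matrix S S C := Matrix.of fun t s => form (mp C q) (x t) (mp C R' *ᵥ x s) with ha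
  have haa : aᵀ * a = 1 := by
    ext s t
    rw [Matrix.mul_apply, Matrix.one_apply, ← hB.ortho s t, ← hform (x s) (x t)]
    have h1 : form (mp C q) (mp C R' *ᵥ x s) (mp C R' *ᵥ x t) = form (mp C q) (x s) (x t) := by
      rw [hform', hRv]
    rw [hform, ← h1]
    conv_rhs => rw [hexp s]
    rw [map_sum, LinearMap.sum_apply]
    refine Finset.sum_congr rfl fun u _ => ?_
    rw [map_smul, LinearMap.smul_apply, smul_eq_mul]
    rfl
  have hdet : a.det = 1 ∨ a.det = -1 := by
    have h1 := congrArg Matrix.det haa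
    rw [Matrix.det_mul, Matrix.det_transpose, Matrix.det_one] at h1
    exact mul_self_eq_one_iff.1 h1
  have key : chg (mp C R) (dform q x) = a.det • dform q x := by
    funext J
    change ∑ J' : S → n, (∏ s, mp C R (J' s) (J s)) •
      Matrix.det (Matrix.of fun s t : S => (mp C q *ᵥ x t) (J' s)) =
      a.det * Matrix.det (Matrix.of fun s t : S => (mp C q *ᵥ x t) (J s))
    have e1 : (Matrix.of fun s t : S => (mp C q *ᵥ x t) (J s)) * a =
        Matrix.of fun s => ∑ b : n, mp C R b (J s) • (fun t : S => (mp C q *ᵥ x t) b) := by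
      ext s t
      rw [Matrix.mul_apply, Matrix.of_apply, Finset.sum_apply]
      have e2 : ∀ (v : n → C) (j : n), (mp C q *ᵥ v) j = form (mp C q) v (Pi.single j 1) := by
        intro v j
        rw [hs, form_apply, single_one_dotProduct]
      have e3 : ∑ u, (mp C q *ᵥ x u) (J s) * a u t =
          form (mp C q) (mp C R' *ᵥ x t) (Pi.single (J s) 1) := by
        conv_rhs => rw [hexp t]
        rw [map_sum, LinearMap.sum_apply]
        refine Finset.sum_congr rfl fun u _ => ?_
        rw [map_smul, LinearMap.smul_apply, smul_eq_mul, e2, mul_comm]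
        rfl
      change ∑ u, (mp C q *ᵥ x u) (J s) * a u t = _
      rw [e3, hform', hs, form_apply, dotProduct]
      refine Finset.sum_congr rfl fun b _ => ?_
      rw [Matrix.mulVec_single_one]
      rfl
    rw [mul_comm, ← Matrix.det_mul, e1]
    change _ = (Matrix.detRowAlternating (R := C)).toMultilinearMap _
    have e2 := (Matrix.detRowAlternating (n := S) (R := C)).toMultilinearMap.map_sum
      (fun (s : S) (b : n) => mp C R b (J s) • (fun t : S => (mp C q *ᵥ x t) b))
    refine Eq.trans ?_ e2.symm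
    refine Finset.sum_congr rfl fun J' _ => ?_
    rw [MultilinearMap.map_smul_univ]
    rfl
  rw [key]
  rcases hdet with h | h
  · left
    rw [h, one_smul]
  · right
    rw [h, neg_one_smul]

theorem dform_alt {S : Type} [Fintype S] [DecidableEq S] (x : S → n → C) (σ : Equiv.Perm S)
    (J : S → n) : dform q x (J ∘ σ) = ((Equiv.Perm.sign σ : ℤ) : C) * dform q x J := by
  unfold dform
  rw [← Matrix.det_permute]
  rfl

/-- the determinants of the blocks are generated by alternating forms invariant under an open subgroup -/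
theorem block_mem (hr : Continuous r) (hq : ∀ g, (r g)ᵀ * q * r g = q) (D : Dat C q P L)
    (𝒜 : Sys ℚ_[ℓ] n) (U : Subgroup Γ) (hU : IsOpen (U : Set Γ))
    (hUc : ∀ g ∈ U, ∀ Y ∈ Cm L, Y * r g = r g * Y) {S : Type} [Fintype S] [DecidableEq S]
    {x : S → n → C} {c : Matrix n n ℚ_[ℓ] → C} (hB : IsBlock q P L x c)
    (h : ∀ f : (S → n) → ℚ_[ℓ], InvForm r f → IsAlt f → f ∈ 𝒜.Alg S) :
    dform q x ∈ (bcS C 𝒜).Alg S := by
  obtain ⟨I, i1, d, z, hd, hz⟩ := expand (k := ℚ_[ℓ]) (dform q x)
  have li0 : ∀ w : I → (S → n) → ℚ_[ℓ], ∑ i, d i • ck C (w i) = 0 → ∀ i, w i = 0 := by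
    intro w hw i
    funext J
    refine li_zero hd (r := fun i => w i J) ?_ i
    have h1 := congrFun hw J
    rw [Finset.sum_apply] at h1
    exact h1
  rw [hz]
  refine Submodule.sum_mem _ fun i _ => Submodule.smul_mem _ _ (mem_bcS (h _ ?_ ?_))
  · refine inv_of_pm hr _ U hU fun g hg => ?_
    have h1 := block_pm D hB (R := r g) (R' := r g⁻¹) (by rw [← map_mul, mul_inv_cancel, map_one])
      (hq g) (fun Y hY => hUc g hg Y hY)
    have h2 : chg (mp C (r g)) (dform q x) = ∑ i, d i • ck C (chg (r g) (z i)) := by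
      rw [hz]
      have h3 : ∀ s : Finset I, chg (mp C (r g)) (∑ i ∈ s, d i • ck C (z i)) =
          ∑ i ∈ s, d i • ck C (chg (r g) (z i)) := by
        classical
        intro s
        induction s using Finset.induction_on with
        | empty => rw [Finset.sum_empty, Finset.sum_empty, chg_zero]
        | insert a s ha ih =>
          rw [Finset.sum_insert ha, Finset.sum_insert ha, chg_add, chg_smul, ck_chg, ih]
      exact h3 _
    rcases h1 with h1 | h1
    · left
      rw [← sub_eq_zero]
      refine li0 (fun i => chg (r g) (z i) - z i) ?_ i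
      rw [h2] at h1
      have h3 := sub_eq_zero.2 h1
      rw [hz, ← Finset.sum_sub_distrib] at h3
      rw [← h3]
      refine Finset.sum_congr rfl fun i _ => ?_
      rw [← smul_sub]
      congr 1
      funext J
      simp [ck]
    · right
      rw [eq_neg_iff_add_eq_zero]
      refine li0 (fun i => chg (r g) (z i) + z i) ?_ i
      rw [h2, eq_neg_iff_add_eq_zero] at h1
      rw [hz, ← Finset.sum_add_distrib] at h1
      rw [← h1]
      refine Finset.sum_congr rfl fun i _ => ?_
      rw [← smul_add]
      congr 1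
      funext J
      simp [ck]
  · intro σ J
    rw [← sub_eq_zero]
    have h1 : ∑ i, d i • ck C (fun J => z i (J ∘ σ) -
        ((Equiv.Perm.sign σ : ℤ) : ℚ_[ℓ]) * z i J) = 0 := by
      funext J
      have h2 := dform_alt (q := q) x σ J
      rw [hz, Finset.sum_apply, Finset.sum_apply, Finset.mul_sum, ← sub_eq_zero,
        ← Finset.sum_sub_distrib] at h2
      rw [Finset.sum_apply, Pi.zero_apply, ← h2]
      refine Finset.sum_congr rfl fun i _ => ?_
      simp only [Pi.smul_apply, ck, smul_eq_mul, map_sub, map_mul, map_intCast]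
      ring
    exact congrFun (li0 _ h1 i) J

end blocks

end Pool.Agent.H851.TT
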