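import Mathlib

/-!
# Bases adapted to a quadratic form and a commuting family of diagonalizable operators
-/

set_option autoImplicit false
set_option linter.unusedSectionVars false

namespace Pool.Agent.H851.TT

open Module

section

variable {C V J : Type} [Field C] [IsAlgClosed C] [CharZero C] [AddCommGroup V] [Module C V]
  [FiniteDimensional C V] (b : V →ₗ[C] V →ₗ[C] C) (F : J → End C V)

/-- a partial adapted basis -/
structure Ada (B : Type) [Fintype B] [DecidableEq B] where
  e : B → V
  τ : B → B
  κ : B → J → C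
  inv : ∀ a, τ (τ a) = a
  gram : ∀ a c, b (e a) (e c) = if c = τ a then 1 else 0
  eig : ∀ a j, F j (e a) = κ a j • e a
  self : ∀ a, κ (τ a) = κ a → τ a = a

variable {b F} {B : Type} [Fintype B] [DecidableEq B]

theorem Ada.ne (A : Ada b F B) (a : B) : A.e a ≠ 0 := by
  intro h
  have h1 := A.gram a (A.τ a)
  rw [if_pos rfl, h, map_zero, LinearMap.zero_apply] at h1
  exact zero_ne_one h1

theorem Ada.li (A : Ada b F B) : LinearIndependent C A.e := by
  rw [Fintype.linearIndependent_iff]
  intro g hg i
  have h1 := congrArg (fun v => b v (A.e (A.τ i))) hg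
  simp only [map_sum, map_smul, LinearMap.sum_apply, LinearMap.smul_apply, map_zero,
    LinearMap.zero_apply, A.gram, smul_eq_mul] at h1
  rw [Finset.sum_eq_single i] at h1
  · rwa [if_pos rfl, mul_one] at h1
  · intro c _ hc
    rw [if_neg, mul_zero]
    intro h2
    apply hc
    rw [← A.inv c, ← h2, A.inv]
  · intro h
    exact absurd (Finset.mem_univ _) h

theorem Ada.card_le (A : Ada b F B) : Fintype.card B ≤ finrank C V :=
  A.li.fintype_card_le_finrank

theorem Ada.dual (A : Ada b F B) {st : J → J} (hs : ∀ x y, b x y = b y x)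
    (hst : ∀ j x y, b (F j x) y = b x (F (st j) y)) (a : B) (j : J) :
    A.κ (A.τ a) j = A.κ a (st j) := by
  have h1 : b (F (st j) (A.e a)) (A.e (A.τ a)) = b (A.e a) (F j (A.e (A.τ a))) := by
    rw [hs, ← hst, hs]
  rw [A.eig, A.eig, map_smul, LinearMap.smul_apply, map_smul, A.gram, if_pos rfl, smul_eq_mul,
    smul_eq_mul, mul_one, mul_one] at h1
  exact h1.symm

/-- the projection to the complement -/
noncomputable def Ada.pr (A : Ada b F B) (v : V) : V := v - ∑ a, b v (A.e (A.τ a)) • A.e a

theorem Ada.pr_orth (A : Ada b F B) (v : V) (c : B) : b (A.pr v) (A.e c) = 0 := by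
  rw [Ada.pr, map_sub, LinearMap.sub_apply, map_sum, LinearMap.sum_apply,
    Finset.sum_eq_single (A.τ c)]
  · rw [map_smul, LinearMap.smul_apply, A.inv, A.gram, A.inv, if_pos rfl, smul_eq_mul, mul_one,
      sub_self]
  · intro a _ ha
    rw [map_smul, LinearMap.smul_apply, A.gram, if_neg, smul_zero]
    intro h
    apply ha
    rw [h, A.inv]
  · intro h
    exact absurd (Finset.mem_univ _) h

theorem Ada.pr_eig (A : Ada b F B) {st : J → J} (hs : ∀ x y, b x y = b y x)
    (hst : ∀ j x y, b (F j x) y = b x (F (st j) y)) {v : V} {χ : J → C}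
    (hv : ∀ j, F j v = χ j • v) (j : J) : F j (A.pr v) = χ j • A.pr v := by
  rw [Ada.pr, map_sub, map_sum, smul_sub, hv, Finset.smul_sum]
  congr 1
  refine Finset.sum_congr rfl fun a _ => ?_
  have h1 : b (F j v) (A.e (A.τ a)) = b v (F (st j) (A.e (A.τ a))) := hst j _ _
  rw [hv, map_smul, LinearMap.smul_apply, A.eig, map_smul, A.dual hs hst] at h1
  have h2 : A.κ a (st (st j)) = A.κ a j := by
    rw [← A.dual hs hst, ← A.dual hs hst, A.inv]
  rw [h2] at h1
  rw [map_smul, A.eig, smul_smul, smul_smul]
  simp only [smul_eq_mul] at h1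
  rw [h1, mul_comm]

/-- adding one vector -/
noncomputable def Ada.one (A : Ada b F B) (hs : ∀ x y, b x y = b y x) (z : V) (hz : b z z = 1)
    (ho : ∀ c, b z (A.e c) = 0) (χ : J → C) (hχ : ∀ j, F j z = χ j • z) : Ada b F (Option B) where
  e := fun a => Option.elim a z A.e
  τ := Option.map A.τ
  κ := fun a => Option.elim a χ A.κ
  inv := by
    rintro (_ | a)
    · rfl
    · simp [A.inv]
  gram := by
    rintro (_ | a) (_ | c)
    · simpa using hz
    · simpa using ho c
    · simpa [hs] using ho a
    · simpa using A.gram a c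
  eig := by
    rintro (_ | a) j
    · exact hχ j
    · exact A.eig a j
  self := by
    rintro (_ | a) h
    · rfl
    · have := A.self a h
      simp [this]

/-- adding a dual pair -/
noncomputable def Ada.two (A : Ada b F B) (hs : ∀ x y, b x y = b y x) (x y : V) (hx : b x x = 0)
    (hy : b y y = 0) (hxy : b x y = 1)
    (hox : ∀ c, b x (A.e c) = 0) (hoy : ∀ c, b y (A.e c) = 0) (χ χ' : J → C)
    (hχ : ∀ j, F j x = χ j • x) (hχ' : ∀ j, F j y = χ' j • y) (hne : χ ≠ χ') :
    Ada b F (B ⊕ Bool) where
  e := Sum.elim A.e (fun t => if t then x else y)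
  τ := Sum.map A.τ (fun t => !t)
  κ := Sum.elim A.κ (fun t => if t then χ else χ')
  inv := by
    rintro (a | a)
    · simp [A.inv]
    · simp
  gram := by
    rintro (a | (_ | _)) (c | (_ | _))
    · simpa using A.gram a c
    · simpa [hs] using hoy a
    · simpa [hs] using hox a
    · simpa using hoy c
    · simpa using hy
    · simpa [hs] using hxy
    · simpa using hox c
    · simpa using hxy
    · simpa using hx
  eig := by
    rintro (a | (_ | _)) j
    · exact A.eig a j
    · simpa using hχ' j
    · simpa using hχ j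
  self := by
    rintro (a | (_ | _)) h
    · have := A.self a h
      simp [this]
    · exact absurd (by simpa using h) hne
    · exact absurd (by simpa using h.symm) hne

/-- transport to another index set -/
def Ada.tr (A : Ada b F B) {B' : Type} [Fintype B'] [DecidableEq B'] (φ : B' ≃ B) :
    Ada b F B' where
  e := A.e ∘ φ
  τ := fun a => φ.symm (A.τ (φ a))
  κ := A.κ ∘ φ
  inv := fun a => by simp [A.inv]
  gram := fun a c => by
    rw [Function.comp_apply, Function.comp_apply, A.gram]
    simp only [Equiv.eq_symm_apply]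
  eig := fun a j => A.eig _ _
  self := fun a h => by
    rw [Equiv.symm_apply_eq]
    apply A.self
    simpa using h

theorem Ada.extend (A : Ada b F B) {st : J → J} (hs : ∀ x y, b x y = b y x)
    (hb : ∀ x, (∀ y, b x y = 0) → x = 0)
    (hst : ∀ j x y, b (F j x) y = b x (F (st j) y))
    (hspan : Submodule.span C {v | ∃ χ : J → C, ∀ j, F j v = χ j • v} = ⊤)
    (hlt : Fintype.card B < finrank C V) : ∃ (B' : Type) (_ : Fintype B') (_ : DecidableEq B')
      (_ : Ada b F B'), Fintype.card B < Fintype.card B' := by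
  -- a common eigenvector outside of the span
  have h1 : ∃ v, (∃ χ : J → C, ∀ j, F j v = χ j • v) ∧ A.pr v ≠ 0 := by
    by_contra hcon
    push Not at hcon
    have h2 : (⊤ : Submodule C V) ≤ Submodule.span C (Set.range A.e) := by
      rw [← hspan, Submodule.span_le]
      rintro v hv
      have h3 := hcon v hv
      rw [Ada.pr, sub_eq_zero] at h3
      rw [h3]
      exact Submodule.sum_mem _ fun a _ => Submodule.smul_mem _ _ (Submodule.subset_span ⟨a, rfl⟩)
    have h4 := (finrank_range_le_card (R := C) (b := A.e))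
    rw [Set.finrank, eq_top_iff.2 h2, finrank_top] at h4
    omega
  obtain ⟨v, ⟨χ, hχ⟩, hv⟩ := h1
  set x := A.pr v with hx
  have hxe := A.pr_eig hs hst hχ
  rw [← hx] at hxe
  have hxo := A.pr_orth v
  rw [← hx] at hxo
  have h2 : ∃ w, (∃ χ : J → C, ∀ j, F j w = χ j • w) ∧ b x w ≠ 0 := by
    by_contra hcon
    push Not at hcon
    apply hv
    refine hb x fun y => ?_
    have h3 : (⊤ : Submodule C V) ≤ LinearMap.ker (b x) := by
      rw [← hspan, Submodule.span_le]
      intro v hv
      exact hcon v hv
    exact h3 trivial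
  obtain ⟨w, ⟨χ', hχ'⟩, hw⟩ := h2
  set y := A.pr w with hy
  have hye := A.pr_eig hs hst hχ'
  rw [← hy] at hye
  have hyo := A.pr_orth w
  rw [← hy] at hyo
  have hxy : b x y ≠ 0 := by
    have h3 : b x y = b x w := by
      rw [hy, Ada.pr, map_sub, map_sum]
      simp only [map_smul, hxo, smul_zero, Finset.sum_const_zero, sub_zero]
    rwa [h3]
  have dual : ∀ {x y : V} {χ χ' : J → C}, (∀ j, F j x = χ j • x) → (∀ j, F j y = χ' j • y) →
      b x y ≠ 0 → ∀ j, χ j = χ' (st j) := by
    intro x y χ χ' h1 h2 h3 j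
    have h4 := hst j x y
    rw [h1, h2, map_smul, LinearMap.smul_apply, map_smul, smul_eq_mul, smul_eq_mul] at h4
    exact mul_right_cancel₀ h3 h4
  have inv2 : ∀ {x : V} {χ : J → C}, (∀ j, F j x = χ j • x) → x ≠ 0 → ∀ j,
      χ (st (st j)) = χ j := by
    intro x χ h1 h2 j
    have h3 : F (st (st j)) x = F j x := by
      rw [← sub_eq_zero]
      refine hb _ fun z => ?_
      rw [map_sub, LinearMap.sub_apply, hst j, sub_eq_zero]
      rw [hs x, hst (st j), hs]
    rw [h1, h1] at h3
    exact smul_left_injective C h2 h3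
  have hy0 : y ≠ 0 := by
    intro h
    rw [h, map_zero] at hxy
    exact hxy rfl
  by_cases hcase : χ = χ'
  · subst hcase
    have h3 : ∃ z, b z z ≠ 0 ∧ (∀ c, b z (A.e c) = 0) ∧ ∀ j, F j z = χ j • z := by
      by_cases hx1 : b x x = 0
      · by_cases hy1 : b y y = 0
        · refine ⟨x + y, ?_, fun c => ?_, fun j => ?_⟩
          · have h4 : b (x + y) (x + y) = 2 * b x y := by
              simp only [map_add, LinearMap.add_apply, hx1, hy1, hs y x]
              ring
            rw [h4]
            exact mul_ne_zero two_ne_zero hxy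
          · rw [map_add, LinearMap.add_apply, hxo, hyo, add_zero]
          · rw [map_add, hxe, hye, smul_add]
        · exact ⟨y, hy1, hyo, hye⟩
      · exact ⟨x, hx1, hxo, hxe⟩
    obtain ⟨z, hz, hzo, hze⟩ := h3
    obtain ⟨s, hs'⟩ := IsAlgClosed.exists_pow_nat_eq (b z z) (n := 2) (by norm_num)
    have hs0 : s ≠ 0 := by
      rintro rfl
      apply hz
      rw [← hs']
      norm_num
    refine ⟨Option B, inferInstance, inferInstance, A.one hs (s⁻¹ • z) ?_ (fun c => ?_) χ
      (fun j => ?_), ?_⟩
    · simp only [map_smul, LinearMap.smul_apply, smul_eq_mul]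
      rw [← hs']
      field_simp
    · rw [map_smul, LinearMap.smul_apply, hzo, smul_zero]
    · rw [map_smul, hze, smul_comm]
    · rw [Fintype.card_option]
      exact Nat.lt_succ_self _
  · have hx1 : b x x = 0 := by
      by_contra hne
      apply hcase
      funext j
      have e1 := dual hxe hxe hne
      have e2 := dual hxe hye hxy
      rw [← inv2 hye hy0 j, ← e2, ← e1]
    have hy1 : b y y = 0 := by
      by_contra hne
      apply hcase
      funext j
      have e1 := dual hye hye hne
      have e2 := dual hxe hye hxy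
      rw [e2, ← e1]
    refine ⟨B ⊕ Bool, inferInstance, inferInstance, A.two hs x ((b x y)⁻¹ • y) hx1 ?_ ?_ hxo
      (fun c => ?_) χ χ' hxe (fun j => ?_) hcase, ?_⟩
    · simp only [map_smul, LinearMap.smul_apply, hy1, smul_zero]
    · rw [map_smul, smul_eq_mul, inv_mul_cancel₀ hxy]
    · rw [map_smul, LinearMap.smul_apply, hyo, smul_zero]
    · rw [map_smul, hye, smul_comm]
    · rw [Fintype.card_sum, Fintype.card_bool]
      omega

/-- **Adapted bases** -/
theorem exists_ada {st : J → J} (hs : ∀ x y, b x y = b y x)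
    (hb : ∀ x, (∀ y, b x y = 0) → x = 0)
    (hst : ∀ j x y, b (F j x) y = b x (F (st j) y))
    (hspan : Submodule.span C {v | ∃ χ : J → C, ∀ j, F j v = χ j • v} = ⊤) :
    ∃ (B : Type) (_ : Fintype B) (_ : DecidableEq B) (_ : Ada b F B),
      Fintype.card B = finrank C V := by
  by_contra hcon
  push Not at hcon
  have key : ∀ N : ℕ, ∃ (B : Type) (_ : Fintype B) (_ : DecidableEq B) (_ : Ada b F B),
      N ≤ Fintype.card B := by
    intro N
    induction N with
    | zero =>
      exact ⟨Empty, inferInstance, inferInstance, ⟨Empty.elim, id, Empty.elim, fun a => a.elim,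
        fun a => a.elim, fun a => a.elim, fun a => a.elim⟩, Nat.zero_le _⟩
    | succ N ih =>
      obtain ⟨B, i1, i2, A, hA⟩ := ih
      obtain ⟨B', i3, i4, A', hA'⟩ := A.extend hs hb hst hspan
        (lt_of_le_of_ne A.card_le (hcon B i1 i2 A))
      exact ⟨B', i3, i4, A', by omega⟩
  obtain ⟨B, i1, i2, A, hA⟩ := key (finrank C V + 1)
  have := A.card_le
  omega

end

end Pool.Agent.H851.TT
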