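import Pool.Graph.R_pool_sql_team_seeded_63374d34.N429.KS.K4

/-!
# Base change and change of coordinates for systems of forms
-/

set_option autoImplicit false
set_option linter.unusedSectionVars false

namespace Pool.Agent.H851.TT

open Matrix Finset Function
open Pool.Agent.N429.KS

section bc

variable {k C : Type} [Field k] [Field C] [Algebra k C]

variable (C) in
/-- extension of scalars of a function -/
def ck {A : Type} (f : A → k) : A → C := fun a => algebraMap k C (f a)

theorem expand {A : Type} [Fintype A] (Z : A → C) :
    ∃ (I : Type) (_ : Fintype I) (c : I → C) (z : I → A → k), LinearIndependent k c ∧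
      Z = ∑ i, c i • ck C (z i) := by
  classical
  let b := Module.Free.chooseBasis k C
  let s : Finset (Module.Free.ChooseBasisIndex k C) :=
    Finset.univ.biUnion fun a => (b.repr (Z a)).support
  refine ⟨s, inferInstance, fun i => b i.1, fun i a => b.repr (Z a) i.1,
    b.linearIndependent.comp _ Subtype.val_injective, ?_⟩
  funext a
  rw [Finset.sum_apply]
  have h1 : Z a = ∑ k ∈ (b.repr (Z a)).support, b.repr (Z a) k • b k := by
    conv_lhs => rw [← b.linearCombination_repr (Z a)]
    rfl
  have h2 : (b.repr (Z a)).support ⊆ s := by
    intro k hk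
    exact Finset.mem_biUnion.2 ⟨a, Finset.mem_univ _, hk⟩
  have h3 : ∑ k ∈ (b.repr (Z a)).support, b.repr (Z a) k • b k =
      ∑ k ∈ s, b.repr (Z a) k • b k := by
    refine Finset.sum_subset h2 fun k _ hk => ?_
    rw [Finsupp.notMem_support_iff] at hk
    rw [hk, zero_smul]
  rw [h1, h3, ← Finset.sum_coe_sort s]
  refine Finset.sum_congr rfl fun i _ => ?_
  rw [Pi.smul_apply, smul_eq_mul, ck, Algebra.smul_def, mul_comm]

theorem li_zero {I : Type} [Fintype I] {c : I → C} (hc : LinearIndependent k c) {r : I → k}
    (h : ∑ i, c i * algebraMap k C (r i) = 0) (i : I) : r i = 0 := by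
  refine Fintype.linearIndependent_iff.1 hc r ?_ i
  rw [← h]
  refine Finset.sum_congr rfl fun i _ => ?_
  rw [Algebra.smul_def, mul_comm]

variable (C) in
/-- extension of scalars of a system of forms -/
def bcS {B : Type} (𝒜 : Sys k B) : Sys C B where
  Alg S := Submodule.span C (ck C '' (𝒜.Alg S : Set ((S → B) → k)))
  one := Submodule.subset_span ⟨_, 𝒜.one, by funext J; simp [ck]⟩
  re := by
    intro S T _ _ e f hf
    induction hf using Submodule.span_induction with
    | mem f hf =>
      obtain ⟨g, hg, rfl⟩ := hf
      exact Submodule.subset_span ⟨_, 𝒜.re e hg, rfl⟩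
    | zero => exact Submodule.zero_mem _
    | add x y _ _ hx hy => exact Submodule.add_mem _ hx hy
    | smul a x _ hx => exact Submodule.smul_mem _ a hx
  mul := by
    intro S T _ _ f g hf hg
    induction hf using Submodule.span_induction with
    | mem f hf =>
      obtain ⟨f, hf, rfl⟩ := hf
      induction hg using Submodule.span_induction with
      | mem g hg =>
        obtain ⟨g, hg, rfl⟩ := hg
        refine Submodule.subset_span ⟨_, 𝒜.mul hf hg, ?_⟩
        funext J
        simp [ck]
      | zero =>
        convert Submodule.zero_mem _ using 1
        funext J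
        simp
      | add x y _ _ hx hy =>
        convert Submodule.add_mem _ hx hy using 1
        funext J
        simp [mul_add]
      | smul a x _ hx =>
        convert Submodule.smul_mem _ a hx using 1
        funext J
        simp only [Pi.smul_apply, smul_eq_mul]
        ring
    | zero =>
      convert Submodule.zero_mem _ using 1
      funext J
      simp
    | add x y _ _ hx hy =>
      convert Submodule.add_mem _ hx hy using 1
      funext J
      simp [add_mul]
    | smul a x _ hx =>
      convert Submodule.smul_mem _ a hx using 1
      funext J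
      simp only [Pi.smul_apply, smul_eq_mul]
      ring

theorem mem_bcS {B : Type} {𝒜 : Sys k B} {S : Type} {f : (S → B) → k} (hf : f ∈ 𝒜.Alg S) :
    ck C f ∈ (bcS C 𝒜).Alg S := Submodule.subset_span ⟨f, hf, rfl⟩

/-- descent -/
theorem desc {A : Type} (W : Submodule k (A → k)) (f : A → k)
    (hf : ck C f ∈ Submodule.span C (ck C '' (W : Set (A → k)))) : f ∈ W := by
  have hinj : Function.Injective (Algebra.linearMap k C) := fun x y h =>
    (algebraMap k C).injective h
  obtain ⟨π, hπ⟩ := LinearMap.exists_leftInverse_of_injective (Algebra.linearMap k C)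
    (LinearMap.ker_eq_bot.2 hinj)
  have hπ1 : ∀ r : k, π (algebraMap k C r) = r := fun r => LinearMap.congr_fun hπ r
  have hπ2 : ∀ (z : C) (r : k), π (z * algebraMap k C r) = r * π z := by
    intro z r
    have : z * algebraMap k C r = r • z := by
      rw [Algebra.smul_def, mul_comm]
    rw [this, map_smul, smul_eq_mul]
  have key : ∀ g ∈ Submodule.span C (ck C '' (W : Set (A → k))), ∀ z : C,
      (fun a => π (z * g a)) ∈ W := by
    intro g hg
    induction hg using Submodule.span_induction with
    | mem g hg =>
      obtain ⟨w, hw, rfl⟩ := hg
      intro z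
      have : (fun a => π (z * ck C w a)) = (π z) • w := by
        funext a
        change π (z * algebraMap k C (w a)) = π z * w a
        rw [hπ2, mul_comm]
      rw [this]
      exact W.smul_mem _ hw
    | zero =>
      intro z
      have : (fun a : A => π (z * (0 : A → C) a)) = 0 := by
        funext a
        simp
      rw [this]
      exact W.zero_mem
    | add x y _ _ hx hy =>
      intro z
      have : (fun a : A => π (z * (x + y) a)) = (fun a => π (z * x a)) + fun a => π (z * y a) := by
        funext a
        simp [mul_add]
      rw [this]
      exact W.add_mem (hx z) (hy z)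
    | smul c x _ hx =>
      intro z
      have : (fun a : A => π (z * (c • x) a)) = (fun a => π ((z * c) * x a)) := by
        funext a
        simp [mul_assoc]
      rw [this]
      exact hx _
  have h := key _ hf 1
  have : (fun a => π (1 * ck C f a)) = f := by
    funext a
    rw [one_mul]
    exact hπ1 _
  rwa [this] at h

theorem der_ck {B : Type} [Fintype B] [DecidableEq B] {S : Type} [Fintype S] [DecidableEq S]
    (Y : Matrix B B k) (g : (S → B) → k) :
    der (Y.map (algebraMap k C)) (ck C g) = ck C (der Y g) := by
  funext J
  simp only [der, ck, map_sum, map_mul, Matrix.map_apply]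

end bc

section chgS

variable {K : Type} [Field K] {B : Type} [Fintype B] [DecidableEq B]

/-- change of coordinates in a system of forms -/
noncomputable def chS (𝒜 : Sys K B) (U : Matrix B B K) : Sys K B where
  Alg S :=
    { carrier := {f | ∀ (_ : Fintype S) (_ : DecidableEq S), chg U f ∈ 𝒜.Alg S}
      add_mem' := by
        intro f g hf hg i1 i2
        rw [chg_add]
        exact Submodule.add_mem _ (hf i1 i2) (hg i1 i2)
      zero_mem' := by
        intro i1 i2
        rw [chg_zero]
        exact Submodule.zero_mem _
      smul_mem' := by
        intro c f hf i1 i2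
        rw [chg_smul]
        exact Submodule.smul_mem _ _ (hf i1 i2) }
  one := by
    intro i1 i2
    have : chg U (fun _ : Empty → B => (1 : K)) = fun _ => 1 := by
      funext J
      simp only [chg]
      rw [Fintype.sum_unique]
      simp
    rw [this]
    exact 𝒜.one
  re := by
    intro S T _ _ e f hf i1 i2
    let _ : Fintype S := Fintype.ofFinite S
    let _ : DecidableEq S := Classical.decEq S
    rw [chg_re]
    exact 𝒜.re e (hf _ _)
  mul := by
    intro S T _ _ f g hf hg i1 i2
    let _ : Fintype S := Fintype.ofFinite S
    let _ : DecidableEq S := Classical.decEq S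
    let _ : Fintype T := Fintype.ofFinite T
    let _ : DecidableEq T := Classical.decEq T
    have h1 : i1 = instFintypeSum S T := Subsingleton.elim _ _
    subst h1
    have := chg_mul U (LinearMap.mul K K) f g
    simp only [LinearMap.mul_apply'] at this
    rw [this]
    exact 𝒜.mul (hf _ _) (hg _ _)

theorem mem_chS {𝒜 : Sys K B} {U : Matrix B B K} {S : Type} [i1 : Fintype S] [i2 : DecidableEq S]
    {f : (S → B) → K} : f ∈ (chS 𝒜 U).Alg S ↔ chg U f ∈ 𝒜.Alg S := by
  constructor
  · intro h
    exact h _ _
  · intro h j1 j2
    have h1 : j1 = i1 := Subsingleton.elim _ _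
    have h2 : j2 = i2 := Subsingleton.elim _ _
    subst h1 h2
    exact h

end chgS

end Pool.Agent.H851.TT
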