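import Pool.Agent.H851.TT.Kg
import Pool.Agent.H851.K3.Rat

/-!
# Tate forms of representations of K3 type: the final statements
-/

set_option autoImplicit false
set_option linter.unusedSectionVars false

namespace Pool.Agent.H851.TT

open Matrix Finset Function Module
open NumberField IsDedekindDomain Polynomial
open Pool.Agent.N429.KS
open Pool.Agent.H851.K3
open Pool.Agent.H851.KT
open Pool.Agent.NH56.HY (GK tw tw_apply chi_ne)

section

variable {k : Type} [Field k] {B : Type}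

/-- the system `𝒜` in degrees at most `N`, and everything in larger degrees -/
def trc (𝒜 : Sys k B) (N : ℕ) : Sys k B where
  Alg S :=
    { carrier := {f | Finite S → Nat.card S ≤ N → f ∈ 𝒜.Alg S}
      add_mem' := fun ha hb h1 h2 => Submodule.add_mem _ (ha h1 h2) (hb h1 h2)
      zero_mem' := fun _ _ => Submodule.zero_mem _
      smul_mem' := fun c _ ha h1 h2 => Submodule.smul_mem _ c (ha h1 h2) }
  one := fun _ _ => 𝒜.one
  re := fun {S T} _ _ e f hf _ h2 => 𝒜.re e (hf inferInstance (by rwa [Nat.card_congr e]))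
  mul := fun {S T} _ _ f g hf hg _ h2 => by
    rw [Nat.card_sum] at h2
    exact 𝒜.mul (hf inferInstance (by omega)) (hg inferInstance (by omega))

theorem mem_trc {𝒜 : Sys k B} {N : ℕ} {S : Type} {f : (S → B) → k} :
    f ∈ (trc 𝒜 N).Alg S ↔ (Finite S → Nat.card S ≤ N → f ∈ 𝒜.Alg S) := Iff.rfl

end

section

variable {K : Type} [Field K] [NumberField K] {ℓ : ℕ} [hℓ : Fact ℓ.Prime] {n : Type}
    [Fintype n] [DecidableEq n] {q : Matrix n n ℚ_[ℓ]} {S : Finset ℕ} {χ : GK K →* ℚ_[ℓ]}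
    {Pol : HeightOneSpectrum (𝓞 K) → ℤ[X]} {ρ : GK K →* Matrix n n ℚ_[ℓ]}

theorem inv_re {Γ : Type} [Group Γ] [TopologicalSpace Γ] {r : Γ →* Matrix n n ℚ_[ℓ]} {S T : Type}
    [Fintype S] [DecidableEq S] [Fintype T] [DecidableEq T] (e : S ≃ T) {f : (S → n) → ℚ_[ℓ]}
    (hf : InvForm r f) : InvForm r (fun J : T → n => f (J ∘ e)) := by
  obtain ⟨U, hU, hUf⟩ := hf
  refine ⟨U, hU, fun g hg => ?_⟩
  rw [chg_re, hUf g hg]

theorem alt_re {S T : Type} [Fintype S] [DecidableEq S] [Fintype T] [DecidableEq T] (e : S ≃ T)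
    {f : (S → n) → ℚ_[ℓ]} (hf : IsAlt f) : IsAlt (fun J : T → n => f (J ∘ e)) := by
  intro σ J
  have h1 := hf ((e.trans σ).trans e.symm) (J ∘ e)
  have h2 : Equiv.Perm.sign ((e.trans σ).trans e.symm) = Equiv.Perm.sign σ :=
    Equiv.Perm.sign_trans_trans_symm σ e
  rw [h2] at h1
  rw [← h1]
  refine congrArg f (funext fun s => ?_)
  simp

/-- from `Fin m` to arbitrary index sets -/
theorem mem_re {Γ : Type} [Group Γ] [TopologicalSpace Γ] {r : Γ →* Matrix n n ℚ_[ℓ]}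
    (𝒜 : Sys ℚ_[ℓ] n)
    (d1 : ∀ f : (Unit → n) → ℚ_[ℓ], InvForm r f → f ∈ 𝒜.Alg Unit)
    (d2 : ∀ f : (Fin 2 → n) → ℚ_[ℓ], InvForm r f → f ∈ 𝒜.Alg (Fin 2)) {T : Type} [Fintype T]
    [DecidableEq T] (hT : Nonempty T)
    (d3 : 3 ≤ Fintype.card T → ∀ f : (Fin (Fintype.card T) → n) → ℚ_[ℓ], InvForm r f → IsAlt f →
      f ∈ 𝒜.Alg (Fin (Fintype.card T))) (f : (T → n) → ℚ_[ℓ]) (hf : InvForm r f) (hfa : IsAlt f) :
    f ∈ 𝒜.Alg T := by
  have key : ∀ {S : Type} [Fintype S] [DecidableEq S] (e : S ≃ T),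
      (fun J : S → n => f (J ∘ e.symm)) ∈ 𝒜.Alg S → f ∈ 𝒜.Alg T := by
    intro S _ _ e h
    have h1 := 𝒜.re e h
    convert h1 using 1
    funext J
    congr 1
    funext s
    simp
  have hpos : 0 < Fintype.card T := Fintype.card_pos
  rcases Nat.lt_or_ge (Fintype.card T) 3 with h3 | h3
  · interval_cases hc : Fintype.card T
    · refine key (Fintype.equivOfCardEq (by rw [hc]; rfl) : Unit ≃ T) (d1 _ (inv_re _ hf))
    · refine key (Fintype.equivOfCardEq (by rw [hc]; rfl) : Fin 2 ≃ T) (d2 _ (inv_re _ hf))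
  · exact key (Fintype.equivFin T).symm (d3 h3 _ (inv_re _ hf) (alt_re _ hfa))

/-- (1) -/
theorem partA (h : IsK3Type q S χ Pol ρ) (hss : Semisimple ρ) (𝒜 : Sys ℚ_[ℓ] n)
    (d1 : ∀ f : (Unit → n) → ℚ_[ℓ], InvForm (tw χ ρ) f → f ∈ 𝒜.Alg Unit)
    (d2 : ∀ f : (Fin 2 → n) → ℚ_[ℓ], InvForm (tw χ ρ) f → f ∈ 𝒜.Alg (Fin 2)) (N : ℕ)
    (da : ∀ m, 3 ≤ m → m ≤ N → ∀ f : (Fin m → n) → ℚ_[ℓ], InvForm (tw χ ρ) f → IsAlt f →
      f ∈ 𝒜.Alg (Fin m))
    {T : Type} [Fintype T] [DecidableEq T] (hT : Fintype.card T ≤ N) (f : (T → n) → ℚ_[ℓ])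
    (hf : InvForm (tw χ ρ) f) : f ∈ 𝒜.Alg T := by
  obtain ⟨P, D, -, -, hP3, -⟩ := exists_dat h hss (C := AlgebraicClosure ℚ_[ℓ])
  have h1 := forms_main h hss D hP3 (trc 𝒜 N) (fun f hf _ _ => d1 f hf) (fun f hf _ _ => d2 f hf)
    (fun T _ _ x c hT hB f hf hfa => by
      rw [mem_trc]
      intro _ hN
      rw [Nat.card_eq_fintype_card] at hN
      exact mem_re 𝒜 d1 d2 hT (fun h3 f hf hfa => da _ h3 hN f hf hfa) f hf hfa) f hf
  exact h1 inferInstance (by rw [Nat.card_eq_fintype_card]; exact hT)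

theorem no_block (h : IsK3Type q S χ Pol ρ) (hss : Semisimple ρ) {Θ : Matrix n n ℚ_[ℓ]}
    (hΘ : IsTateEnd ρ Θ) (hskew : Θᵀ * q = -(q * Θ))
    (hinj : ∀ x ∈ orth q (tate χ ρ), Θ *ᵥ x = 0 → x = 0) {C : Type} [Field C] [CharZero C]
    [Algebra ℚ_[ℓ] C] {P : Matrix n n ℚ_[ℓ]}
    (D : Dat C q P (tateLie χ ρ : Set (Matrix n n ℚ_[ℓ])))
    (hP4 : ∀ x, x - P *ᵥ x ∈ orth q (tate χ ρ))
    {T : Type} [Fintype T] [DecidableEq T] {x : T → n → C} {c : Matrix n n ℚ_[ℓ] → C}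
    (hB : IsBlock q P (tateLie χ ρ : Set (Matrix n n ℚ_[ℓ])) x c) (s : T) : False := by
  have hΘm := (cm_iff h hss Θ).2 hΘ
  have hsy : (mp C q)ᵀ = mp C q := by rw [mp_transpose, h.symm]
  have e1 := hB.eig Θ hΘm s
  have e2 : form (mp C q) (mp C Θ *ᵥ x s) (x s) = -form (mp C q) (x s) (mp C Θ *ᵥ x s) := by
    have h1 : Θᵀ * q = q * (-Θ) := by rw [hskew, Matrix.mul_neg]
    rw [form_adj h1]
    have h2 : mp C (-Θ) = -mp C Θ := by
      ext i j
      simp [mp]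
    rw [h2, Matrix.neg_mulVec, map_neg]
  rw [e1, map_smul, LinearMap.smul_apply, map_smul, hB.ortho, if_pos rfl, smul_eq_mul,
    mul_one] at e2
  have e3 : c Θ = 0 := by linear_combination e2 / 2
  rw [e3, zero_smul] at e1
  -- an invertible matrix which kills `x s`
  set M : Matrix n n ℚ_[ℓ] := Θ * (1 - P) + P with hM
  have hMinj : ∀ v, M *ᵥ v = 0 → v = 0 := by
    intro v hv
    have hcen := D.central Θ hΘm
    have h1 : P *ᵥ (M *ᵥ v) = P *ᵥ v := by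
      rw [Matrix.mulVec_mulVec, hM, Matrix.mul_add, D.proj, ← Matrix.mul_assoc, ← hcen,
        Matrix.mul_assoc, Matrix.mul_sub, Matrix.mul_one, D.proj, sub_self, Matrix.mul_zero,
        zero_add]
    rw [hv, Matrix.mulVec_zero] at h1
    have h2 : Θ *ᵥ v = 0 := by
      rw [hM, Matrix.add_mulVec, ← Matrix.mulVec_mulVec, Matrix.sub_mulVec, Matrix.one_mulVec,
        ← h1, sub_zero, add_zero] at hv
      exact hv
    refine hinj v ?_ h2
    have h3 := hP4 v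
    rwa [← h1, sub_zero] at h3
  have hdet : M.det ≠ 0 := by
    intro h0
    obtain ⟨v, hv, hv0⟩ := Matrix.exists_mulVec_eq_zero_iff.2 h0
    exact hv (hMinj v hv0)
  have hdet' : (mp C M).det ≠ 0 := by
    have h1 : (mp C M).det = algebraMap ℚ_[ℓ] C M.det := (RingHom.map_det (algebraMap ℚ_[ℓ] C) M).symm
    rw [h1]
    exact (map_ne_zero (algebraMap ℚ_[ℓ] C)).2 hdet
  have e4 : mp C M *ᵥ x s = 0 := by
    rw [hM, mp_add, mp_mul, mp_sub, mp_one, Matrix.add_mulVec, ← Matrix.mulVec_mulVec,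
      Matrix.sub_mulVec, Matrix.one_mulVec, hB.perp, sub_zero, e1, add_zero]
  have e5 : x s = 0 := Matrix.mulVec_injective_of_isUnit
    ((Matrix.isUnit_iff_isUnit_det _).2 hdet'.isUnit) (e4.trans (Matrix.mulVec_zero _).symm)
  have e6 := hB.ortho s s
  rw [e5, map_zero, if_pos rfl] at e6
  exact zero_ne_one e6

/-- (2) no alternating forms are needed if there is a skew Tate endomorphism, injective on the
transcendental part -/
theorem partB (h : IsK3Type q S χ Pol ρ) (hss : Semisimple ρ) {Θ : Matrix n n ℚ_[ℓ]}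
    (hΘ : IsTateEnd ρ Θ) (hskew : Θᵀ * q = -(q * Θ))
    (hinj : ∀ x ∈ orth q (tate χ ρ), Θ *ᵥ x = 0 → x = 0) (𝒜 : Sys ℚ_[ℓ] n)
    (d1 : ∀ f : (Unit → n) → ℚ_[ℓ], InvForm (tw χ ρ) f → f ∈ 𝒜.Alg Unit)
    (d2 : ∀ f : (Fin 2 → n) → ℚ_[ℓ], InvForm (tw χ ρ) f → f ∈ 𝒜.Alg (Fin 2))
    {T : Type} [Fintype T] [DecidableEq T] (f : (T → n) → ℚ_[ℓ])
    (hf : InvForm (tw χ ρ) f) : f ∈ 𝒜.Alg T := by
  obtain ⟨P, D, hP1, hP2, hP3, hP4⟩ := exists_dat h hss (C := AlgebraicClosure ℚ_[ℓ])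
  exact forms_main h hss D hP3 𝒜 d1 d2 (fun T _ _ x c hT hB =>
    (no_block h hss hΘ hskew hinj D hP4 hB hT.some).elim) f hf

/-- the dimension of a block if the Tate endomorphisms are scalars on the transcendental part -/
theorem card_block (h : IsK3Type q S χ Pol ρ) (hss : Semisimple ρ)
    (hsc : ∀ Y, IsTateEnd ρ Y → ∃ a : ℚ_[ℓ], ∀ x ∈ orth q (tate χ ρ), Y *ᵥ x = a • x)
    {C : Type} [Field C] [CharZero C] [Algebra ℚ_[ℓ] C] {P : Matrix n n ℚ_[ℓ]}
    (D : Dat C q P (tateLie χ ρ : Set (Matrix n n ℚ_[ℓ]))) (hP1 : ∀ x ∈ tate χ ρ, P *ᵥ x = x)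
    (hP2 : ∀ x ∈ orth q (tate χ ρ), P *ᵥ x = 0) (hP4 : ∀ x, x - P *ᵥ x ∈ orth q (tate χ ρ))
    {T : Type} [Fintype T] [DecidableEq T] {x : T → n → C} {c : Matrix n n ℚ_[ℓ] → C}
    (hT : Nonempty T) (hB : IsBlock q P (tateLie χ ρ : Set (Matrix n n ℚ_[ℓ])) x c) :
    Fintype.card T = finrank ℚ_[ℓ] (orth q (tate χ ρ)) := by
  have hsy : (mp C q)ᵀ = mp C q := by rw [mp_transpose, h.symm]
  have hPC : mp C P * mp C P = mp C P := by rw [← mp_mul, D.proj]
  have hx0 : ∀ s, x s ≠ 0 := by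
    intro s h0
    have e6 := hB.ortho s s
    rw [h0, map_zero, if_pos rfl] at e6
    exact zero_ne_one e6
  -- the commutant acts by scalars on the complement
  have hsc' : ∀ Y ∈ Cm (tateLie χ ρ : Set (Matrix n n ℚ_[ℓ])), ∀ v : n → C, mp C P *ᵥ v = 0 →
      mp C Y *ᵥ v = c Y • v := by
    intro Y hY v hv
    obtain ⟨a, ha⟩ := hsc Y ((cm_iff h hss Y).1 hY)
    have h1 : Y * (1 - P) = a • (1 - P) := by
      refine ext_mulVec fun x => ?_
      rw [← Matrix.mulVec_mulVec, Matrix.smul_mulVec, Matrix.sub_mulVec, Matrix.one_mulVec]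
      exact ha _ (hP4 x)
    have h2 : ∀ v : n → C, mp C P *ᵥ v = 0 → mp C Y *ᵥ v = algebraMap ℚ_[ℓ] C a • v := by
      intro v hv
      have h3 : mp C (Y * (1 - P)) *ᵥ v = mp C (a • (1 - P)) *ᵥ v := by rw [h1]
      have h4 : mp C (a • (1 - P)) = algebraMap ℚ_[ℓ] C a • mp C (1 - P) := by
        ext i j
        simp [mp]
      rw [h4, mp_mul, mp_sub, mp_one, ← Matrix.mulVec_mulVec, Matrix.smul_mulVec,
        Matrix.sub_mulVec, Matrix.one_mulVec, hv, sub_zero] at h3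
      exact h3
    obtain ⟨s⟩ := hT
    have h5 := h2 (x s) (hB.perp s)
    rw [hB.eig Y hY] at h5
    rw [smul_left_injective C (hx0 s) h5]
    exact h2 v hv
  -- the trace of the complementary projection
  have htr : Matrix.trace (mp C (1 - P)) = (Fintype.card T : C) := by
    have h1 : ∀ v : n → C, mp C (1 - P) *ᵥ v =
        ∑ s, form (mp C q) (x s) (mp C (1 - P) *ᵥ v) • x s := by
      intro v
      have h2 : mp C P *ᵥ (mp C (1 - P) *ᵥ v) = 0 := by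
        rw [Matrix.mulVec_mulVec, mp_sub, mp_one, Matrix.mul_sub, Matrix.mul_one, hPC, sub_self,
          Matrix.zero_mulVec]
      exact hB.full _ h2 fun Y hY => hsc' Y hY _ h2
    have h3 : ∀ i, mp C (1 - P) i i =
        ∑ s, form (mp C q) (x s) (mp C (1 - P) *ᵥ Pi.single i 1) * x s i := by
      intro i
      have h4 := congrFun (h1 (Pi.single i 1)) i
      rw [Finset.sum_apply] at h4
      rw [Matrix.mulVec_single_one] at h4
      rw [Matrix.mulVec_single_one]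
      exact h4
    rw [Matrix.trace]
    simp only [Matrix.diag_apply, h3]
    rw [Finset.sum_comm]
    have h5 : ∀ s, ∑ i, form (mp C q) (x s) (mp C (1 - P) *ᵥ Pi.single i 1) * x s i = 1 := by
      intro s
      have h6 : ∑ i, form (mp C q) (x s) (mp C (1 - P) *ᵥ Pi.single i 1) * x s i =
          form (mp C q) (x s) (mp C (1 - P) *ᵥ x s) := by
        have h7 : x s = ∑ i, x s i • (Pi.single i (1 : C) : n → C) := by
          funext j
          simp [Finset.sum_apply, Pi.single_apply]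
        conv_rhs => rw [show mp C (1 - P) *ᵥ x s =
          ∑ i, x s i • (mp C (1 - P) *ᵥ Pi.single i 1) by
            conv_lhs => rw [h7]
            rw [Matrix.mulVec_sum]
            exact Finset.sum_congr rfl fun i _ => Matrix.mulVec_smul _ _ _]
        rw [map_sum]
        refine Finset.sum_congr rfl fun i _ => ?_
        rw [map_smul, smul_eq_mul, mul_comm]
      rw [h6, mp_sub, mp_one, Matrix.sub_mulVec, Matrix.one_mulVec, hB.perp, sub_zero, hB.ortho,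
        if_pos rfl]
    rw [Finset.sum_congr rfl fun s _ => h5 s, Finset.sum_const, Finset.card_univ, nsmul_eq_mul,
      mul_one]
  have htr2 : Matrix.trace (1 - P) = (finrank ℚ_[ℓ] (orth q (tate χ ρ)) : ℚ_[ℓ]) := by
    have h1 : LinearMap.IsProj (orth q (tate χ ρ)) (toLin' (1 - P)) := by
      refine ⟨fun v => ?_, fun v hv => ?_⟩
      · rw [toLin'_apply, Matrix.sub_mulVec, Matrix.one_mulVec]
        exact hP4 v
      · rw [toLin'_apply, Matrix.sub_mulVec, Matrix.one_mulVec, hP2 v hv, sub_zero]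
    have h2 := h1.trace
    rwa [Matrix.trace_toLin'_eq] at h2
  have h1 : Matrix.trace (mp C (1 - P)) = algebraMap ℚ_[ℓ] C (Matrix.trace (1 - P)) := by
    simp only [Matrix.trace, map_sum, Matrix.diag_apply, Matrix.map_apply]
  rw [htr, htr2, map_natCast] at h1
  exact_mod_cast h1

/-- (3) -/
theorem partC (h : IsK3Type q S χ Pol ρ) (hss : Semisimple ρ)
    (hsc : ∀ Y, IsTateEnd ρ Y → ∃ a : ℚ_[ℓ], ∀ x ∈ orth q (tate χ ρ), Y *ᵥ x = a • x)
    (𝒜 : Sys ℚ_[ℓ] n)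
    (d1 : ∀ f : (Unit → n) → ℚ_[ℓ], InvForm (tw χ ρ) f → f ∈ 𝒜.Alg Unit)
    (d2 : ∀ f : (Fin 2 → n) → ℚ_[ℓ], InvForm (tw χ ρ) f → f ∈ 𝒜.Alg (Fin 2))
    {T : Type} [Fintype T] [DecidableEq T]
    (hT : Fintype.card T < finrank ℚ_[ℓ] (orth q (tate χ ρ)) ∨
      ∀ f : (Fin (finrank ℚ_[ℓ] (orth q (tate χ ρ))) → n) → ℚ_[ℓ], InvForm (tw χ ρ) f → IsAlt f →
        f ∈ 𝒜.Alg (Fin (finrank ℚ_[ℓ] (orth q (tate χ ρ)))))
    (f : (T → n) → ℚ_[ℓ]) (hf : InvForm (tw χ ρ) f) : f ∈ 𝒜.Alg T := by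
  obtain ⟨P, D, hP1, hP2, hP3, hP4⟩ := exists_dat h hss (C := AlgebraicClosure ℚ_[ℓ])
  rcases hT with hT | hd
  · have h1 := forms_main h hss D hP3 (trc 𝒜 (Fintype.card T)) (fun f hf _ _ => d1 f hf)
      (fun f hf _ _ => d2 f hf) (fun T' _ _ x c hT' hB f hf hfa => by
        rw [mem_trc]
        intro _ hN
        rw [Nat.card_eq_fintype_card, card_block h hss hsc D hP1 hP2 hP4 hT' hB] at hN
        omega) f hf
    exact h1 inferInstance (by rw [Nat.card_eq_fintype_card])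
  · refine forms_main h hss D hP3 𝒜 d1 d2 (fun T' _ _ x c hT' hB f hf hfa => ?_) f hf
    have hc := card_block h hss hsc D hP1 hP2 hP4 hT' hB
    have hd' : ∀ m, m = finrank ℚ_[ℓ] (orth q (tate χ ρ)) → ∀ f : (Fin m → n) → ℚ_[ℓ],
        InvForm (tw χ ρ) f → IsAlt f → f ∈ 𝒜.Alg (Fin m) := by
      rintro _ rfl
      exact hd
    exact mem_re 𝒜 d1 d2 hT' (fun _ f hf hfa => hd' _ hc f hf hfa) f hf hfa

end

end Pool.Agent.H851.TT
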