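import Pool.Agent.H851.TT.Mix
import Pool.Agent.H851.TT.Ada
import Pool.Agent.H851.TT.Bc
import Pool.Agent.H851.KT.Abs

/-!
# Forms killed by a big Lie algebra are generated in degrees one and two and by determinants
-/

set_option autoImplicit false
set_option linter.unusedSectionVars false

namespace Pool.Agent.H851.TT

open Matrix Finset Function Module
open Pool.Agent.N429.KS
open Pool.Agent.H851.KT (form form_apply form_symm form_nondeg)

section

variable {k C : Type} [Field k] [CharZero k] [Field C] [IsAlgClosed C] [CharZero C] [Algebra k C]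
  {n : Type} [Fintype n] [DecidableEq n]

variable (C) in
/-- extension of scalars of a matrix -/
abbrev mp (X : Matrix n n k) : Matrix n n C := X.map (algebraMap k C)

omit [CharZero k] [IsAlgClosed C] [CharZero C] [DecidableEq n] in
theorem mp_mul (X Y : Matrix n n k) : mp C (X * Y) = mp C X * mp C Y := Matrix.map_mul

omit [CharZero k] [IsAlgClosed C] [CharZero C] [Fintype n] [DecidableEq n] in
theorem mp_sub (X Y : Matrix n n k) : mp C (X - Y) = mp C X - mp C Y := by
  ext i j
  simp [mp]

omit [CharZero k] [IsAlgClosed C] [CharZero C] [Fintype n] [DecidableEq n] in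
theorem mp_add (X Y : Matrix n n k) : mp C (X + Y) = mp C X + mp C Y := by
  ext i j
  simp [mp]

omit [CharZero k] [IsAlgClosed C] [CharZero C] [Fintype n] in
theorem mp_one : mp C (1 : Matrix n n k) = 1 := by
  ext i j
  simp [mp, Matrix.one_apply]

omit [CharZero k] [IsAlgClosed C] [CharZero C] [Fintype n] [DecidableEq n] in
theorem mp_zero : mp C (0 : Matrix n n k) = 0 := by
  ext i j
  simp [mp]

omit [CharZero k] [IsAlgClosed C] [CharZero C] [Fintype n] [DecidableEq n] in
theorem mp_transpose (X : Matrix n n k) : (mp C X)ᵀ = mp C Xᵀ := rfl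

omit [CharZero k] [Field k] [CharZero C] [IsAlgClosed C] [Algebra k C] in
theorem tl_mul (X Y : Matrix n n C) : (toLin' (X * Y) : End C (n → C)) = toLin' X * toLin' Y :=
  toLin'_mul X Y

/-- the commutant -/
def Cm (L : Set (Matrix n n k)) : Set (Matrix n n k) := {Y | ∀ X ∈ L, X * Y = Y * X}

variable (C) in
/-- The situation: `L` is a space of matrices skew for `q` which contains all skew matrices which commute
with its commutant, `P` is the projection to the vectors killed by `L`, and the commutant is commutative and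
semisimple on the orthogonal complement. -/
structure Dat (q P : Matrix n n k) (L : Set (Matrix n n k)) : Prop where
  symm : qᵀ = q
  nondeg : q.det ≠ 0
  skew : ∀ X ∈ L, Xᵀ * q + q * X = 0
  big : ∀ X, Xᵀ * q + q * X = 0 → (∀ Y ∈ Cm L, X * Y = Y * X) → X ∈ L
  proj : P * P = P
  adj : Pᵀ * q = q * P
  kill : ∀ X ∈ L, X * P = 0
  central : ∀ Y ∈ Cm L, Y * P = P * Y
  comm : ∀ Y ∈ Cm L, ∀ Y' ∈ Cm L, Y * Y' * (1 - P) = Y' * Y * (1 - P)
  diag : ∀ Y ∈ Cm L, End.IsSemisimple (toLin' (mp C (Y * (1 - P))))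

/-- `x` is an orthonormal basis of the space of the vectors killed by `P` on which the commutant acts by
the scalars `c` -/
structure IsBlock (q P : Matrix n n k) (L : Set (Matrix n n k)) {S : Type} [Fintype S]
    [DecidableEq S] (x : S → n → C) (c : Matrix n n k → C) : Prop where
  ortho : ∀ s t, form (mp C q) (x s) (x t) = if s = t then 1 else 0
  perp : ∀ s, mp C P *ᵥ x s = 0
  eig : ∀ Y ∈ Cm L, ∀ s, mp C Y *ᵥ x s = c Y • x s
  full : ∀ v : n → C, mp C P *ᵥ v = 0 → (∀ Y ∈ Cm L, mp C Y *ᵥ v = c Y • v) →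
    v = ∑ s, form (mp C q) (x s) v • x s

/-- the determinant of the coordinates given by orthonormal vectors -/
def dform (q : Matrix n n k) {S : Type} [Fintype S] [DecidableEq S] (x : S → n → C) :
    (S → n) → C :=
  fun J => Matrix.det (Matrix.of fun s t : S => (mp C q *ᵥ x t) (J s))

variable {q P : Matrix n n k} {L : Set (Matrix n n k)}

omit [IsAlgClosed C] in
theorem Dat.qinv (D : Dat C q P L) : q * q⁻¹ = 1 ∧ q⁻¹ * q = 1 :=
  ⟨Matrix.mul_nonsing_inv _ D.nondeg.isUnit, Matrix.nonsing_inv_mul _ D.nondeg.isUnit⟩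

omit [IsAlgClosed C] in
theorem Dat.kill' (D : Dat C q P L) {X : Matrix n n k} (hX : X ∈ L) : P * X = 0 := by
  have h1 := congrArg Matrix.transpose (D.kill X hX)
  rw [Matrix.transpose_mul, Matrix.transpose_zero] at h1
  have h2 : q * (P * X) = 0 := by
    have h3 := D.skew X hX
    have h4 : q * X = -(Xᵀ * q) := by rw [eq_neg_iff_add_eq_zero, add_comm]; exact h3
    rw [← Matrix.mul_assoc, ← D.adj, Matrix.mul_assoc, h4, Matrix.mul_neg, ← Matrix.mul_assoc, h1,
      Matrix.zero_mul, neg_zero]
  have h5 := congrArg (fun M => q⁻¹ * M) h2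
  simpa [← Matrix.mul_assoc, D.qinv.2] using h5

omit [IsAlgClosed C] in
theorem Dat.P_mem (D : Dat C q P L) : P ∈ Cm L := fun X hX => by rw [D.kill X hX, D.kill' hX]

omit [IsAlgClosed C] in
theorem Dat.one_mem : (1 : Matrix n n k) ∈ Cm L := fun X _ => by rw [mul_one, one_mul]

omit [IsAlgClosed C] in
/-- adjoints -/
theorem Dat.adj_mem (D : Dat C q P L) {Y : Matrix n n k} (hY : Y ∈ Cm L) :
    q⁻¹ * Yᵀ * q ∈ Cm L := by
  intro X hX
  have h3 := D.skew X hX
  have h4 : q * X = -(Xᵀ * q) := by rw [eq_neg_iff_add_eq_zero, add_comm]; exact h3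
  have h5 : X * q⁻¹ = -(q⁻¹ * Xᵀ) := by
    have h6 := congrArg (fun M => q⁻¹ * M * q⁻¹) h4
    simp only [← Matrix.mul_assoc, D.qinv.2, Matrix.one_mul, Matrix.mul_neg, Matrix.neg_mul] at h6
    rw [h6, Matrix.mul_assoc (q⁻¹ * Xᵀ), D.qinv.1, Matrix.mul_one]
  have h7 := congrArg Matrix.transpose (hY X hX)
  rw [Matrix.transpose_mul, Matrix.transpose_mul] at h7
  calc X * (q⁻¹ * Yᵀ * q) = (X * q⁻¹) * Yᵀ * q := by simp only [Matrix.mul_assoc]
    _ = -(q⁻¹ * (Xᵀ * Yᵀ) * q) := by rw [h5]; simp only [Matrix.neg_mul, Matrix.mul_assoc]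
    _ = -(q⁻¹ * (Yᵀ * Xᵀ) * q) := by rw [h7]
    _ = q⁻¹ * Yᵀ * (-(Xᵀ * q)) := by simp only [Matrix.mul_neg, Matrix.mul_assoc]
    _ = q⁻¹ * Yᵀ * q * X := by rw [← h4]; simp only [Matrix.mul_assoc]

/-- the commuting family -/
def fam (P : Matrix n n k) (L : Set (Matrix n n k)) : Option (Cm L) → Matrix n n k
  | none => P
  | some Y => Y.1 * (1 - P)

variable (C) in
/-- the commuting family over `C` -/
noncomputable def famC (P : Matrix n n k) (L : Set (Matrix n n k)) (j : Option (Cm L)) :
    End C (n → C) := toLin' (mp C (fam P L j))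

/-- adjoints in the family -/
noncomputable def Dat.st (D : Dat C q P L) : Option (Cm L) → Option (Cm L)
  | none => none
  | some Y => some ⟨q⁻¹ * Y.1ᵀ * q, D.adj_mem Y.2⟩

omit [IsAlgClosed C] in
theorem Dat.fam_adj (D : Dat C q P L) (j : Option (Cm L)) :
    (fam P L j)ᵀ * q = q * fam P L (D.st j) := by
  rcases j with _ | Y
  · exact D.adj
  · change (Y.1 * (1 - P))ᵀ * q = q * (q⁻¹ * Y.1ᵀ * q * (1 - P))
    have h1 : q * (q⁻¹ * Y.1ᵀ * q * (1 - P)) = Y.1ᵀ * q * (1 - P) := by
      simp only [← Matrix.mul_assoc, D.qinv.1, Matrix.one_mul]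
    have h2 := D.central Y.1 Y.2
    have h3 : Y.1 * (1 - P) = (1 - P) * Y.1 := by
      rw [Matrix.mul_sub, Matrix.sub_mul, h2, Matrix.mul_one, Matrix.one_mul]
    rw [h1, h3, Matrix.transpose_mul, Matrix.transpose_sub, Matrix.transpose_one, Matrix.mul_assoc,
      Matrix.sub_mul, D.adj, Matrix.one_mul, Matrix.mul_assoc, Matrix.mul_sub q, Matrix.mul_one]

omit [CharZero k] [IsAlgClosed C] [CharZero C] in
theorem form_adj {X Y : Matrix n n k} (h : Xᵀ * q = q * Y) (x y : n → C) :
    form (mp C q) (mp C X *ᵥ x) y = form (mp C q) x (mp C Y *ᵥ y) := by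
  rw [form_apply, form_apply, Matrix.dotProduct_mulVec, ← Matrix.vecMul_transpose,
    Matrix.vecMul_vecMul, Matrix.mulVec_mulVec, Matrix.dotProduct_mulVec, mp_transpose, ← mp_mul,
    ← mp_mul, h]

omit [IsAlgClosed C] in
theorem Dat.fam_comm (D : Dat C q P L) (i j : Option (Cm L)) :
    fam P L i * fam P L j = fam P L j * fam P L i := by
  have hP : (1 - P) * P = 0 := by rw [Matrix.sub_mul, Matrix.one_mul, D.proj, sub_self]
  have hP' : P * (1 - P) = 0 := by rw [Matrix.mul_sub, Matrix.mul_one, D.proj, sub_self]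
  have hY : ∀ Y ∈ Cm L, Y * (1 - P) = (1 - P) * Y := by
    intro Y hY
    rw [Matrix.mul_sub, Matrix.sub_mul, D.central Y hY, Matrix.mul_one, Matrix.one_mul]
  rcases i with _ | Y <;> rcases j with _ | Y'
  · rfl
  · change P * (Y'.1 * (1 - P)) = Y'.1 * (1 - P) * P
    rw [hY Y'.1 Y'.2, ← Matrix.mul_assoc, hP', Matrix.zero_mul, Matrix.mul_assoc,
      D.central Y'.1 Y'.2, ← Matrix.mul_assoc, hP, Matrix.zero_mul]
  · change Y.1 * (1 - P) * P = P * (Y.1 * (1 - P))
    rw [hY Y.1 Y.2, ← Matrix.mul_assoc P, hP', Matrix.zero_mul, Matrix.mul_assoc,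
      D.central Y.1 Y.2, ← Matrix.mul_assoc, hP, Matrix.zero_mul]
  · change Y.1 * (1 - P) * (Y'.1 * (1 - P)) = Y'.1 * (1 - P) * (Y.1 * (1 - P))
    have e1 : ∀ A ∈ Cm L, ∀ B ∈ Cm L, A * (1 - P) * (B * (1 - P)) = A * B * (1 - P) := by
      intro A hA B hB
      have h1 : (1 - P) * (1 - P) = 1 - P := by
        rw [Matrix.sub_mul, Matrix.one_mul, hP', sub_zero]
      rw [Matrix.mul_assoc, ← Matrix.mul_assoc (1 - P), ← hY B hB, Matrix.mul_assoc B, h1,
        Matrix.mul_assoc]
    rw [e1 _ Y.2 _ Y'.2, e1 _ Y'.2 _ Y.2]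
    exact D.comm _ Y.2 _ Y'.2

theorem Dat.span (D : Dat C q P L) : Submodule.span C {v : n → C | ∃ χ : Option (Cm L) → C,
    ∀ j, famC C P L j v = χ j • v} = ⊤ := by
  have hss : ∀ j, (famC C P L j).IsSemisimple := by
    rintro (_ | Y)
    · have hP2 : mp C P * mp C P = mp C P := by rw [← mp_mul, D.proj]
      have hsq : Squarefree ((Polynomial.X - Polynomial.C (0 : C)) *
          (Polynomial.X - Polynomial.C 1)) := by
        refine Polynomial.Separable.squarefree (Polynomial.Separable.mul
          Polynomial.separable_X_sub_C Polynomial.separable_X_sub_C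
          (Polynomial.isCoprime_X_sub_C_of_isUnit_sub ?_))
        simp
      refine End.isSemisimple_of_squarefree_aeval_eq_zero hsq ?_
      change Polynomial.aeval (toLin' (mp C P)) _ = 0
      simp only [map_mul, map_sub, Polynomial.aeval_X, Polynomial.aeval_C, map_zero, map_one,
        sub_zero, mul_sub, mul_one]
      rw [← tl_mul, hP2, sub_self]
    · exact D.diag Y.1 Y.2
  have hcomm : Pairwise fun i j => Commute (famC C P L i) (famC C P L j) := by
    intro i j _
    change famC C P L i * famC C P L j = famC C P L j * famC C P L i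
    rw [famC, famC, ← tl_mul, ← tl_mul, ← mp_mul, ← mp_mul, D.fam_comm]
  have h1 := End.iSup_iInf_maxGenEigenspace_eq_top_of_iSup_maxGenEigenspace_eq_top_of_commute
    (famC C P L) hcomm (fun i => End.iSup_maxGenEigenspace_eq_top _)
  rw [← top_le_iff, ← h1, iSup_le_iff]
  intro χ v hv
  refine Submodule.subset_span ⟨χ, fun j => ?_⟩
  rw [Submodule.mem_iInf] at hv
  have h2 := hv j
  rw [(End.isFinitelySemisimple_iff_isSemisimple.2 (hss j)).maxGenEigenspace_eq_eigenspace] at h2
  exact End.mem_eigenspace_iff.1 h2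

/-- the adapted basis -/
theorem Dat.exists_ada (D : Dat C q P L) : Nonempty (Ada (form (mp C q)) (famC C P L) n) := by
  have hsy : (mp C q)ᵀ = mp C q := by rw [mp_transpose, D.symm]
  have hdet : (mp C q).det ≠ 0 := by
    have h1 : (mp C q).det = algebraMap k C q.det := (RingHom.map_det (algebraMap k C) q).symm
    rw [h1]
    exact (map_ne_zero (algebraMap k C)).2 D.nondeg
  obtain ⟨B, i1, i2, A, hA⟩ := TT.exists_ada (b := form (mp C q)) (F := famC C P L) (st := D.st)
    (form_symm hsy) (form_nondeg hsy hdet) (fun j x y => by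
      rw [famC, famC, toLin'_apply, toLin'_apply]
      exact form_adj (D.fam_adj j) x y) D.span
  rw [Module.finrank_fintype_fun_eq_card] at hA
  exact ⟨A.tr (Fintype.equivOfCardEq hA.symm)⟩

omit [CharZero k] [IsAlgClosed C] [CharZero C] in
theorem expandM (Z : Matrix n n C) : ∃ (I : Type) (_ : Fintype I) (c : I → C)
    (z : I → Matrix n n k), LinearIndependent k c ∧ Z = ∑ i, c i • mp C (z i) := by
  obtain ⟨I, i1, c, z, hc, hz⟩ := expand (k := k) (fun p : n × n => Z p.1 p.2)
  refine ⟨I, i1, c, fun i => Matrix.of fun a b => z i (a, b), hc, ?_⟩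
  ext a b
  have h1 := congrFun hz (a, b)
  rw [Finset.sum_apply] at h1
  rw [Matrix.sum_apply]
  exact h1

omit [CharZero k] [IsAlgClosed C] [CharZero C] [Fintype n] [DecidableEq n] in
theorem li_mat {I : Type} [Fintype I] {c : I → C} (hc : LinearIndependent k c)
    {M : I → Matrix n n k} (h : ∑ i, c i • mp C (M i) = 0) (i : I) : M i = 0 := by
  ext a b
  refine li_zero hc (r := fun i => M i a b) ?_ i
  have h1 := congrFun (congrFun h a) b
  rw [Matrix.sum_apply] at h1
  exact h1

omit [CharZero k] [IsAlgClosed C] [CharZero C] in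
theorem der_lin {I : Type} [Fintype I] (c : I → C) (M : I → Matrix n n C) {S : Type} [Fintype S]
    [DecidableEq S] (f : (S → n) → C) : der (∑ i, c i • M i) f = ∑ i, c i • der (M i) f := by
  funext J
  simp only [der, Matrix.sum_apply, Matrix.smul_apply, smul_eq_mul, Finset.sum_apply, Pi.smul_apply,
    Finset.mul_sum, Finset.sum_mul]
  have h1 : ∀ s : S, ∑ b, ∑ i, c i * M i b (J s) * f (update J s b) =
      ∑ i, ∑ b, c i * (M i b (J s) * f (update J s b)) := by
    intro s
    rw [Finset.sum_comm]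
    refine Finset.sum_congr rfl fun i _ => Finset.sum_congr rfl fun b _ => ?_
    ring
  simp only [h1]
  rw [Finset.sum_comm]

/-- operators over `C` with the properties of the elements of `L` kill the forms killed by `L` -/
theorem Dat.derC (D : Dat C q P L) {Z : Matrix n n C} (h1 : Zᵀ * mp C q + mp C q * Z = 0)
    (h2 : ∀ Y ∈ Cm L, Z * mp C Y = mp C Y * Z)
    {S : Type} [Fintype S] [DecidableEq S] (f : (S → n) → k) (hf : ∀ X ∈ L, der X f = 0) :
    der Z (ck C f) = 0 := by
  obtain ⟨I, i1, c, z, hc, hz⟩ := expandM (k := k) Z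
  have hzL : ∀ i, z i ∈ L := by
    intro i
    refine D.big _ ?_ fun Y hY => ?_
    · refine li_mat hc (M := fun i => (z i)ᵀ * q + q * z i) ?_ i
      rw [← h1, hz, Matrix.transpose_sum, Finset.sum_mul, Finset.mul_sum, ← Finset.sum_add_distrib]
      refine Finset.sum_congr rfl fun i _ => ?_
      rw [mp_add, mp_mul, mp_mul, smul_add, Matrix.transpose_smul, Matrix.smul_mul,
        Matrix.mul_smul]
      rfl
    · rw [← sub_eq_zero]
      refine li_mat hc (M := fun i => z i * Y - Y * z i) ?_ i
      have h3 := h2 Y hY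
      rw [← sub_eq_zero, hz, Finset.sum_mul, Finset.mul_sum, ← Finset.sum_sub_distrib] at h3
      rw [← h3]
      refine Finset.sum_congr rfl fun i _ => ?_
      rw [mp_sub, mp_mul, mp_mul, smul_sub, Matrix.smul_mul, Matrix.mul_smul]
  rw [hz, der_lin]
  refine Finset.sum_eq_zero fun i _ => ?_
  rw [der_ck, hf _ (hzL i)]
  funext J
  simp [ck]

omit [CharZero k] [IsAlgClosed C] [CharZero C] in
theorem expand_cm {Z : Matrix n n C} (h : ∀ X ∈ L, mp C X * Z = Z * mp C X) :
    ∃ (I : Type) (_ : Fintype I) (c : I → C) (z : I → Matrix n n k), (∀ i, z i ∈ Cm L) ∧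
      Z = ∑ i, c i • mp C (z i) := by
  obtain ⟨I, i1, c, z, hc, hz⟩ := expandM (k := k) Z
  refine ⟨I, i1, c, z, fun i X hX => ?_, hz⟩
  rw [← sub_eq_zero]
  refine li_mat hc (M := fun i => X * z i - z i * X) ?_ i
  have h3 := h X hX
  rw [← sub_eq_zero, hz, Finset.sum_mul, Finset.mul_sum, ← Finset.sum_sub_distrib] at h3
  rw [← h3]
  refine Finset.sum_congr rfl fun i _ => ?_
  rw [mp_sub, mp_mul, mp_mul, smul_sub, Matrix.smul_mul, Matrix.mul_smul]

/-- **Forms killed by `L`.** -/
theorem gen (D : Dat C q P L) (𝒜 : Sys k n)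
    (H1 : ∀ m, (fun J : Unit → n => (q * P) (J ()) m) ∈ 𝒜.Alg Unit)
    (H2 : ∀ Y ∈ Cm L, (fun J : Fin 2 → n => (Yᵀ * q) (J 0) (J 1)) ∈ 𝒜.Alg (Fin 2))
    (Hd : ∀ (S : Type) [Fintype S] [DecidableEq S] (x : S → n → C) (c : Matrix n n k → C),
      Nonempty S → IsBlock q P L x c → dform q x ∈ (bcS C 𝒜).Alg S)
    {S : Type} [Fintype S] [DecidableEq S] (f : (S → n) → k) (hf : ∀ X ∈ L, der X f = 0) :
    f ∈ 𝒜.Alg S := by
  classical
  obtain ⟨A⟩ := D.exists_ada
  have hsy : (mp C q)ᵀ = mp C q := by rw [mp_transpose, D.symm]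
  have hs := form_symm hsy
  -- the matrices of the change of coordinates
  let W : Matrix n n C := Matrix.of fun i a => A.e a i
  let Wi : Matrix n n C := Matrix.of fun a i => (mp C q *ᵥ A.e (A.τ a)) i
  have hWi : ∀ a i, Wi a i = form (mp C q) (A.e (A.τ a)) (Pi.single i 1) := by
    intro a i
    rw [hs, form_apply, single_one_dotProduct]
    rfl
  have hWiW : Wi * W = 1 := by
    ext a c
    rw [Matrix.mul_apply]
    have h1 : ∑ i, Wi a i * W i c = form (mp C q) (A.e (A.τ a)) (A.e c) := by
      rw [hs, form_apply, dotProduct]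
      exact Finset.sum_congr rfl fun i _ => mul_comm _ _
    rw [h1, A.gram, A.inv, Matrix.one_apply]
    exact ite_iff eq_comm
  have hWWi : W * Wi = 1 := mul_eq_one_comm.1 hWiW
  have hcoord : ∀ v : n → C, v = ∑ a, form (mp C q) (A.e (A.τ a)) v • A.e a := by
    intro v
    have h1 : v = (W * Wi) *ᵥ v := by rw [hWWi, Matrix.one_mulVec]
    conv_lhs => rw [h1, ← Matrix.mulVec_mulVec]
    funext i
    rw [Finset.sum_apply, Matrix.mulVec, dotProduct]
    refine Finset.sum_congr rfl fun a _ => ?_
    rw [Pi.smul_apply, smul_eq_mul, mul_comm]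
    congr 1
    rw [hs, form_apply, Matrix.mulVec, dotProduct, dotProduct]
    exact Finset.sum_congr rfl fun j _ => mul_comm _ _
  let i₀ : Option (Cm L) → C := fun j => if j = none then 1 else 0
  have Pe : ∀ a, mp C P *ᵥ A.e a = A.κ a none • A.e a := fun a => A.eig a none
  have Ye : ∀ a (Y : Cm L), mp C (Y.1 * (1 - P)) *ᵥ A.e a = A.κ a (some Y) • A.e a :=
    fun a Y => A.eig a (some Y)
  have hPC : mp C P * mp C P = mp C P := by rw [← mp_mul, D.proj]
  have E1 : ∀ a, A.κ a none = 0 ∨ A.κ a none = 1 := by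
    intro a
    have h1 : mp C P *ᵥ (mp C P *ᵥ A.e a) = mp C P *ᵥ A.e a := by
      rw [Matrix.mulVec_mulVec, hPC]
    rw [Pe, Matrix.mulVec_smul, Pe, smul_smul] at h1
    have h2 := smul_left_injective C (A.ne a) h1
    have h3 : A.κ a none * (A.κ a none - 1) = 0 := by
      rw [mul_sub, mul_one]
      exact sub_eq_zero.2 h2
    rcases mul_eq_zero.1 h3 with h | h
    · exact Or.inl h
    · exact Or.inr (sub_eq_zero.1 h)
  have E2 : ∀ a, A.κ a none = 1 → A.κ a = i₀ := by
    intro a ha
    funext j
    rcases j with _ | Y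
    · rw [ha]
      rfl
    · have h1 := Ye a Y
      rw [mp_mul, mp_sub, mp_one, ← Matrix.mulVec_mulVec, Matrix.sub_mulVec, Matrix.one_mulVec, Pe,
        ha, one_smul, sub_self, Matrix.mulVec_zero] at h1
      have h2 := (smul_eq_zero.1 h1.symm).resolve_right (A.ne a)
      rw [h2]
      rfl
  have E3 : ∀ a, A.κ a ≠ i₀ → A.κ a none = 0 := fun a ha => (E1 a).resolve_right fun h => ha (E2 a h)
  have E4 : ∀ a, A.κ a ≠ i₀ → mp C P *ᵥ A.e a = 0 := by
    intro a ha
    rw [Pe, E3 a ha, zero_smul]
  have E5 : ∀ a, A.κ a ≠ i₀ → ∀ Y : Cm L, mp C Y.1 *ᵥ A.e a = A.κ a (some Y) • A.e a := by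
    intro a ha Y
    rw [← Ye, mp_mul, mp_sub, mp_one, ← Matrix.mulVec_mulVec, Matrix.sub_mulVec, Matrix.one_mulVec,
      E4 a ha, sub_zero]
  have hst : ∀ j (x y : n → C), form (mp C q) (famC C P L j x) y =
      form (mp C q) x (famC C P L (D.st j) y) := by
    intro j x y
    rw [famC, famC, toLin'_apply, toLin'_apply]
    exact form_adj (D.fam_adj j) x y
  have hdual : ∀ a j, A.κ (A.τ a) j = A.κ a (D.st j) := fun a j => A.dual hs hst a j
  have hi₀ : ∀ j, i₀ (D.st j) = i₀ j := by
    rintro (_ | Y) <;> rfl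
  have E6 : ∀ a, A.κ a = i₀ → A.κ (A.τ a) = i₀ := by
    intro a ha
    funext j
    rw [hdual, ha, hi₀]
  have E7 : ∀ a, A.κ a ≠ i₀ → A.κ (A.τ a) ≠ i₀ := by
    intro a ha h
    apply ha
    rw [← A.inv a]
    exact E6 _ h
  have hκτ : ∀ a c, A.κ a = A.κ c → A.κ (A.τ a) = A.κ (A.τ c) := by
    intro a c h
    funext j
    rw [hdual, hdual, h]
  -- the operators
  have hop : ∀ a c, A.κ a = A.κ c → A.κ a ≠ i₀ → der (op C A.τ a c) (chg W (ck C f)) = 0 := by
    intro a c hac ha
    set Z : Matrix n n C := vecMulVec (A.e a) (mp C q *ᵥ A.e (A.τ c)) -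
      vecMulVec (A.e (A.τ c)) (mp C q *ᵥ A.e a) with hZ
    have hvq : ∀ v : n → C, v ᵥ* mp C q = mp C q *ᵥ v := by
      intro v
      rw [← Matrix.mulVec_transpose, hsy]
    have h1 : Zᵀ * mp C q + mp C q * Z = 0 := by
      rw [hZ, Matrix.transpose_sub, Matrix.transpose_vecMulVec, Matrix.transpose_vecMulVec,
        Matrix.sub_mul, Matrix.mul_sub, Matrix.vecMulVec_mul, Matrix.vecMulVec_mul,
        Matrix.mul_vecMulVec, Matrix.mul_vecMulVec, hvq, hvq]
      abel
    have h2 : ∀ Y ∈ Cm L, Z * mp C Y = mp C Y * Z := by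
      intro Y hY
      have e1 : ∀ v : n → C, (mp C q *ᵥ v) ᵥ* mp C Y =
          mp C q *ᵥ (mp C (q⁻¹ * Yᵀ * q) *ᵥ v) := by
        intro v
        rw [← Matrix.mulVec_transpose, Matrix.mulVec_mulVec, Matrix.mulVec_mulVec, mp_transpose,
          ← mp_mul, ← mp_mul]
        congr 2
        rw [← Matrix.mul_assoc, ← Matrix.mul_assoc, D.qinv.1, Matrix.one_mul]
      have e2 := E5 a ha ⟨Y, hY⟩
      have e3 := E5 (A.τ c) (E7 c (hac ▸ ha)) ⟨Y, hY⟩
      have e4 := E5 a ha ⟨_, D.adj_mem hY⟩
      have e5 := E5 (A.τ c) (E7 c (hac ▸ ha)) ⟨_, D.adj_mem hY⟩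
      have e6 : A.κ (A.τ c) (some ⟨_, D.adj_mem hY⟩) = A.κ a (some ⟨Y, hY⟩) := by
        have := hdual (A.τ c) (some ⟨Y, hY⟩)
        rw [A.inv] at this
        rw [hac]
        exact this.symm
      have e7 : A.κ a (some ⟨_, D.adj_mem hY⟩) = A.κ (A.τ c) (some ⟨Y, hY⟩) := by
        rw [hac]
        exact (hdual c (some ⟨Y, hY⟩)).symm
      simp only at e2 e3 e4 e5
      rw [hZ, Matrix.sub_mul, Matrix.mul_sub, Matrix.vecMulVec_mul, Matrix.vecMulVec_mul,
        Matrix.mul_vecMulVec, Matrix.mul_vecMulVec, e1, e1, e2, e3, e4, e5, e6, e7]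
      simp only [Matrix.mulVec_smul, Matrix.vecMulVec_smul, Matrix.smul_vecMulVec]
    have h3 := D.derC h1 h2 f hf
    have h4 : W * op C A.τ a c = Z * W := by
      ext i d
      have e1 : (Z * W) i d = (Z *ᵥ A.e d) i := by
        rw [Matrix.mul_apply, Matrix.mulVec, dotProduct]
        rfl
      rw [e1, hZ, Matrix.sub_mulVec, Matrix.vecMulVec_mulVec, Matrix.vecMulVec_mulVec]
      have e2 : ∀ x : n → C, (mp C q *ᵥ x) ⬝ᵥ A.e d = form (mp C q) x (A.e d) := by
        intro x
        rw [hs, form_apply, dotProduct_comm]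
      rw [e2, e2, A.gram, A.gram, A.inv, op, Matrix.mul_sub, Matrix.sub_apply, Matrix.mul_apply,
        Matrix.mul_apply]
      have e3 : ∀ x y : n, ∑ j, W i j * (Matrix.single x y (1 : C)) j d =
          (if d = y then W i x else 0) := by
        intro x y
        rw [Finset.sum_eq_single x]
        · rw [Matrix.single_apply]
          by_cases h : d = y
          · rw [if_pos ⟨rfl, h.symm⟩, if_pos h, mul_one]
          · rw [if_neg (fun h' => h h'.2.symm), if_neg h, mul_zero]
        · intro j _ hj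
          rw [Matrix.single_apply, if_neg (fun h' => hj h'.1.symm), mul_zero]
        · intro h
          exact absurd (Finset.mem_univ _) h
      rw [e3, e3]
      simp only [Pi.sub_apply, Pi.smul_apply, MulOpposite.smul_eq_mul_unop, MulOpposite.unop_op]
      change ((if d = c then A.e a i else 0) - if d = A.τ a then A.e (A.τ c) i else 0) = _
      congr 1
      · by_cases h : d = c
        · rw [if_pos h, if_pos h, mul_one]
        · rw [if_neg h, if_neg h, mul_zero]
      · by_cases h : d = A.τ a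
        · rw [if_pos h, if_pos h, mul_one]
        · rw [if_neg h, if_neg h, mul_zero]
    have h5 := chg_der W (op C A.τ a c) Z h4 (ck C f)
    rw [← h5, h3, chg_zero]
  -- simultaneous eigenvectors
  have hsupp : ∀ (v : n → C) (χ : Option (Cm L) → C), (∀ j, famC C P L j v = χ j • v) →
      ∀ c, form (mp C q) (A.e (A.τ c)) v ≠ 0 → A.κ c = χ := by
    intro v χ hv c hc
    funext j
    have h1 := hst (D.st j) (A.e (A.τ c)) v
    have h2 : form (mp C q) (A.e (A.τ c)) (famC C P L j v) =
        form (mp C q) (famC C P L (D.st j) (A.e (A.τ c))) v := by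
      rw [hs, hst, hs]
    rw [hv, A.eig, map_smul, map_smul, LinearMap.smul_apply, ← hdual, A.inv, smul_eq_mul,
      smul_eq_mul] at h2
    exact (mul_right_cancel₀ hc h2).symm
  -- reduction to the system in the new coordinates
  have hfin : chg W (ck C f) ∈ (chS (bcS C 𝒜) Wi).Alg S := by
    refine mixed (chS (bcS C 𝒜) Wi) A.κ A.τ i₀ A.inv hκτ A.self E6 ?_ ?_ ?_ _ hop
    · intro a ha
      rw [mem_chS]
      have hτa : A.τ a = a := A.self a ((E6 a ha).trans ha.symm)
      have h1 : chg Wi (fun J : Unit → n => if J () = a then (1 : C) else 0) =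
          ∑ m, A.e a m • ck C (fun J : Unit → n => (q * P) (J ()) m) := by
        funext J
        have e1 : chg Wi (fun J : Unit → n => if J () = a then (1 : C) else 0) J =
            Wi a (J ()) := by
          rw [chg, Finset.sum_eq_single (fun _ => a)]
          · simp
          · intro J' _ hJ'
            rw [if_neg, smul_zero]
            intro h
            exact hJ' (funext fun _ => h)
          · intro h
            exact absurd (Finset.mem_univ _) h
        rw [e1]
        change (mp C q *ᵥ A.e (A.τ a)) (J ()) = _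
        have e2 : mp C P *ᵥ A.e a = A.e a := by
          rw [Pe, ha]
          exact one_smul _ _
        rw [hτa, ← e2, Matrix.mulVec_mulVec, ← mp_mul, Matrix.mulVec, dotProduct,
          Finset.sum_apply]
        refine Finset.sum_congr rfl fun m _ => ?_
        rw [Pi.smul_apply, smul_eq_mul, mul_comm, e2]
        rfl
      rw [h1]
      exact Submodule.sum_mem _ fun m _ => Submodule.smul_mem _ _ (mem_bcS (H1 m))
    · intro i hi
      rw [mem_chS]
      let Δ : Matrix n n C := Matrix.diagonal fun a => if A.κ a = i then 1 else 0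
      have hPv1 : ∀ (v : n → C) (χ : Option (Cm L) → C), (∀ j, famC C P L j v = χ j • v) →
          (W * Δ * Wi) *ᵥ v = (if χ = i then (1 : C) else 0) • v := by
        intro v χ hv
        have e1 : (W * Δ * Wi) *ᵥ v =
            ∑ a, (if A.κ a = i then (1 : C) else 0) • form (mp C q) (A.e (A.τ a)) v • A.e a := by
          rw [← Matrix.mulVec_mulVec, ← Matrix.mulVec_mulVec]
          funext x
          rw [Finset.sum_apply, Matrix.mulVec, dotProduct]
          refine Finset.sum_congr rfl fun a _ => ?_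
          rw [Matrix.mulVec_diagonal, Pi.smul_apply, Pi.smul_apply, smul_eq_mul, smul_eq_mul,
            mul_comm (W x a), mul_assoc]
          congr 2
          rw [hs, form_apply, Matrix.mulVec, dotProduct, dotProduct]
          exact Finset.sum_congr rfl fun j _ => mul_comm _ _
        rw [e1]
        conv_rhs => rw [hcoord v]
        rw [Finset.smul_sum]
        refine Finset.sum_congr rfl fun a _ => ?_
        by_cases h : form (mp C q) (A.e (A.τ a)) v = 0
        · rw [h, zero_smul, smul_zero, smul_zero]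
        · rw [hsupp v χ hv a h]
      have hPi : ∀ X ∈ L, mp C X * (W * Δ * Wi) = (W * Δ * Wi) * mp C X := by
        intro X hX
        have e0 : ∀ j, mp C X * mp C (fam P L j) = mp C (fam P L j) * mp C X := by
          intro j
          rw [← mp_mul, ← mp_mul]
          congr 1
          rcases j with _ | Y
          · exact D.P_mem X hX
          · change X * (Y.1 * (1 - P)) = Y.1 * (1 - P) * X
            rw [← Matrix.mul_assoc, Y.2 X hX, Matrix.mul_assoc, Matrix.mul_assoc, Matrix.mul_sub,
              Matrix.sub_mul, D.P_mem X hX, Matrix.mul_one, Matrix.one_mul]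
        have e1 : mp C X * (W * Δ * Wi) * W = (W * Δ * Wi) * mp C X * W := by
          ext x a
          have e2 : ∀ M : Matrix n n C, (M * W) x a = (M *ᵥ A.e a) x := by
            intro M
            rw [Matrix.mul_apply, Matrix.mulVec, dotProduct]
            rfl
          have e4 : (mp C X * (W * Δ * Wi)) *ᵥ A.e a = mp C X *ᵥ ((W * Δ * Wi) *ᵥ A.e a) :=
            (Matrix.mulVec_mulVec _ _ _).symm
          have e5 : ((W * Δ * Wi) * mp C X) *ᵥ A.e a = (W * Δ * Wi) *ᵥ (mp C X *ᵥ A.e a) :=
            (Matrix.mulVec_mulVec _ _ _).symm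
          rw [e2, e2, e4, e5, hPv1 _ _ (A.eig a),
            hPv1 (mp C X *ᵥ A.e a) (A.κ a), Matrix.mulVec_smul]
          intro j
          rw [famC, toLin'_apply, Matrix.mulVec_mulVec, ← e0, ← Matrix.mulVec_mulVec,
            ← Matrix.mulVec_smul]
          congr 1
          exact A.eig a j
        have e3 := congrArg (fun M => M * Wi) e1
        simpa only [Matrix.mul_assoc, hWWi, Matrix.mul_one] using e3
      obtain ⟨I, i1, c, z, hz, hzPi⟩ := expand_cm hPi
      have h1 : chg Wi (prf C A.κ A.τ i) =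
          ∑ m, c m • ck C (fun J : Fin 2 → n => ((z m)ᵀ * q) (J 0) (J 1)) := by
        funext J
        have e1 : chg Wi (prf C A.κ A.τ i) J =
            ∑ a, (if A.κ a = i then (1 : C) else 0) * Wi a (J 0) * Wi (A.τ a) (J 1) := by
          rw [chg]
          let E : n × n ≃ (Fin 2 → n) := (finTwoArrowEquiv n).symm
          rw [← Equiv.sum_comp E, Fintype.sum_prod_type]
          refine Finset.sum_congr rfl fun a _ => ?_
          rw [Finset.sum_eq_single (A.τ a)]
          · rw [Fin.prod_univ_two]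
            change (Wi a (J 0) * Wi (A.τ a) (J 1)) • (if A.κ a = i ∧ A.τ a = A.τ a then (1 : C) else 0)
              = _
            rw [smul_eq_mul, mul_comm, mul_assoc]
            congr 1
            exact ite_iff ⟨fun h => h.1, fun h => ⟨h, rfl⟩⟩
          · intro b _ hb
            change _ • (if A.κ a = i ∧ b = A.τ a then (1 : C) else 0) = 0
            rw [if_neg (fun h => hb h.2), smul_zero]
          · intro h
            exact absurd (Finset.mem_univ _) h
        have e2 : ((W * Δ * Wi)ᵀ * mp C q) (J 0) (J 1) =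
            ∑ a, (if A.κ a = i then (1 : C) else 0) * Wi a (J 0) * Wi (A.τ a) (J 1) := by
          have e3 : Wᵀ * mp C q = Matrix.of fun a y => Wi (A.τ a) y := by
            ext a y
            rw [Matrix.of_apply]
            change _ = (mp C q *ᵥ A.e (A.τ (A.τ a))) y
            rw [A.inv, Matrix.mul_apply, Matrix.mulVec, dotProduct]
            refine Finset.sum_congr rfl fun z _ => ?_
            rw [mul_comm]
            congr 1
            exact (congrFun (congrFun hsy z) y).symm
          rw [Matrix.transpose_mul, Matrix.transpose_mul, Matrix.diagonal_transpose,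
            Matrix.mul_assoc, Matrix.mul_assoc, e3, Matrix.mul_apply]
          refine Finset.sum_congr rfl fun a _ => ?_
          rw [Matrix.diagonal_mul, Matrix.transpose_apply, Matrix.of_apply]
          ring
        rw [e1, ← e2, hzPi, Matrix.transpose_sum, Finset.sum_mul, Matrix.sum_apply, Finset.sum_apply]
        refine Finset.sum_congr rfl fun m _ => ?_
        rw [Matrix.transpose_smul, Matrix.smul_mul, mp_transpose, ← mp_mul]
        rfl
      rw [h1]
      exact Submodule.sum_mem _ fun m _ => Submodule.smul_mem _ _ (mem_bcS (H2 _ (hz m)))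
    · intro i hi hself hex
      rw [mem_chS]
      obtain ⟨a₀, ha₀⟩ := hex
      have hτs : ∀ b, A.κ b = i → A.τ b = b := fun b hb => A.self b ((hself b hb).trans hb.symm)
      have hin : i none = 0 := by
        rw [← ha₀]
        exact E3 a₀ (ha₀ ▸ hi)
      let c : Matrix n n k → C := fun Y => if hY : Y ∈ Cm L then i (some ⟨Y, hY⟩) else 0
      have hc : ∀ Y (hY : Y ∈ Cm L), c Y = i (some ⟨Y, hY⟩) := fun Y hY => dif_pos hY
      have hblk : IsBlock q P L (fun b : {b : n // A.κ b = i} => A.e b.1) c := by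
        refine ⟨fun s t => ?_, fun s => ?_, fun Y hY s => ?_, fun v hPv hv => ?_⟩
        · rw [A.gram, hτs s.1 s.2]
          exact ite_iff ⟨fun h => Subtype.ext h.symm, fun h => (congrArg Subtype.val h).symm⟩
        · exact E4 s.1 fun h => hi (s.2.symm.trans h)
        · rw [hc Y hY, E5 s.1 (fun h => hi (s.2.symm.trans h)) ⟨Y, hY⟩, s.2]
        · have hv' : ∀ j, famC C P L j v = i j • v := by
            rintro (_ | Y)
            · change mp C P *ᵥ v = _
              rw [hPv, hin, zero_smul]
            · change mp C (Y.1 * (1 - P)) *ᵥ v = _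
              rw [mp_mul, mp_sub, mp_one, ← Matrix.mulVec_mulVec, Matrix.sub_mulVec,
                Matrix.one_mulVec, hPv, sub_zero, hv Y.1 Y.2, hc Y.1 Y.2]
          conv_lhs => rw [hcoord v]
          rw [← Fintype.sum_subtype_add_sum_subtype (fun b => A.κ b = i)]
          have e1 : ∑ b : {b // ¬ A.κ b = i}, form (mp C q) (A.e (A.τ b.1)) v • A.e b.1 = 0 := by
            refine Finset.sum_eq_zero fun b _ => ?_
            by_cases h : form (mp C q) (A.e (A.τ b.1)) v = 0
            · rw [h, zero_smul]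
            · exact absurd (hsupp v i hv' b.1 h) b.2
          rw [e1, add_zero]
          refine Finset.sum_congr rfl fun b _ => ?_
          rw [hτs b.1 b.2]
      have h1 := Hd {b : n // A.κ b = i} (fun b => A.e b.1) c ⟨⟨a₀, ha₀⟩⟩ hblk
      have h2 : chg Wi (detf A.κ i) = dform q (fun b : {b : n // A.κ b = i} => A.e b.1) := by
        funext J
        rw [chg, dform]
        have e1 : (Matrix.of fun s t : {b : n // A.κ b = i} => (mp C q *ᵥ A.e t.1) (J s)) =
            Matrix.of fun s => ∑ a : n, Wi a (J s) •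
              (fun t : {b : n // A.κ b = i} => if a = t.1 then (1 : C) else 0) := by
          ext s t
          rw [Matrix.of_apply, Matrix.of_apply, Finset.sum_apply, Finset.sum_eq_single t.1]
          · rw [Pi.smul_apply, if_pos rfl, smul_eq_mul, mul_one]
            change _ = (mp C q *ᵥ A.e (A.τ t.1)) (J s)
            rw [hτs t.1 t.2]
          · intro b _ hb
            rw [Pi.smul_apply, if_neg hb, smul_zero]
          · intro h
            exact absurd (Finset.mem_univ _) h
        rw [e1]
        change _ = (Matrix.detRowAlternating (R := C)).toMultilinearMap _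
        have e2 := (Matrix.detRowAlternating (n := {b : n // A.κ b = i}) (R := C)).toMultilinearMap.map_sum
          (fun (s : {b : n // A.κ b = i}) (a : n) => Wi a (J s) •
              (fun t : {b : n // A.κ b = i} => if a = t.1 then (1 : C) else 0))
        refine Eq.trans ?_ e2.symm
        refine Finset.sum_congr rfl fun J' _ => ?_
        rw [MultilinearMap.map_smul_univ]
        rfl
      rw [h2]
      exact h1
  rw [mem_chS, chg_chg, hWWi, chg_one] at hfin
  exact desc _ f hfin

end

end Pool.Agent.H851.TT
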