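import Pool.Agent.H851.TT.Gal

/-!
# Tate forms of representations of K3 type
-/

set_option autoImplicit false
set_option linter.unusedSectionVars false

namespace Pool.Agent.H851.TT

open Matrix Finset Function Module
open NumberField IsDedekindDomain Polynomial
open Pool.Agent.N429.KS
open Pool.Agent.H851.K3
open Pool.Agent.H851.KT
open Pool.Agent.Y114.RM
open Pool.Agent.NH56.HY (GK tw tw_apply chi_ne)
open Pool.Agent.H204R3.GP (FiniteIndexSemisimple)
open LinearMap (toMatrix' toMatrix'_mul toMatrix'_one toMatrix'_toLin')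

section

variable {K : Type} [Field K] [NumberField K] {ℓ : ℕ} [hℓ : Fact ℓ.Prime] {n : Type}
    [Fintype n] [DecidableEq n] {q : Matrix n n ℚ_[ℓ]} {S : Finset ℕ} {χ : GK K →* ℚ_[ℓ]}
    {Pol : HeightOneSpectrum (𝓞 K) → ℤ[X]} {ρ : GK K →* Matrix n n ℚ_[ℓ]}

omit [NumberField K] in
theorem tw_comm {g : GK K} {Y : Matrix n n ℚ_[ℓ]} :
    Y * tw χ ρ g = tw χ ρ g * Y ↔ Y * ρ g = ρ g * Y := by
  rw [tw_apply, Matrix.mul_smul, Matrix.smul_mul]
  exact ⟨fun h => smul_right_injective _ (inv_ne_zero (chi_ne χ g)) h, fun h => by rw [h]⟩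

theorem cm_iff (h : IsK3Type q S χ Pol ρ) (hss : Semisimple ρ) (Y : Matrix n n ℚ_[ℓ]) :
    Y ∈ Cm (tateLie χ ρ : Set (Matrix n n ℚ_[ℓ])) ↔ IsTateEnd ρ Y := by
  constructor
  · intro hY
    obtain ⟨L, hLT, hbig, hc⟩ := lie_main h hss
    have h1 := hc (toLin' Y) (fun X hX => by
      have h2 : toMatrix' X ∈ tateLie χ ρ := by
        have h3 := ((hLT X).1 hX).2
        intro m φ hφ
        rw [toLin'_toMatrix']
        exact h3 m φ hφ
      have h3 := congrArg toLin' (hY _ h2)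
      rw [toLin'_mul, toLin'_mul, toLin'_toMatrix'] at h3
      exact h3)
    rwa [toMatrix'_toLin'] at h1
  · intro hY X hX
    exact tateLie_comm hX hY

theorem tate_compl (h : IsK3Type q S χ Pol ρ) (hss : Semisimple ρ) :
    IsCompl (tate χ ρ) (orth q (tate χ ρ)) := by
  rw [orth_eq]
  refine (LinearMap.BilinForm.isCompl_orthogonal_iff_disjoint (refl h.symm)).2
    (disjoint_iff.2 ?_)
  rw [eq_bot_iff]
  rintro x ⟨hx, hx'⟩
  rw [Submodule.mem_bot]
  by_contra hne
  obtain ⟨y, hy, hxy⟩ := tate_nondeg h hss hx hne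
  apply hxy
  rw [form_symm h.symm]
  have h1 := (LinearMap.BilinForm.mem_orthogonal_iff.1 hx') y hy
  rwa [Matrix.toBilin'_apply', ← form_apply] at h1

/-- the projection to the Tate classes -/
theorem exists_P (h : IsK3Type q S χ Pol ρ) (hss : Semisimple ρ) : ∃ P : Matrix n n ℚ_[ℓ],
    (∀ x ∈ tate χ ρ, P *ᵥ x = x) ∧ (∀ x ∈ orth q (tate χ ρ), P *ᵥ x = 0) ∧
      (∀ x, P *ᵥ x ∈ tate χ ρ) ∧ ∀ x, x - P *ᵥ x ∈ orth q (tate χ ρ) := by
  have hc := tate_compl h hss
  let f : (n → ℚ_[ℓ]) →ₗ[ℚ_[ℓ]] (n → ℚ_[ℓ]) :=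
    (tate χ ρ).subtype ∘ₗ Submodule.projectionOnto _ _ hc
  have hf : ∀ x, toMatrix' f *ᵥ x = f x := fun x => by
    rw [← toLin'_apply, toLin'_toMatrix']
  have h1 : ∀ x ∈ tate χ ρ, f x = x := by
    intro x hx
    exact congrArg Subtype.val (Submodule.projectionOnto_apply_left hc ⟨x, hx⟩)
  have h2 : ∀ x ∈ orth q (tate χ ρ), f x = 0 := by
    intro x hx
    exact congrArg Subtype.val (Submodule.projectionOnto_apply_right hc ⟨x, hx⟩)
  refine ⟨toMatrix' f, fun x hx => by rw [hf, h1 x hx], fun x hx => by rw [hf, h2 x hx],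
    fun x => by rw [hf]; exact (Submodule.projectionOnto _ _ hc x).2, fun x => ?_⟩
  have hx : x ∈ tate χ ρ ⊔ orth q (tate χ ρ) := by rw [hc.sup_eq_top]; trivial
  obtain ⟨a, ha, b, hb, rfl⟩ := Submodule.mem_sup.1 hx
  rw [hf, map_add, h1 a ha, h2 b hb, add_zero, add_sub_cancel_left]
  exact hb

/-- `der` and the action on tensors -/
theorem der_of_inv {T : Type} [Fintype T] [DecidableEq T] (f : (T → n) → ℚ_[ℓ])
    (hf : InvForm (tw χ ρ) f) {X : Matrix n n ℚ_[ℓ]} (hX : X ∈ tateLie χ ρ) : der X f = 0 := by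
  obtain ⟨U, hU, hUf⟩ := hf
  let e : Fin (Fintype.card T) ≃ T := (Fintype.equivFin T).symm
  let φ : Tensor ℚ_[ℓ] (n → ℚ_[ℓ]) (Fintype.card T) := ∑ J : T → n, f J •
    (MultilinearMap.mkPiAlgebra ℚ_[ℓ] (Fin (Fintype.card T)) ℚ_[ℓ]).compLinearMap
      (fun l => LinearMap.proj (J (e l)) ∘ₗ LinearMap.fst ℚ_[ℓ] (n → ℚ_[ℓ])
        (Dual ℚ_[ℓ] (n → ℚ_[ℓ])))
  have hφ : ∀ v, φ v = ∑ J : T → n, f J * ∏ l, (v l).1 (J (e l)) := by
    intro v
    simp only [φ, _root_.sum_apply, _root_.smul_apply, smul_eq_mul,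
      MultilinearMap.compLinearMap_apply, MultilinearMap.mkPiAlgebra_apply]
    rfl
  have hprod : ∀ (w : Fin (Fintype.card T) → (n → ℚ_[ℓ])) (J : T → n),
      ∏ l, w l (J (e l)) = ∏ s, w (e.symm s) (J s) := by
    intro w J
    rw [← Equiv.prod_comp e]
    simp
  have hTate : TateTensor (rep χ ρ) φ := by
    refine ⟨U, finiteIndex_of_open hU, fun g hg v => ?_⟩
    rw [hφ, hφ]
    have h1 : ∀ l, (grp (rep χ ρ g) (rep χ ρ g⁻¹) (v l)).1 = tw χ ρ g *ᵥ (v l).1 := by
      intro l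
      exact rep_apply χ ρ g _
    simp only [h1]
    have h2 : ∀ J : T → n, f J * ∏ l, (tw χ ρ g *ᵥ (v l).1) (J (e l)) =
        ∑ J' : T → n, (f J * ∏ s, tw χ ρ g (J s) (J' s)) * ∏ l, (v l).1 (J' (e l)) := by
      intro J
      rw [hprod (fun l => tw χ ρ g *ᵥ (v l).1)]
      simp only [Matrix.mulVec, dotProduct]
      rw [Finset.prod_univ_sum, Fintype.piFinset_univ, Finset.mul_sum]
      refine Finset.sum_congr rfl fun J' _ => ?_
      rw [Finset.prod_mul_distrib, hprod (fun l => (v l).1), mul_assoc]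
    simp only [h2]
    rw [Finset.sum_comm]
    refine Finset.sum_congr rfl fun J' _ => ?_
    rw [← Finset.sum_mul]
    congr 1
    have h3 := congrFun (hUf g hg) J'
    rw [chg] at h3
    rw [← h3]
    refine Finset.sum_congr rfl fun J _ => ?_
    rw [smul_eq_mul, mul_comm]
  have h1 := hX _ φ hTate
  funext J₀
  have h2 := h1 (fun l => (Pi.single (J₀ (e l)) 1, 0))
  have h3 : ∀ w : T → (n → ℚ_[ℓ]), φ (fun l => (w (e l), 0)) = ∑ J : T → n, f J * ∏ s, w s (J s) := by
    intro w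
    rw [hφ]
    refine Finset.sum_congr rfl fun J _ => ?_
    rw [hprod (fun l => w (e l))]
    simp
  rw [Pi.zero_apply, ← h2, der, ← Equiv.sum_comp e]
  refine Finset.sum_congr rfl fun l _ => ?_
  have h4 : Function.update (fun l => ((Pi.single (J₀ (e l)) (1 : ℚ_[ℓ]) : n → ℚ_[ℓ]),
      (0 : Dual ℚ_[ℓ] (n → ℚ_[ℓ])))) l
      (lie (toLin' X) ((Pi.single (J₀ (e l)) (1 : ℚ_[ℓ]) : n → ℚ_[ℓ]),
        (0 : Dual ℚ_[ℓ] (n → ℚ_[ℓ])))) =
      fun l' => ((update (fun s => (Pi.single (J₀ s) (1 : ℚ_[ℓ]) : n → ℚ_[ℓ])) (e l)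
        (X *ᵥ Pi.single (J₀ (e l)) 1)) (e l'), 0) := by
    funext l'
    by_cases hl : l' = l
    · subst hl
      rw [update_self, update_self]
      refine Prod.ext ?_ ?_
      · exact toLin'_apply X _
      · simp [lie]
    · rw [update_of_ne hl, update_of_ne (fun h => hl (e.injective h))]
  rw [h4, h3]
  set t := e l with ht
  have h5 : ∀ J : T → n, ∏ s, (update (fun s => (Pi.single (J₀ s) (1 : ℚ_[ℓ]) : n → ℚ_[ℓ])) t
      (X *ᵥ Pi.single (J₀ t) 1)) s (J s) = ∑ b, if J = update J₀ t b then X b (J₀ t) else 0 := by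
    intro J
    by_cases hJ : ∃ b, J = update J₀ t b
    · obtain ⟨b, rfl⟩ := hJ
      rw [Finset.sum_eq_single b]
      · rw [if_pos rfl, ← Finset.mul_prod_erase _ _ (Finset.mem_univ t), update_self, update_self,
          Finset.prod_eq_one, mul_one, Matrix.mulVec_single_one]
        · rfl
        · intro s hs
          rw [update_of_ne (Finset.ne_of_mem_erase hs), update_of_ne (Finset.ne_of_mem_erase hs),
            Pi.single_eq_same]
      · intro c _ hc
        rw [if_neg]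
        intro h6
        have := congrFun h6 t
        rw [update_self, update_self] at this
        exact hc this.symm
      · intro h6
        exact absurd (Finset.mem_univ _) h6
    · rw [Finset.sum_eq_zero]
      · have h6 : ∃ s, s ≠ t ∧ J s ≠ J₀ s := by
          by_contra hcon
          push Not at hcon
          apply hJ
          refine ⟨J t, funext fun s => ?_⟩
          by_cases hs : s = t
          · rw [hs, update_self]
          · rw [update_of_ne hs, hcon s hs]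
        obtain ⟨s, hs, hsJ⟩ := h6
        refine Finset.prod_eq_zero (Finset.mem_univ s) ?_
        rw [update_of_ne hs, Pi.single_eq_of_ne hsJ]
      · intro b _
        rw [if_neg]
        intro h6
        exact hJ ⟨b, h6⟩
  simp only [h5, Finset.mul_sum, mul_ite, mul_zero]
  rw [Finset.sum_comm]
  refine Finset.sum_congr rfl fun b _ => ?_
  rw [Finset.sum_ite_eq' Finset.univ (update J₀ t b) (fun J => f J * X b (J₀ t)),
    if_pos (Finset.mem_univ _), mul_comm]

end

end Pool.Agent.H851.TT
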