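import Pool.Agent.H851.TT.Spl

/-!
# The first fundamental theorem for products of orthogonal and general linear groups
-/

set_option autoImplicit false
set_option linter.unusedSectionVars false

namespace Pool.Agent.H851.TT

open Matrix Finset Function
open Pool.Agent.N429.KS

section

variable {K : Type} [Field K]

theorem prod1 {B : Type} (𝒮 : Sys K B) (m : ℕ) : ∀ (g : Fin m → (Unit → B) → K),
    (∀ s, g s ∈ 𝒮.Alg Unit) → (fun J : Fin m → B => ∏ s, g s (fun _ => J s)) ∈ 𝒮.Alg (Fin m) := by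
  induction m with
  | zero =>
    intro g _
    have h1 := 𝒮.re (Equiv.equivOfIsEmpty Empty (Fin 0)) 𝒮.one
    convert h1 using 1
    funext J
    rw [Fin.prod_univ_zero]
  | succ m ih =>
    intro g hg
    have h1 := ih (fun s => g s.succ) (fun s => hg _)
    have h2 := 𝒮.mul (hg 0) h1
    let E : Unit ⊕ Fin m ≃ Fin (m + 1) :=
      { toFun := Sum.elim (fun _ => 0) Fin.succ
        invFun := fun p => Fin.cases (motive := fun _ => Unit ⊕ Fin m) (Sum.inl ())
          (fun s => Sum.inr s) p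
        left_inv := by
          rintro (j | s)
          · rfl
          · rfl
        right_inv := by
          intro s
          refine Fin.cases ?_ (fun s => ?_) s
          · rfl
          · rfl }
    have h3 := 𝒮.re E h2
    convert h3 using 1
    funext J
    rw [Fin.prod_univ_succ]
    rfl

/-- all forms are generated by the coordinates -/
theorem triv {B : Type} [Fintype B] [DecidableEq B] (𝒮 : Sys K B)
    (h : ∀ a, (fun J : Unit → B => if J () = a then (1 : K) else 0) ∈ 𝒮.Alg Unit)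
    {S : Type} [Fintype S] [DecidableEq S] (f : (S → B) → K) : f ∈ 𝒮.Alg S := by
  have h1 : f = ∑ J₀ : S → B, f J₀ • fun J : S → B => ∏ s, if J s = J₀ s then (1 : K) else 0 := by
    funext J
    rw [Finset.sum_apply, Finset.sum_eq_single J]
    · simp
    · intro J₀ _ hJ
      obtain ⟨s, hs⟩ := Function.ne_iff.1 hJ
      rw [Pi.smul_apply, Finset.prod_eq_zero (Finset.mem_univ s), smul_zero]
      rw [if_neg (Ne.symm hs)]
    · intro h
      exact absurd (Finset.mem_univ _) h
  rw [h1]
  refine Submodule.sum_mem _ fun J₀ _ => Submodule.smul_mem _ _ ?_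
  have e : Fin (Fintype.card S) ≃ S := (Fintype.equivFin S).symm
  have h2 := 𝒮.re e (prod1 𝒮 (Fintype.card S)
    (fun s => fun J : Unit → B => if J () = J₀ (e s) then (1 : K) else 0) (fun s => h _))
  convert h2 using 1
  funext J
  rw [← Equiv.prod_comp e]
  rfl

/-- derivations and bijections of the index set -/
theorem der_comp {B B' : Type} [Fintype B] [DecidableEq B] [Fintype B'] [DecidableEq B']
    (φ : B' ≃ B) {S : Type} [Fintype S] [DecidableEq S] (X : Matrix B B K) (f : (S → B) → K)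
    (J : S → B') :
    der (X.submatrix φ φ) (fun J : S → B' => f (φ ∘ J)) J = der X f (φ ∘ J) := by
  unfold der
  refine Finset.sum_congr rfl fun s _ => ?_
  rw [← Equiv.sum_comp φ (fun b => X b ((φ ∘ J) s) * f (update (φ ∘ J) s b))]
  refine Finset.sum_congr rfl fun b _ => ?_
  have h1 : (φ ∘ update J s b : S → B) = update (φ ∘ J) s (φ b) := by
    funext t
    by_cases h : t = s
    · subst h
      simp
    · simp [h]
  change X (φ b) (φ (J s)) * f (φ ∘ update J s b) = X (φ b) (φ (J s)) * f (update (φ ∘ J) s (φ b))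
  rw [h1]

theorem sub_single {B B' : Type} [DecidableEq B] [DecidableEq B'] (φ : B' ≃ B) (x y : B') :
    (Matrix.single (φ x) (φ y) (1 : K)).submatrix φ φ = Matrix.single x y 1 := by
  ext i j
  rw [Matrix.submatrix_apply, Matrix.single_apply, Matrix.single_apply]
  simp only [EmbeddingLike.apply_eq_iff_eq]

theorem fb_single₁ {B₁ B₂ : Type} [DecidableEq B₁] [DecidableEq B₂] (a b : B₁) :
    fromBlocks (Matrix.single a b (1 : K)) 0 0 (0 : Matrix B₂ B₂ K) =
      Matrix.single (Sum.inl a) (Sum.inl b) 1 := by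
  ext i j
  rcases i with i | i <;> rcases j with j | j <;> simp [Matrix.single_apply]

theorem fb_single₂ {B₁ B₂ : Type} [DecidableEq B₁] [DecidableEq B₂] (a b : B₂) :
    fromBlocks (0 : Matrix B₁ B₁ K) 0 0 (Matrix.single a b (1 : K)) =
      Matrix.single (Sum.inr a) (Sum.inr b) 1 := by
  ext i j
  rcases i with i | i <;> rcases j with j | j <;> simp [Matrix.single_apply]

theorem fb_sub₁ {B₁ B₂ : Type} (X Y : Matrix B₁ B₁ K) :
    fromBlocks (X - Y) 0 0 (0 : Matrix B₂ B₂ K) = fromBlocks X 0 0 0 - fromBlocks Y 0 0 0 := by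
  ext i j
  rcases i with i | i <;> rcases j with j | j <;> simp

theorem fb_sub₂ {B₁ B₂ : Type} (X Y : Matrix B₂ B₂ K) :
    fromBlocks (0 : Matrix B₁ B₁ K) 0 0 (X - Y) = fromBlocks 0 0 0 X - fromBlocks 0 0 0 Y := by
  ext i j
  rcases i with i | i <;> rcases j with j | j <;> simp

theorem mem_of_comp {B B' : Type} (φ : B' ≃ B) (𝒮 : Sys K B) {S : Type} {f : (S → B) → K}
    (h : (fun J : S → B' => f (φ ∘ J)) ∈ (rst φ φ.injective 𝒮).Alg S) : f ∈ 𝒮.Alg S := by
  rw [mem_rst] at h
  convert h using 1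
  funext J
  have h1 : J = φ ∘ (φ.symm ∘ J) := by
    funext s
    simp
  rw [h1, ex_apply φ.injective]

theorem ex_unique {B B' : Type} {j : B' → B} (hj : Injective j) {S : Type} {f : (S → B') → K}
    {g : (S → B) → K} (h1 : ∀ J', g (j ∘ J') = f J')
    (h2 : ∀ J, (∀ J' : S → B', j ∘ J' ≠ J) → g J = 0) : ex j S f = g := by
  funext J
  by_cases h : ∃ J' : S → B', j ∘ J' = J
  · obtain ⟨J', rfl⟩ := h
    rw [ex_apply hj, h1]
  · have h' : ∀ J' : S → B', j ∘ J' ≠ J := fun J' hJ' => h ⟨J', hJ'⟩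
    rw [ex_zero _ _ h', h2 J h']

theorem ite_iff {p q : Prop} [Decidable p] [Decidable q] (h : p ↔ q) :
    (if p then (1 : K) else 0) = if q then 1 else 0 := by
  by_cases hp : p
  · rw [if_pos hp, if_pos (h.1 hp)]
  · rw [if_neg hp, if_neg fun hq => hp (h.2 hq)]

theorem ex_comp {B B' B'' : Type} {j : B' → B} (hj : Injective j) {i : B'' → B'}
    (hi : Injective i) {S : Type} (f : (S → B'') → K) : ex j S (ex i S f) = ex (j ∘ i) S f := by
  symm
  refine ex_unique (hj.comp hi) (fun J' => ?_) fun J hJ => ?_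
  · rw [show (j ∘ i) ∘ J' = j ∘ (i ∘ J') from rfl, ex_apply hj, ex_apply hi]
  · by_cases h : ∃ J' : S → B', j ∘ J' = J
    · obtain ⟨J', rfl⟩ := h
      rw [ex_apply hj, ex_zero]
      intro J'' hJ''
      apply hJ J''
      rw [← hJ'']
      rfl
    · exact ex_zero _ _ fun J' hJ' => h ⟨J', hJ'⟩

end

section mixed

variable {K : Type} [Field K] [CharZero K] {B : Type} [Fintype B] [DecidableEq B] {ι : Type}
  [DecidableEq ι]

/-- the operator which maps `e_c` to `e_a` and `e_{τ a}` to `- e_{τ c}` -/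
def op (K : Type) [Field K] (τ : B → B) (a c : B) : Matrix B B K :=
  Matrix.single a c 1 - Matrix.single (τ c) (τ a) 1

/-- the pairing of the block `i` with its dual -/
def prf (K : Type) [Field K] (κ : B → ι) (τ : B → B) (i : ι) : (Fin 2 → B) → K :=
  fun J => if κ (J 0) = i ∧ J 1 = τ (J 0) then (1 : K) else 0

/-- **The first fundamental theorem** for a product of special orthogonal groups, general linear groups
and trivial groups. -/
theorem mixed (𝒮 : Sys K B) (κ : B → ι) (τ : B → B) (i₀ : ι) (hτ : ∀ a, τ (τ a) = a)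
    (hκτ : ∀ a b, κ a = κ b → κ (τ a) = κ (τ b)) (hs : ∀ a, κ (τ a) = κ a → τ a = a)
    (h₀ : ∀ a, κ a = i₀ → κ (τ a) = i₀)
    (h1 : ∀ a, κ a = i₀ → (fun J : Unit → B => if J () = a then (1 : K) else 0) ∈ 𝒮.Alg Unit)
    (h2 : ∀ i, i ≠ i₀ → prf K κ τ i ∈ 𝒮.Alg (Fin 2))
    (hd : ∀ i, i ≠ i₀ → (∀ a, κ a = i → κ (τ a) = i) → (∃ a, κ a = i) →
      detf κ i ∈ 𝒮.Alg {b : B // κ b = i})
    {S : Type} [Fintype S] [DecidableEq S] (f : (S → B) → K)
    (hf : ∀ a c, κ a = κ c → κ a ≠ i₀ → der (op K τ a c) f = 0) : f ∈ 𝒮.Alg S := by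
  classical
  let B₀ := {a : B // κ a = i₀}
  let B₁ := {a : B // κ a ≠ i₀ ∧ τ a = a}
  let B₂ := {a : B // τ a ≠ a}
  have h₀' : ∀ a, κ a = i₀ → τ a = a := fun a ha => hs a ((h₀ a ha).trans ha.symm)
  have hinj : Injective (Sum.elim (fun a : B₀ => a.1) (Sum.elim (fun a : B₁ => a.1)
      (fun a : B₂ => a.1))) := by
    rintro (⟨a, ha⟩ | ⟨a, ha⟩ | ⟨a, ha⟩) (⟨b, hb⟩ | ⟨b, hb⟩ | ⟨b, hb⟩) h <;>
      simp only [Sum.elim_inl, Sum.elim_inr] at h <;> subst h
    · rfl
    · exact absurd ha hb.1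
    · exact absurd (h₀' _ ha) hb
    · exact absurd hb ha.1
    · rfl
    · exact absurd ha.2 hb
    · exact absurd (h₀' _ hb) ha
    · exact absurd hb.2 ha
    · rfl
  have hsurj : Surjective (Sum.elim (fun a : B₀ => a.1) (Sum.elim (fun a : B₁ => a.1)
      (fun a : B₂ => a.1))) := by
    intro a
    by_cases ha : κ a = i₀
    · exact ⟨Sum.inl ⟨a, ha⟩, rfl⟩
    · by_cases hb : τ a = a
      · exact ⟨Sum.inr (Sum.inl ⟨a, ha, hb⟩), rfl⟩
      · exact ⟨Sum.inr (Sum.inr ⟨a, hb⟩), rfl⟩
  let φ : B₀ ⊕ (B₁ ⊕ B₂) ≃ B := Equiv.ofBijective _ ⟨hinj, hsurj⟩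
  have φ0 : ∀ a : B₀, φ (Sum.inl a) = a.1 := fun a => rfl
  have φ1 : ∀ a : B₁, φ (Sum.inr (Sum.inl a)) = a.1 := fun a => rfl
  have φ2 : ∀ a : B₂, φ (Sum.inr (Sum.inr a)) = a.1 := fun a => rfl
  have hBt : ∀ a : B₂, κ (τ a.1) ≠ κ a.1 := fun a h => a.2 (hs _ h)
  have hB0 : ∀ a : B₂, κ a.1 ≠ i₀ := fun a h => a.2 (h₀' _ h)
  -- the operators
  let X₁ : B₁ → B₁ → Matrix B₁ B₁ K := fun a b => Matrix.single a b 1 - Matrix.single b a 1
  let τ₂ : B₂ → B₂ := fun a => ⟨τ a.1, by rw [hτ]; exact fun h => a.2 h.symm⟩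
  let X₂ : B₂ → B₂ → Matrix B₂ B₂ K := fun a b => Matrix.single a (τ₂ b) 1 - Matrix.single b (τ₂ a) 1
  have opφ : ∀ a c : B₀ ⊕ (B₁ ⊕ B₂), ∀ a' c', φ a' = τ (φ a) → φ c' = τ (φ c) →
      (op K τ (φ a) (φ c)).submatrix φ φ = Matrix.single a c 1 - Matrix.single c' a' 1 := by
    intro a c a' c' ha hc
    rw [op, ← ha, ← hc, Matrix.submatrix_sub, ← sub_single φ a c, ← sub_single φ c' a']
    rfl
  have hX₁ : ∀ a b : B₁, fromBlocks 0 0 0 (fromBlocks (X₁ a b) 0 0 (0 : Matrix B₂ B₂ K)) =
      (op K τ a.1 b.1).submatrix φ φ := by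
    intro a b
    rw [fb_sub₁, fb_single₁, fb_single₁, fb_sub₂, fb_single₂, fb_single₂, ← φ1 a, ← φ1 b,
      opφ _ _ (Sum.inr (Sum.inl a)) (Sum.inr (Sum.inl b))]
    · rw [φ1, a.2.2]
    · rw [φ1, b.2.2]
  have hX₂ : ∀ a b : B₂, fromBlocks 0 0 0 (fromBlocks (0 : Matrix B₁ B₁ K) 0 0 (X₂ a b)) =
      (op K τ a.1 (τ b.1)).submatrix φ φ := by
    intro a b
    rw [fb_sub₂, fb_single₂, fb_single₂, fb_sub₂, fb_single₂, fb_single₂, ← φ2 a,
      show τ b.1 = φ (Sum.inr (Sum.inr (τ₂ b))) from rfl,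
      opφ _ _ (Sum.inr (Sum.inr (τ₂ a))) (Sum.inr (Sum.inr b))]
    · rfl
    · rw [φ2, φ2]
      change b.1 = τ (τ b.1)
      rw [hτ]
  refine mem_of_comp φ 𝒮 ?_
  set 𝒯 := rst φ φ.injective 𝒮 with h𝒯
  -- membership in the restricted systems
  have mem0 : ∀ (S : Type) (F : (S → B₀) → K), F ∈ (rst Sum.inl inl_inj 𝒯).Alg S ↔
      ex (fun a : B₀ => a.1) S F ∈ 𝒮.Alg S := by
    intro S F
    rw [mem_rst, h𝒯, mem_rst, ex_comp φ.injective inl_inj]
    rfl
  have mem1 : ∀ (S : Type) (F : (S → B₁) → K),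
      F ∈ (rst Sum.inl inl_inj (rst Sum.inr inr_inj 𝒯)).Alg S ↔
      ex (fun a : B₁ => a.1) S F ∈ 𝒮.Alg S := by
    intro S F
    rw [mem_rst, mem_rst, h𝒯, mem_rst, ex_comp inr_inj inl_inj,
      ex_comp φ.injective (inr_inj.comp inl_inj)]
    rfl
  have mem2 : ∀ (S : Type) (F : (S → B₂) → K),
      F ∈ (rst Sum.inr inr_inj (rst Sum.inr inr_inj 𝒯)).Alg S ↔
      ex (fun a : B₂ => a.1) S F ∈ 𝒮.Alg S := by
    intro S F
    rw [mem_rst, mem_rst, h𝒯, mem_rst, ex_comp inr_inj inr_inj,
      ex_comp φ.injective (inr_inj.comp inr_inj)]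
    rfl
  refine split 𝒯 ∅ {X | (∃ a b : B₁, κ a.1 = κ b.1 ∧ X = fromBlocks (X₁ a b) 0 0 0) ∨
    (∃ a b : B₂, κ (τ b.1) = κ a.1 ∧ X = fromBlocks 0 0 0 (X₂ a b))} ?_ ?_ _ ?_ ?_
  · intro S _ _ F _
    refine triv (B := B₀) (rst Sum.inl inl_inj 𝒯) (fun a => ?_) F
    rw [mem0]
    convert h1 a.1 a.2 using 1
    refine ex_unique Subtype.val_injective (fun J' => ?_) fun J hJ => ?_
    · exact ite_iff Subtype.ext_iff.symm
    · rw [if_neg]
      intro h
      apply hJ (fun _ => a)
      funext x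
      exact h.symm
  · intro S _ _ F hF
    refine split (rst Sum.inr inr_inj 𝒯) {X | ∃ a b : B₁, κ a.1 = κ b.1 ∧ X = X₁ a b}
      {X | ∃ a b : B₂, κ (τ b.1) = κ a.1 ∧ X = X₂ a b} ?_ ?_ F ?_ ?_
    · intro S _ _ F hF
      refine fft (rst Sum.inl inl_inj (rst Sum.inr inr_inj 𝒯)) (fun a : B₁ => κ a.1) ?_ ?_ S F ?_
      · intro i
        rw [mem1]
        by_cases hi : ∃ a : B₁, κ a.1 = i
        · obtain ⟨a, ha⟩ := hi
          have hblk : ∀ b, κ b = i → κ b ≠ i₀ ∧ τ b = b := by
            intro b hb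
            refine ⟨by rw [hb, ← ha]; exact a.2.1, hs b ?_⟩
            rw [hκτ b a.1 (hb.trans ha.symm), a.2.2, ha, hb]
          have hi₀ : i ≠ i₀ := ha ▸ a.2.1
          convert h2 i hi₀ using 1
          refine ex_unique Subtype.val_injective (fun J' => ?_) fun J hJ => ?_
          · refine ite_iff ⟨fun h => ⟨?_, h.1⟩, fun h => ⟨h.2, ?_⟩⟩
            · apply Subtype.ext
              have h3 : (J' 1).1 = τ (J' 0).1 := h.2
              exact (h3.trans (hblk _ h.1).2).symm
            · have h3 : (J' 0).1 = (J' 1).1 := congrArg Subtype.val h.1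
              change (J' 1).1 = τ (J' 0).1
              rw [(hblk _ h.2).2, h3]
          · simp only [prf]
            rw [if_neg]
            rintro ⟨h3, h4⟩
            have h5 := hblk _ h3
            apply hJ (fun s => ⟨J 0, h5⟩)
            funext s
            refine Fin.cases rfl (fun s => ?_) s
            rw [Subsingleton.elim s 0]
            change J 0 = J 1
            rw [h4, h5.2]
        · have h0 : (delta (K := K) (fun a : B₁ => κ a.1) i) = 0 := by
            funext J
            simp only [delta]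
            rw [if_neg]
            · rfl
            · rintro ⟨-, h⟩
              exact hi ⟨_, h⟩
          rw [h0, map_zero]
          exact Submodule.zero_mem _
      · intro i
        rw [mem1]
        by_cases hi : ∃ a : B₁, κ a.1 = i
        · obtain ⟨a, ha⟩ := hi
          have hblk : ∀ b, κ b = i → κ b ≠ i₀ ∧ τ b = b := by
            intro b hb
            refine ⟨by rw [hb, ← ha]; exact a.2.1, hs b ?_⟩
            rw [hκτ b a.1 (hb.trans ha.symm), a.2.2, ha, hb]
          have hi₀ : i ≠ i₀ := ha ▸ a.2.1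
          let e : {b : B // κ b = i} ≃ {b : B₁ // κ b.1 = i} :=
            { toFun := fun b => ⟨⟨b.1, hblk b.1 b.2⟩, b.2⟩
              invFun := fun b => ⟨b.1.1, b.2⟩
              left_inv := fun b => rfl
              right_inv := fun b => rfl }
          have h3 := 𝒮.re e (hd i hi₀ (fun b hb => by rw [(hblk b hb).2, hb]) ⟨a.1, ha⟩)
          convert h3 using 1
          refine ex_unique Subtype.val_injective (fun J' => ?_) fun J hJ => ?_
          · simp only [detf]
            rw [← Matrix.det_submatrix_equiv_self e]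
            congr 1
            ext x y
            rw [Matrix.submatrix_apply, Matrix.of_apply, Matrix.of_apply]
            exact ite_iff (Subtype.ext_iff (a1 := J' (e x)) (a2 := (e y).1)).symm
          · have h4 : ∃ s, ¬ (κ (J s) ≠ i₀ ∧ τ (J s) = J s) := by
              by_contra hcon
              push Not at hcon
              exact hJ (fun s => ⟨J s, hcon s⟩) rfl
            obtain ⟨s, hs'⟩ := h4
            simp only [detf]
            refine Matrix.det_eq_zero_of_row_eq_zero (e.symm s) fun y => ?_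
            rw [Matrix.of_apply, if_neg]
            intro h5
            apply hs'
            have h6 : J s = y.1 := by
              rw [← h5, Function.comp_apply, e.apply_symm_apply]
            rw [h6]
            exact hblk _ y.2
        · have hemp : IsEmpty {b : B₁ // κ b.1 = i} := ⟨fun b => hi ⟨b.1, b.2⟩⟩
          have h3 := 𝒮.re (Equiv.equivOfIsEmpty Empty {b : B₁ // κ b.1 = i}) 𝒮.one
          convert h3 using 1
          refine ex_unique Subtype.val_injective (fun J' => ?_) fun J hJ => ?_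
          · simp only [detf]
            rw [Matrix.det_isEmpty]
          · exact absurd (funext fun s => (hemp.false s).elim) (hJ fun s => (hemp.false s).elim)
      · intro a b hab
        exact hF _ ⟨a, b, hab, rfl⟩
    · intro S _ _ F hF
      refine fft_cm (rst Sum.inr inr_inj (rst Sum.inr inr_inj 𝒯)) (fun a : B₂ => κ a.1) τ₂
        (fun a => Subtype.ext (hτ a.1)) (fun a => hBt a) (fun a b hab => hκτ _ _ hab) ?_ S F ?_
      · intro i
        rw [mem2]
        by_cases hi : ∃ a : B₂, κ a.1 = i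
        · obtain ⟨a, ha⟩ := hi
          have hblk : ∀ b, κ b = i → τ b ≠ b := by
            intro b hb h3
            apply hBt a
            rw [hκτ a.1 b (ha.trans hb.symm), h3, hb, ha]
          have hi₀ : i ≠ i₀ := ha ▸ hB0 a
          convert h2 i hi₀ using 1
          refine ex_unique Subtype.val_injective (fun J' => ?_) fun J hJ => ?_
          · exact ite_iff ⟨fun h => ⟨h.1, Subtype.ext h.2⟩, fun h => ⟨h.1, congrArg Subtype.val h.2⟩⟩
          · simp only [prf]
            rw [if_neg]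
            rintro ⟨h3, h4⟩
            have h5 := hblk _ h3
            have h6 : τ (J 1) ≠ J 1 := by
              rw [h4, hτ]
              exact fun h => h5 h.symm
            apply hJ (fun s => ⟨J s, by
              refine Fin.cases h5 (fun s => ?_) s
              rw [Subsingleton.elim s 0]
              exact h6⟩)
            rfl
        · have h0 : (fun J : Fin 2 → B₂ => if κ (J 0).1 = i ∧ J 1 = τ₂ (J 0) then (1 : K) else 0) =
              0 := by
            funext J
            rw [if_neg]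
            · rfl
            · rintro ⟨h, -⟩
              exact hi ⟨_, h⟩
          rw [h0, map_zero]
          exact Submodule.zero_mem _
      · intro a b hab
        exact hF _ ⟨a, b, hab, rfl⟩
    · rintro _ ⟨a, b, hab, rfl⟩
      exact hF _ (Or.inl ⟨a, b, hab, rfl⟩)
    · rintro _ ⟨a, b, hab, rfl⟩
      exact hF _ (Or.inr ⟨a, b, hab, rfl⟩)
  · intro X hX
    exact absurd hX (Set.notMem_empty _)
  · rintro X (⟨a, b, hab, rfl⟩ | ⟨a, b, hab, rfl⟩)
    · rw [hX₁]
      funext J
      rw [der_comp, hf a.1 b.1 hab a.2.1]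
      rfl
    · rw [hX₂]
      funext J
      rw [der_comp, hf a.1 (τ b.1) hab.symm (hB0 a)]
      rfl

end mixed

end Pool.Agent.H851.TT
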