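import Pool.Graph.R_pool_sql_team_seeded_63374d34.N429.KS.K5
import Pool.Graph.R_pool_sql_team_seeded_63374d34.N429.KS.P9

/-!
# Systems of forms on a direct sum of blocks
-/

set_option autoImplicit false
set_option linter.unusedSectionVars false

namespace Pool.Agent.H851.TT

open Matrix Finset Function
open Pool.Agent.N429.KS

section

variable {K : Type} [Field K]

/-- a function of two variables which is in `U` in the first one and in `W` in the second one is in
the span of the products -/
theorem tens {X Y : Type} [Fintype X] [DecidableEq X] (U : Submodule K (X → K))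
    (W : Submodule K (Y → K)) (P : Submodule K (X → Y → K))
    (hP : ∀ u ∈ U, ∀ w ∈ W, (fun x y => u x * w y) ∈ P) (F : X → Y → K)
    (hU : ∀ y, (fun x => F x y) ∈ U) (hW : ∀ x, F x ∈ W) : F ∈ P := by
  obtain ⟨π, hπ⟩ := LinearMap.exists_leftInverse_of_injective U.subtype
    (LinearMap.ker_eq_bot.2 U.injective_subtype)
  have h1 : ∀ u (hu : u ∈ U), (π u : X → K) = u := by
    intro u hu
    have := LinearMap.congr_fun hπ ⟨u, hu⟩
    exact congrArg Subtype.val this
  have h2 : F = ∑ x, fun x' y => (π (Pi.single x 1) : X → K) x' * F x y := by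
    funext x' y
    rw [Finset.sum_apply, Finset.sum_apply]
    have h3 : (fun x => F x y) = ∑ x, F x y • (Pi.single x (1 : K) : X → K) := by
      funext z
      rw [Finset.sum_apply, Finset.sum_eq_single z]
      · simp
      · intro w _ hw
        rw [Pi.smul_apply, Pi.single_eq_of_ne (Ne.symm hw), smul_zero]
      · intro h
        exact absurd (Finset.mem_univ _) h
    have h4 := congrFun (h1 _ (hU y)) x'
    rw [h3, map_sum] at h4
    have h5 : F x' y = ((∑ x, π (F x y • (Pi.single x (1 : K) : X → K)) : U) : X → K) x' := by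
      rw [h4]
    rw [h5]
    simp only [map_smul, AddSubmonoidClass.coe_finsetSum, SetLike.val_smul, Finset.sum_apply,
      Pi.smul_apply, smul_eq_mul]
    exact Finset.sum_congr rfl fun _ _ => mul_comm _ _
  rw [h2]
  exact Submodule.sum_mem _ fun x _ => hP _ (π _).2 _ (hW x)

variable {B B' : Type}

/-- extension by zero -/
noncomputable def ex (j : B' → B) (S : Type) : ((S → B') → K) →ₗ[K] ((S → B) → K) :=
  Function.ExtendByZero.linearMap K (fun J' : S → B' => j ∘ J')

theorem comp_inj {j : B' → B} (hj : Injective j) (S : Type) :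
    Injective (fun J' : S → B' => j ∘ J') := fun _ _ h => hj.comp_left h

theorem ex_apply {j : B' → B} (hj : Injective j) {S : Type} (f : (S → B') → K) (J : S → B') :
    ex j S f (j ∘ J) = f J :=
  (comp_inj hj S).extend_apply f 0 J

theorem ex_zero {j : B' → B} {S : Type} (f : (S → B') → K) (J : S → B)
    (h : ∀ J' : S → B', j ∘ J' ≠ J) : ex j S f J = 0 := by
  have h1 : ¬ ∃ J' : S → B', j ∘ J' = J := fun ⟨J', hJ'⟩ => h J' hJ'
  exact Function.extend_apply' (f := fun J' : S → B' => j ∘ J') f (0 : (S → B) → K) J h1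

/-- the restriction of a system of forms to a block -/
noncomputable def rst (j : B' → B) (hj : Injective j) (𝒮 : Sys K B) : Sys K B' where
  Alg S := (𝒮.Alg S).comap (ex j S)
  one := by
    rw [Submodule.mem_comap]
    have h1 : ex j Empty (fun _ : Empty → B' => (1 : K)) = fun _ => 1 := by
      funext J
      have h2 : J = j ∘ (fun x : Empty => x.elim) := funext fun x => x.elim
      rw [h2, ex_apply hj]
    rw [h1]
    exact 𝒮.one
  re := by
    intro S T _ _ e f hf
    rw [Submodule.mem_comap] at hf ⊢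
    have h1 := 𝒮.re e hf
    convert h1 using 1
    funext J
    by_cases h : ∃ J' : T → B', j ∘ J' = J
    · obtain ⟨J', rfl⟩ := h
      rw [ex_apply hj, show (j ∘ J') ∘ e = j ∘ (J' ∘ e) from rfl, ex_apply hj]
    · have h' : ∀ J' : T → B', j ∘ J' ≠ J := fun J' hJ' => h ⟨J', hJ'⟩
      rw [ex_zero _ _ h', ex_zero]
      intro J' hJ'
      apply h' (J' ∘ e.symm)
      funext t
      have := congrFun hJ' (e.symm t)
      simpa using this
  mul := by
    intro S T _ _ f g hf hg
    rw [Submodule.mem_comap] at hf hg ⊢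
    have h1 := 𝒮.mul hf hg
    convert h1 using 1
    funext J
    by_cases h : ∃ J' : S ⊕ T → B', j ∘ J' = J
    · obtain ⟨J', rfl⟩ := h
      rw [ex_apply hj, show (j ∘ J') ∘ Sum.inl = j ∘ (J' ∘ Sum.inl) from rfl,
        show (j ∘ J') ∘ Sum.inr = j ∘ (J' ∘ Sum.inr) from rfl, ex_apply hj, ex_apply hj]
    · have h' : ∀ J' : S ⊕ T → B', j ∘ J' ≠ J := fun J' hJ' => h ⟨J', hJ'⟩
      rw [ex_zero _ _ h']
      by_cases h1 : ∃ J' : S → B', j ∘ J' = J ∘ Sum.inl
      · obtain ⟨J₁, hJ₁⟩ := h1
        rw [ex_zero (J := J ∘ Sum.inr), mul_zero]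
        intro J₂ hJ₂
        apply h' (Sum.elim J₁ J₂)
        funext x
        rcases x with x | x
        · exact congrFun hJ₁ x
        · exact congrFun hJ₂ x
      · rw [ex_zero (J := J ∘ Sum.inl), zero_mul]
        exact fun J' hJ' => h1 ⟨J', hJ'⟩

theorem mem_rst {j : B' → B} {hj : Injective j} {𝒮 : Sys K B} {S : Type} {f : (S → B') → K} :
    f ∈ (rst j hj 𝒮).Alg S ↔ ex j S f ∈ 𝒮.Alg S := Iff.rfl

end

section split

variable {K : Type} [Field K] {B₁ B₂ : Type} [Fintype B₁] [DecidableEq B₁] [Fintype B₂]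
  [DecidableEq B₂]

theorem inl_inj : Injective (Sum.inl : B₁ → B₁ ⊕ B₂) := Sum.inl_injective
theorem inr_inj : Injective (Sum.inr : B₂ → B₁ ⊕ B₂) := Sum.inr_injective

variable {S : Type} [Fintype S] [DecidableEq S]

/-- the tuple with the given entries in the two blocks -/
def mrg (c : S → Prop) [DecidablePred c] (J₁ : {s // c s} → B₁) (J₂ : {s // ¬ c s} → B₂) :
    S → B₁ ⊕ B₂ :=
  fun s => if h : c s then Sum.inl (J₁ ⟨s, h⟩) else Sum.inr (J₂ ⟨s, h⟩)

variable {c : S → Prop} [DecidablePred c]

theorem mrg_pos {J₁ : {s // c s} → B₁} {J₂ : {s // ¬ c s} → B₂} {s : S} (h : c s) :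
    mrg c J₁ J₂ s = Sum.inl (J₁ ⟨s, h⟩) := dif_pos h

theorem mrg_neg {J₁ : {s // c s} → B₁} {J₂ : {s // ¬ c s} → B₂} {s : S} (h : ¬ c s) :
    mrg c J₁ J₂ s = Sum.inr (J₂ ⟨s, h⟩) := dif_neg h

theorem mrg_update₁ {J₁ : {s // c s} → B₁} {J₂ : {s // ¬ c s} → B₂} {s : S} (h : c s) (b : B₁) :
    mrg c (update J₁ ⟨s, h⟩ b) J₂ = update (mrg c J₁ J₂) s (Sum.inl b) := by
  funext t
  by_cases hts : t = s
  · subst hts
    rw [update_self, mrg_pos h, update_self]
  · rw [update_of_ne hts]
    by_cases ht : c t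
    · rw [mrg_pos ht, mrg_pos ht, update_of_ne]
      intro h1
      exact hts (congrArg Subtype.val h1)
    · rw [mrg_neg ht, mrg_neg ht]

theorem mrg_update₂ {J₁ : {s // c s} → B₁} {J₂ : {s // ¬ c s} → B₂} {s : S} (h : ¬ c s) (b : B₂) :
    mrg c J₁ (update J₂ ⟨s, h⟩ b) = update (mrg c J₁ J₂) s (Sum.inr b) := by
  funext t
  by_cases hts : t = s
  · subst hts
    rw [update_self, mrg_neg h, update_self]
  · rw [update_of_ne hts]
    by_cases ht : c t
    · rw [mrg_pos ht, mrg_pos ht]
    · rw [mrg_neg ht, mrg_neg ht, update_of_ne]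
      intro h1
      exact hts (congrArg Subtype.val h1)

theorem der_mrg₁ (X : Matrix B₁ B₁ K) (f : (S → B₁ ⊕ B₂) → K) (J₁ : {s // c s} → B₁)
    (J₂ : {s // ¬ c s} → B₂) :
    der X (fun J₁ => f (mrg c J₁ J₂)) J₁ =
      der (Matrix.fromBlocks X 0 0 0) f (mrg c J₁ J₂) := by
  unfold der
  rw [← Fintype.sum_subtype_add_sum_subtype c]
  have h2 : ∑ s : {s // ¬ c s}, ∑ b, Matrix.fromBlocks X 0 0 (0 : Matrix B₂ B₂ K) b
      (mrg c J₁ J₂ s.1) * f (update (mrg c J₁ J₂) s.1 b) = 0 := by
    refine Finset.sum_eq_zero fun s _ => Finset.sum_eq_zero fun b _ => ?_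
    rw [mrg_neg s.2]
    rcases b with b | b
    · rw [Matrix.fromBlocks_apply₁₂, Matrix.zero_apply, zero_mul]
    · rw [Matrix.fromBlocks_apply₂₂, Matrix.zero_apply, zero_mul]
  rw [h2, add_zero]
  refine Finset.sum_congr rfl fun s _ => ?_
  rw [Fintype.sum_sum_type, mrg_pos s.2]
  have h3 : ∑ b : B₂, Matrix.fromBlocks X 0 0 (0 : Matrix B₂ B₂ K) (Sum.inr b) (Sum.inl (J₁ ⟨s.1, s.2⟩)) *
      f (update (mrg c J₁ J₂) s.1 (Sum.inr b)) = 0 := by
    refine Finset.sum_eq_zero fun b _ => ?_
    rw [Matrix.fromBlocks_apply₂₁, Matrix.zero_apply, zero_mul]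
  rw [h3, add_zero]
  refine Finset.sum_congr rfl fun b _ => ?_
  rw [Matrix.fromBlocks_apply₁₁, ← mrg_update₁ s.2]

theorem der_mrg₂ (X : Matrix B₂ B₂ K) (f : (S → B₁ ⊕ B₂) → K) (J₁ : {s // c s} → B₁)
    (J₂ : {s // ¬ c s} → B₂) :
    der X (fun J₂ => f (mrg c J₁ J₂)) J₂ =
      der (Matrix.fromBlocks 0 0 0 X) f (mrg c J₁ J₂) := by
  unfold der
  rw [← Fintype.sum_subtype_add_sum_subtype c]
  have h2 : ∑ s : {s // c s}, ∑ b, Matrix.fromBlocks (0 : Matrix B₁ B₁ K) 0 0 X b
      (mrg c J₁ J₂ s.1) * f (update (mrg c J₁ J₂) s.1 b) = 0 := by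
    refine Finset.sum_eq_zero fun s _ => Finset.sum_eq_zero fun b _ => ?_
    rw [mrg_pos s.2]
    rcases b with b | b
    · rw [Matrix.fromBlocks_apply₁₁, Matrix.zero_apply, zero_mul]
    · rw [Matrix.fromBlocks_apply₂₁, Matrix.zero_apply, zero_mul]
  rw [h2, zero_add]
  refine Finset.sum_congr rfl fun s _ => ?_
  rw [Fintype.sum_sum_type, mrg_neg s.2]
  have h3 : ∑ b : B₁, Matrix.fromBlocks (0 : Matrix B₁ B₁ K) 0 0 X (Sum.inl b) (Sum.inr (J₂ ⟨s.1, s.2⟩)) *
      f (update (mrg c J₁ J₂) s.1 (Sum.inl b)) = 0 := by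
    refine Finset.sum_eq_zero fun b _ => ?_
    rw [Matrix.fromBlocks_apply₁₂, Matrix.zero_apply, zero_mul]
  rw [h3, zero_add]
  refine Finset.sum_congr rfl fun b _ => ?_
  rw [Matrix.fromBlocks_apply₂₂, ← mrg_update₂ s.2]

/-- **The splitting theorem.** -/
theorem split (𝒮 : Sys K (B₁ ⊕ B₂)) (L₁ : Set (Matrix B₁ B₁ K)) (L₂ : Set (Matrix B₂ B₂ K))
    (h₁ : ∀ (S : Type) [Fintype S] [DecidableEq S] (F : (S → B₁) → K), (∀ X ∈ L₁, der X F = 0) →
      F ∈ (rst Sum.inl inl_inj 𝒮).Alg S)
    (h₂ : ∀ (S : Type) [Fintype S] [DecidableEq S] (F : (S → B₂) → K), (∀ X ∈ L₂, der X F = 0) →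
      F ∈ (rst Sum.inr inr_inj 𝒮).Alg S)
    (f : (S → B₁ ⊕ B₂) → K) (hf₁ : ∀ X ∈ L₁, der (Matrix.fromBlocks X 0 0 0) f = 0)
    (hf₂ : ∀ X ∈ L₂, der (Matrix.fromBlocks 0 0 0 X) f = 0) : f ∈ 𝒮.Alg S := by
  classical
  -- the part of the pattern `c`
  have key : ∀ c : S → Bool, (fun J => if (fun s => (J s).isLeft) = c then f J else 0) ∈
      𝒮.Alg S := by
    intro c
    let p : S → Prop := fun s => c s = true
    let P : Submodule K (({s // p s} → B₁) → ({s // ¬ p s} → B₂) → K) :=
      { carrier := {F | (fun J : S → B₁ ⊕ B₂ => if (fun s => (J s).isLeft) = c then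
          (∑ J₁, ∑ J₂, if mrg p J₁ J₂ = J then F J₁ J₂ else 0) else 0) ∈ 𝒮.Alg S}
        add_mem' := by
          intro F G hF hG
          have := Submodule.add_mem _ hF hG
          change _ ∈ 𝒮.Alg S
          convert this using 1
          funext J
          simp only [Pi.add_apply]
          split_ifs with h
          · rw [← Finset.sum_add_distrib]
            refine Finset.sum_congr rfl fun J₁ _ => ?_
            rw [← Finset.sum_add_distrib]
            refine Finset.sum_congr rfl fun J₂ _ => ?_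
            split_ifs
            · rfl
            · rw [add_zero]
          · rw [add_zero]
        zero_mem' := by
          have h0 : (fun J : S → B₁ ⊕ B₂ => if (fun s => (J s).isLeft) = c then
              (∑ J₁ : {s // p s} → B₁, ∑ J₂ : {s // ¬ p s} → B₂,
                if mrg p J₁ J₂ = J then (0 : K) else 0) else 0) = 0 := by
            funext J
            simp
          change (fun J : S → B₁ ⊕ B₂ => if (fun s => (J s).isLeft) = c then
              (∑ J₁ : {s // p s} → B₁, ∑ J₂ : {s // ¬ p s} → B₂,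
                if mrg p J₁ J₂ = J then (0 : K) else 0) else 0) ∈ 𝒮.Alg S
          rw [h0]
          exact Submodule.zero_mem _
        smul_mem' := by
          intro a F hF
          have := Submodule.smul_mem _ a hF
          change _ ∈ 𝒮.Alg S
          convert this using 1
          funext J
          simp only [Pi.smul_apply, smul_eq_mul]
          split_ifs with h
          · rw [Finset.mul_sum]
            refine Finset.sum_congr rfl fun J₁ _ => ?_
            rw [Finset.mul_sum]
            refine Finset.sum_congr rfl fun J₂ _ => ?_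
            split_ifs
            · rfl
            · rw [mul_zero]
          · rw [mul_zero] }
    -- a tuple of the pattern `c` is of the form `mrg`
    have hmrg : ∀ J : S → B₁ ⊕ B₂, (fun s => (J s).isLeft) = c → ∃ J₁ J₂, mrg p J₁ J₂ = J := by
      intro J hJ
      have e1 : ∀ s : {s // p s}, ∃ b, J s.1 = Sum.inl b := by
        rintro ⟨s, hs⟩
        have h3 := congrFun hJ s
        have h4 : (J s).isLeft = true := h3.trans hs
        rcases hJs : J s with b | b
        · exact ⟨b, rfl⟩
        · rw [hJs] at h4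
          exact absurd h4 (by simp)
      have e2 : ∀ s : {s // ¬ p s}, ∃ b, J s.1 = Sum.inr b := by
        rintro ⟨s, hs⟩
        have h3 := congrFun hJ s
        rcases hJs : J s with b | b
        · exfalso
          apply hs
          change c s = true
          rw [← h3, hJs]
          rfl
        · exact ⟨b, rfl⟩
      choose J₁ hJ₁ using e1
      choose J₂ hJ₂ using e2
      refine ⟨J₁, J₂, funext fun s => ?_⟩
      by_cases hs : p s
      · rw [mrg_pos hs, hJ₁ ⟨s, hs⟩]
      · rw [mrg_neg hs, hJ₂ ⟨s, hs⟩]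
    have hinj : ∀ J₁ J₂ J₁' J₂', mrg (B₁ := B₁) (B₂ := B₂) p J₁ J₂ = mrg p J₁' J₂' →
        J₁ = J₁' ∧ J₂ = J₂' := by
      intro J₁ J₂ J₁' J₂' h
      constructor
      · funext s
        have := congrFun h s.1
        rw [mrg_pos s.2, mrg_pos s.2] at this
        exact Sum.inl_injective this
      · funext s
        have := congrFun h s.1
        rw [mrg_neg s.2, mrg_neg s.2] at this
        exact Sum.inr_injective this
    have hsum : ∀ (F : ({s // p s} → B₁) → ({s // ¬ p s} → B₂) → K) J₁ J₂,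
        (∑ J₁', ∑ J₂', if mrg p J₁' J₂' = mrg p J₁ J₂ then F J₁' J₂' else 0) = F J₁ J₂ := by
      intro F J₁ J₂
      rw [Finset.sum_eq_single J₁]
      · rw [Finset.sum_eq_single J₂]
        · rw [if_pos rfl]
        · intro J₂' _ hne
          rw [if_neg fun h => hne (hinj _ _ _ _ h).2]
        · intro h
          exact absurd (Finset.mem_univ _) h
      · intro J₁' _ hne
        refine Finset.sum_eq_zero fun J₂' _ => ?_
        rw [if_neg fun h => hne (hinj _ _ _ _ h).1]
      · intro h
        exact absurd (Finset.mem_univ _) h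
    have hF : (fun J₁ J₂ => f (mrg p J₁ J₂)) ∈ P := by
      refine tens ((rst Sum.inl inl_inj 𝒮).Alg {s // p s}) ((rst Sum.inr inr_inj 𝒮).Alg
        {s // ¬ p s}) P ?_ _ ?_ ?_
      · intro u hu w hw
        rw [mem_rst] at hu hw
        have h3 := 𝒮.re (Equiv.sumCompl p) (𝒮.mul hu hw)
        change _ ∈ 𝒮.Alg S
        convert h3 using 1
        funext J
        by_cases hJ : (fun s => (J s).isLeft) = c
        · obtain ⟨J₁, J₂, rfl⟩ := hmrg J hJ
          rw [if_pos hJ, hsum (fun J₁ J₂ => u J₁ * w J₂)]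
          have e1 : (mrg p J₁ J₂ ∘ (Equiv.sumCompl p)) ∘ Sum.inl = Sum.inl ∘ J₁ := by
            funext s
            change mrg p J₁ J₂ s.1 = _
            rw [mrg_pos s.2]
            rfl
          have e2 : (mrg p J₁ J₂ ∘ (Equiv.sumCompl p)) ∘ Sum.inr = Sum.inr ∘ J₂ := by
            funext s
            change mrg p J₁ J₂ s.1 = _
            rw [mrg_neg s.2]
            rfl
          rw [e1, e2, ex_apply inl_inj, ex_apply inr_inj]
        · rw [if_neg hJ]
          symm
          by_cases e1 : ∃ J₁ : {s // p s} → B₁, Sum.inl ∘ J₁ =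
              (J ∘ (Equiv.sumCompl p)) ∘ Sum.inl
          · obtain ⟨J₁, hJ₁⟩ := e1
            rw [ex_zero (J := (J ∘ (Equiv.sumCompl p)) ∘ Sum.inr), mul_zero]
            intro J₂ hJ₂
            apply hJ
            funext s
            by_cases hs : p s
            · have := congrFun hJ₁ ⟨s, hs⟩
              change Sum.inl _ = J s at this
              rw [← this]
              exact hs.symm
            · have := congrFun hJ₂ ⟨s, hs⟩
              change Sum.inr _ = J s at this
              rw [← this]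
              change false = c s
              have : c s ≠ true := hs
              cases h : c s
              · rfl
              · exact absurd h this
          · rw [ex_zero (J := (J ∘ (Equiv.sumCompl p)) ∘ Sum.inl), zero_mul]
            exact fun J₁ hJ₁ => e1 ⟨J₁, hJ₁⟩
      · intro J₂
        refine h₁ _ _ fun X hX => ?_
        funext J₁
        rw [der_mrg₁, hf₁ X hX]
        rfl
      · intro J₁
        refine h₂ _ _ fun X hX => ?_
        funext J₂
        rw [der_mrg₂, hf₂ X hX]
        rfl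
    have h3 : (fun J : S → B₁ ⊕ B₂ => if (fun s => (J s).isLeft) = c then
          (∑ J₁, ∑ J₂, if mrg p J₁ J₂ = J then f (mrg p J₁ J₂) else 0) else 0) ∈ 𝒮.Alg S := hF
    convert h3 using 1
    funext J
    by_cases hJ : (fun s => (J s).isLeft) = c
    · obtain ⟨J₁, J₂, rfl⟩ := hmrg J hJ
      rw [if_pos hJ, if_pos hJ, hsum (fun J₁ J₂ => f (mrg p J₁ J₂))]
    · rw [if_neg hJ, if_neg hJ]
  have hdec : f = ∑ c : S → Bool, (fun J => if (fun s => (J s).isLeft) = c then f J else 0) := by
    funext J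
    rw [Finset.sum_apply, Finset.sum_eq_single (fun s => (J s).isLeft)]
    · rw [if_pos rfl]
    · intro c _ hc
      rw [if_neg (Ne.symm hc)]
    · intro h
      exact absurd (Finset.mem_univ _) h
  rw [hdec]
  exact Submodule.sum_mem _ fun c _ => key c

end split

end Pool.Agent.H851.TT
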