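import Pool.Agent.H851.TT.Gen

/-!
# Semisimplicity of the commutant on the transcendental part
-/

set_option autoImplicit false
set_option linter.unusedSectionVars false

namespace Pool.Agent.H851.TT

open Matrix Finset Function Module Polynomial
open LinearMap (toMatrix' toMatrix'_mul toMatrix'_one toMatrix'_toLin')

section

variable {k : Type} [Field k] [CharZero k] {n : Type} [Fintype n] [DecidableEq n]
  {L : Set (Matrix n n k)}

theorem Cm.add {A B : Matrix n n k} (hA : A ∈ Cm L) (hB : B ∈ Cm L) : A + B ∈ Cm L :=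
  fun X hX => by rw [mul_add, add_mul, hA X hX, hB X hX]

theorem Cm.mul {A B : Matrix n n k} (hA : A ∈ Cm L) (hB : B ∈ Cm L) : A * B ∈ Cm L :=
  fun X hX => by rw [← mul_assoc, hA X hX, mul_assoc, hB X hX, mul_assoc]

theorem Cm.smul {A : Matrix n n k} (c : k) (hA : A ∈ Cm L) : c • A ∈ Cm L :=
  fun X hX => by rw [mul_smul_comm, hA X hX, smul_mul_assoc]

theorem Cm.one : (1 : Matrix n n k) ∈ Cm L := fun X _ => by rw [mul_one, one_mul]

theorem Cm.sub {A B : Matrix n n k} (hA : A ∈ Cm L) (hB : B ∈ Cm L) : A - B ∈ Cm L :=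
  fun X hX => by rw [mul_sub, sub_mul, hA X hX, hB X hX]

theorem Cm.pow {A : Matrix n n k} (hA : A ∈ Cm L) (m : ℕ) : A ^ m ∈ Cm L := by
  induction m with
  | zero => rw [pow_zero]; exact Cm.one
  | succ m ih => rw [pow_succ]; exact Cm.mul ih hA

variable {P : Matrix n n k}

/-- nilpotent elements of the commutant vanish on the transcendental part -/
theorem nil_zero (hcomm : ∀ Y ∈ Cm L, ∀ Y' ∈ Cm L, Y * Y' * (1 - P) = Y' * Y * (1 - P))
    (hproj : ∀ N ∈ Cm L, ∃ Q ∈ Cm L, Q * N = N ∧ ∃ M, Q = N * M)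
    {N : Matrix n n k} (hN : N ∈ Cm L) (hNP : N * (1 - P) = N) (hnil : IsNilpotent N) : N = 0 := by
  have key : ∀ N ∈ Cm L, N * (1 - P) = N → N * N = 0 → N = 0 := by
    intro N hN hNP hNN
    obtain ⟨Q, hQ, hQN, M, hM⟩ := hproj N hN
    have h1 := hcomm N hN Q hQ
    have h2 : N * Q = 0 := by rw [hM, ← Matrix.mul_assoc, hNN, Matrix.zero_mul]
    rw [h2, Matrix.zero_mul, hQN, hNP] at h1
    exact h1.symm
  by_contra hne
  classical
  have hex : ∃ m, N ^ m = 0 := hnil
  set m := Nat.find hex with hm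
  have hm0 : N ^ m = 0 := Nat.find_spec hex
  have hmin : ∀ j < m, N ^ j ≠ 0 := fun j hj => Nat.find_min hex hj
  have hm2 : 2 ≤ m := by
    by_contra hlt
    push Not at hlt
    interval_cases hh : m
    · rw [pow_zero] at hm0
      apply hne
      rw [← one_mul N, hm0, Matrix.zero_mul]
    · rw [pow_one] at hm0
      exact hne hm0
  apply hmin (m - 1) (by omega)
  refine key _ (Cm.pow hN _) ?_ ?_
  · obtain ⟨j, hj⟩ : ∃ j, m - 1 = j + 1 := ⟨m - 2, by omega⟩
    rw [hj, pow_succ, Matrix.mul_assoc, hNP]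
  · rw [← pow_add, show m - 1 + (m - 1) = m + (m - 2) by omega, pow_add, hm0, Matrix.zero_mul]

theorem ss_k (hcomm : ∀ Y ∈ Cm L, ∀ Y' ∈ Cm L, Y * Y' * (1 - P) = Y' * Y * (1 - P))
    (hproj : ∀ N ∈ Cm L, ∃ Q ∈ Cm L, Q * N = N ∧ ∃ M, Q = N * M)
    (hP : P ∈ Cm L) (hPP : P * P = P) (hcen : ∀ Y ∈ Cm L, Y * P = P * Y)
    {Y : Matrix n n k} (hY : Y ∈ Cm L) :
    End.IsSemisimple (toLin' (Y * (1 - P)) : End k (n → k)) := by
  set F := Y * (1 - P) with hF
  have hFm : F ∈ Cm L := Cm.mul hY (Cm.sub Cm.one hP)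
  obtain ⟨n₀, hn₀, s, hs, hnil, hss, hns⟩ := End.exists_isNilpotent_isSemisimple
    (K := k) (f := (toLin' F : End k (n → k)))
  have key : ∀ a ∈ Algebra.adjoin k {(toLin' F : End k (n → k))},
      toMatrix' a ∈ Cm L ∧ ∃ c : k, toMatrix' a * P = c • P := by
    intro a ha
    induction ha using Algebra.adjoin_induction with
    | mem x hx =>
      rw [Set.mem_singleton_iff.1 hx, toMatrix'_toLin']
      refine ⟨hFm, 0, ?_⟩
      rw [hF, Matrix.mul_assoc, Matrix.sub_mul, Matrix.one_mul, hPP, sub_self, Matrix.mul_zero,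
        zero_smul]
    | algebraMap c =>
      have h1 : toMatrix' (algebraMap k (End k (n → k)) c) = c • (1 : Matrix n n k) := by
        rw [Algebra.algebraMap_eq_smul_one, map_smul]
        congr 1
        exact toMatrix'_one
      rw [h1]
      exact ⟨Cm.smul c Cm.one, c, by rw [smul_mul_assoc, one_mul]⟩
    | add x y _ _ hx hy =>
      obtain ⟨h1, c, hc⟩ := hx
      obtain ⟨h2, d, hd⟩ := hy
      rw [map_add]
      exact ⟨Cm.add h1 h2, c + d, by rw [add_mul, hc, hd, add_smul]⟩
    | mul x y _ _ hx hy =>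
      obtain ⟨h1, c, hc⟩ := hx
      obtain ⟨h2, d, hd⟩ := hy
      rw [show toMatrix' (x * y) = toMatrix' x * toMatrix' y from toMatrix'_mul x y]
      refine ⟨Cm.mul h1 h2, c * d, ?_⟩
      rw [Matrix.mul_assoc, hd, Matrix.mul_smul, hc, smul_smul, mul_comm]
  obtain ⟨hm, c, hc⟩ := key n₀ hn₀
  have hnil' : IsNilpotent (toMatrix' n₀) := by
    obtain ⟨m, hm⟩ := hnil
    refine ⟨m, ?_⟩
    have h1 : ∀ m : ℕ, toMatrix' (n₀ ^ m) = (toMatrix' n₀) ^ m := by
      intro m
      induction m with
      | zero => rw [pow_zero, pow_zero]; exact toMatrix'_one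
      | succ m ih =>
        rw [pow_succ, pow_succ, ← ih]
        exact toMatrix'_mul _ _
    rw [← h1, hm, map_zero]
  have hcomP : Commute (toMatrix' n₀) (1 - P) := by
    change _ * _ = _ * _
    rw [Matrix.mul_sub, Matrix.sub_mul, hcen _ hm, Matrix.mul_one, Matrix.one_mul]
  have hP1 : (1 - P) * (1 - P) = 1 - P := by
    rw [Matrix.sub_mul, Matrix.one_mul, Matrix.mul_sub, Matrix.mul_one, hPP, sub_self, sub_zero]
  have h0 : toMatrix' n₀ * (1 - P) = 0 :=
    nil_zero hcomm hproj (Cm.mul hm (Cm.sub Cm.one hP)) (by rw [Matrix.mul_assoc, hP1])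
      (hcomP.isNilpotent_mul_right hnil')
  have h1 : toMatrix' n₀ = c • P := by
    rw [Matrix.mul_sub, Matrix.mul_one, sub_eq_zero] at h0
    rw [h0, hc]
  have h2 : toMatrix' n₀ = 0 := by
    obtain ⟨m, hm'⟩ := hnil'
    rw [h1, _root_.smul_pow] at hm'
    have h3 : c ^ m = 0 ∨ P = 0 := by
      rcases Nat.eq_zero_or_pos m with h | h
      · subst h
        rw [pow_zero, pow_zero, one_smul] at hm'
        right
        rw [← one_mul P, hm', Matrix.zero_mul]
      · have h4 : P ^ m = P := by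
          obtain ⟨j, rfl⟩ : ∃ j, m = j + 1 := ⟨m - 1, by omega⟩
          clear hm' h
          induction j with
          | zero => rw [zero_add, pow_one]
          | succ j ih => rw [pow_succ, ih, hPP]
        rw [h4] at hm'
        exact smul_eq_zero.1 hm'
    rcases h3 with h3 | h3
    · rw [h1, eq_zero_of_pow_eq_zero h3, zero_smul]
    · rw [h1, h3, smul_zero]
  have h3 : n₀ = 0 := by
    apply toMatrix'.injective
    rw [h2, map_zero]
  rw [hns, h3, zero_add]
  exact hss

/-- base change -/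
theorem ss_C {C : Type} [Field C] [CharZero C] [Algebra k C] {F : Matrix n n k}
    (h : End.IsSemisimple (toLin' F : End k (n → k))) :
    End.IsSemisimple (toLin' (mp C F) : End C (n → C)) := by
  have h1 := h.minpoly_squarefree
  have h2 : (minpoly k (toLin' F : End k (n → k))).Separable :=
    PerfectField.separable_iff_squarefree.2 h1
  have h3 := (h2.map (f := algebraMap k C)).squarefree
  refine End.isSemisimple_of_squarefree_aeval_eq_zero h3 ?_
  have e1 : ∀ {k : Type} [Field k] (M : Matrix n n k) (p : k[X]),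
      aeval (toLin' M : End k (n → k)) p = toLin' (aeval M p) := by
    intro k _ M p
    exact Polynomial.aeval_algHom_apply (Matrix.toLinAlgEquiv' : Matrix n n k ≃ₐ[k] _).toAlgHom M p
  have e2 : aeval F (minpoly k (toLin' F : End k (n → k))) = 0 := by
    have h4 := minpoly.aeval k (toLin' F : End k (n → k))
    rw [e1] at h4
    exact (Matrix.toLin' : Matrix n n k ≃ₗ[k] _).injective (h4.trans (map_zero _).symm)
  rw [e1]
  have e3 : aeval (mp C F) ((minpoly k (toLin' F : End k (n → k))).map (algebraMap k C)) =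
      mp C (aeval F (minpoly k (toLin' F : End k (n → k)))) := by
    have h5 := Polynomial.map_aeval_eq_aeval_map (S := Matrix n n k) (U := Matrix n n C)
      (φ := algebraMap k C) (ψ := (algebraMap k C).mapMatrix) (by
        ext c i j
        rcases eq_or_ne i j with h | h
        · subst h
          simp [Matrix.algebraMap_matrix_apply]
        · simp [Matrix.algebraMap_matrix_apply, h]) (minpoly k (toLin' F : End k (n → k))) F
    exact h5.symm
  rw [e3, e2, mp_zero, map_zero]

end

end Pool.Agent.H851.TT
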